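import Mathlib

/-!
# The second moment of the number of divisors of `n ^ 2 + 1`
-/

set_option autoImplicit false

namespace Pool.Agent.ParityQuad

open Finset

/-- number of divisors -/
def tau (n : ℕ) : ℕ := n.divisors.card

theorem tau_mul_le (a b : ℕ) : tau (a * b) ≤ tau a * tau b := by
  unfold tau
  rw [Nat.divisors_mul]
  exact Finset.card_mul_le

theorem tau_pos {n : ℕ} (h : n ≠ 0) : 1 ≤ tau n := by
  unfold tau
  exact Finset.card_pos.2 ⟨1, Nat.one_mem_divisors.2 h⟩

theorem exists_half (m : ℕ) (hm : 1 ≤ m) : ∃ d, d ∣ m ∧ d ^ 2 ≤ m ∧ tau m ≤ 2 * tau d ^ 2 := by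
  have hS : (m.divisors.filter (fun d => d ^ 2 ≤ m)).Nonempty :=
    ⟨1, by rw [Finset.mem_filter, Nat.mem_divisors]; exact ⟨⟨one_dvd _, by omega⟩, by omega⟩⟩
  obtain ⟨d, hd, hmax⟩ := Finset.exists_max_image _ id hS
  rw [Finset.mem_filter, Nat.mem_divisors] at hd
  obtain ⟨⟨⟨m', hm'⟩, hm0⟩, hd2⟩ := hd
  have hdpos : 0 < d := Nat.pos_of_ne_zero (by rintro rfl; simp at hm'; omega)
  rcases Nat.lt_or_ge m 2 with h1 | h1
  · have : m = 1 := by omega
    subst this
    refine ⟨1, one_dvd _, by norm_num, ?_⟩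
    simp [tau]
  · have hm'1 : m' ≠ 1 := by
      rintro rfl
      rw [mul_one] at hm'
      subst hm'
      nlinarith
    obtain ⟨p, hp, e, he⟩ := Nat.exists_prime_and_dvd hm'1
    have hppos := hp.pos
    have hdp : m < (d * p) ^ 2 := by
      by_contra hcon
      push Not at hcon
      have hmem : d * p ∈ m.divisors.filter (fun d => d ^ 2 ≤ m) := by
        rw [Finset.mem_filter, Nat.mem_divisors]
        exact ⟨⟨⟨e, by rw [hm', he]; ring⟩, hm0⟩, hcon⟩
      have := hmax _ hmem
      simp only [id] at this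
      have h2 := hp.two_le
      nlinarith
    have he2 : e ^ 2 ≤ m := by
      have h3 : m = d * p * e := by rw [hm', he]; ring
      by_contra hcon
      push Not at hcon
      have h4 : m * m < (d * p) ^ 2 * e ^ 2 := Nat.mul_lt_mul'' hdp hcon
      have h5 : (d * p) ^ 2 * e ^ 2 = m * m := by rw [h3]; ring
      omega
    have htau : tau m ≤ 2 * (tau d * tau e) := by
      have h3 : m = d * (p * e) := by rw [hm', he]
      calc tau m = tau (d * (p * e)) := by rw [← h3]
        _ ≤ tau d * tau (p * e) := tau_mul_le _ _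
        _ ≤ tau d * (tau p * tau e) := Nat.mul_le_mul_left _ (tau_mul_le _ _)
        _ = 2 * (tau d * tau e) := by
            have : tau p = 2 := by
              unfold tau
              rw [hp.divisors, Finset.card_pair hp.one_lt.ne]
            rw [this]; ring
    rcases le_total (tau d) (tau e) with h | h
    · refine ⟨e, ⟨d * p, by rw [hm', he]; ring⟩, he2, htau.trans ?_⟩
      nlinarith
    · refine ⟨d, ⟨m', hm'⟩, hd2, htau.trans ?_⟩
      nlinarith

/-- the number of solutions of `n ^ 2 = -1` modulo `d` up to `N` -/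
theorem count_roots (N d : ℕ) (hd : 1 ≤ d) :
    (((Finset.Icc 1 N).filter (fun n => d ∣ n ^ 2 + 1)).card : ℝ) ≤ tau d * (2 * N / d + 1) := by
  classical
  set A := (Finset.Icc 1 N).filter (fun n => d ∣ n ^ 2 + 1) with hA
  rcases A.eq_empty_or_nonempty with h | ⟨n0, hn0⟩
  · rw [h]; simp; positivity
  rw [hA, Finset.mem_filter] at hn0
  have hmaps : ∀ n ∈ A, Int.gcd ((n : ℤ) - n0) d ∈ d.divisors := by
    intro n _
    rw [Nat.mem_divisors]
    refine ⟨?_, by omega⟩
    have := Int.gcd_dvd_right ((n : ℤ) - n0) (d : ℤ)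
    exact_mod_cast this
  rw [Finset.card_eq_sum_card_fiberwise hmaps]
  push_cast
  have hfib : ∀ g ∈ d.divisors, (((A.filter (fun n : ℕ => Int.gcd ((n : ℤ) - n0) d = g)).card : ℕ) : ℝ) ≤
      2 * N / d + 1 := by
    intro g hg
    rw [Nat.mem_divisors] at hg
    obtain ⟨⟨k, hk⟩, _⟩ := hg
    have hgpos : 0 < g := Nat.pos_of_ne_zero (by rintro rfl; simp at hk; omega)
    have hkpos : 0 < k := Nat.pos_of_ne_zero (by rintro rfl; simp at hk; omega)
    -- any two members are congruent modulo d / 2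
    have hprop : ∀ n ∈ A, Int.gcd ((n : ℤ) - n0) d = g →
        (g : ℤ) ∣ (n : ℤ) - n0 ∧ (k : ℤ) ∣ (n : ℤ) + n0 := by
      intro n hn hng
      have h1 : (g : ℤ) ∣ (n : ℤ) - n0 := by rw [← hng]; exact Int.gcd_dvd_left _ _
      refine ⟨h1, ?_⟩
      rw [hA, Finset.mem_filter] at hn
      have h2 : (d : ℤ) ∣ ((n : ℤ) - n0) * ((n : ℤ) + n0) := by
        have e1 : (d : ℤ) ∣ ((n : ℤ) ^ 2 + 1) := by exact_mod_cast hn.2
        have e2 : (d : ℤ) ∣ ((n0 : ℤ) ^ 2 + 1) := by exact_mod_cast hn0.2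
        have := dvd_sub e1 e2
        have e3 : ((n : ℤ) ^ 2 + 1) - ((n0 : ℤ) ^ 2 + 1) = ((n : ℤ) - n0) * ((n : ℤ) + n0) := by ring
        rwa [e3] at this
      obtain ⟨a, ha⟩ := h1
      have hcop : IsCoprime (a : ℤ) (k : ℤ) := by
        rw [Int.isCoprime_iff_gcd_eq_one]
        have h3 : Int.gcd ((g : ℤ) * a) ((g : ℤ) * k) = g * Int.gcd a k := by
          rw [Int.gcd_mul_left]; simp
        have h4 : ((d : ℕ) : ℤ) = (g : ℤ) * k := by rw [hk]; push_cast; ring
        rw [h4, ha, h3] at hng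
        have : g * Int.gcd a k = g * 1 := by rw [hng]; ring
        exact Nat.eq_of_mul_eq_mul_left hgpos this
      have h5 : (g : ℤ) * k ∣ (g : ℤ) * (a * ((n : ℤ) + n0)) := by
        have h4 : ((d : ℕ) : ℤ) = (g : ℤ) * k := by rw [hk]; push_cast; ring
        rw [← h4, ← mul_assoc, ← ha]; exact h2
      have h6 : (k : ℤ) ∣ a * ((n : ℤ) + n0) :=
        (mul_dvd_mul_iff_left (by exact_mod_cast hgpos.ne')).1 h5
      exact hcop.symm.dvd_of_dvd_mul_left h6
    have hcong : ∀ n ∈ A, Int.gcd ((n : ℤ) - n0) d = g → ∀ n' ∈ A,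
        Int.gcd ((n' : ℤ) - n0) d = g → (d : ℤ) ∣ 2 * ((n : ℤ) - n') := by
      intro n hn hng n' hn' hng'
      obtain ⟨a1, a2⟩ := hprop n hn hng
      obtain ⟨b1, b2⟩ := hprop n' hn' hng'
      have c1 : (g : ℤ) ∣ (n : ℤ) - n' := by
        have := dvd_sub a1 b1
        have e : ((n : ℤ) - n0) - ((n' : ℤ) - n0) = n - n' := by ring
        rwa [e] at this
      have c2 : (k : ℤ) ∣ (n : ℤ) - n' := by
        have := dvd_sub a2 b2
        have e : ((n : ℤ) + n0) - ((n' : ℤ) + n0) = n - n' := by ring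
        rwa [e] at this
      -- gcd g k divides 2
      have hh : (Int.gcd (g : ℤ) (k : ℤ) : ℤ) ∣ 2 := by
        set h := (Int.gcd (g : ℤ) (k : ℤ) : ℤ) with hh
        have h1 : h ∣ (g : ℤ) := Int.gcd_dvd_left _ _
        have h2 : h ∣ (k : ℤ) := Int.gcd_dvd_right _ _
        have h3 : h ∣ 2 * (n0 : ℤ) := by
          have := dvd_sub (h2.trans a2) (h1.trans a1)
          have e : ((n : ℤ) + n0) - ((n : ℤ) - n0) = 2 * n0 := by ring
          rwa [e] at this
        have h4 : h ∣ (n0 : ℤ) ^ 2 + 1 := by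
          have e2 : (d : ℤ) ∣ ((n0 : ℤ) ^ 2 + 1) := by exact_mod_cast hn0.2
          have e3 : (g : ℤ) ∣ (d : ℤ) := by rw [hk]; push_cast; exact Dvd.intro _ rfl
          exact (h1.trans e3).trans e2
        have h5 : h ∣ 2 * ((n0 : ℤ) ^ 2 + 1) - (n0 : ℤ) * (2 * n0) :=
          dvd_sub (h4.mul_left 2) (h3.mul_left _)
        have e : 2 * ((n0 : ℤ) ^ 2 + 1) - (n0 : ℤ) * (2 * n0) = 2 := by ring
        rwa [e] at h5
      have hl : (Int.lcm (g : ℤ) (k : ℤ) : ℤ) ∣ (n : ℤ) - n' := Int.coe_lcm_dvd c1 c2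
      have hgl : (Int.gcd (g : ℤ) (k : ℤ) : ℤ) * (Int.lcm (g : ℤ) (k : ℤ) : ℤ) = (d : ℤ) := by
        have := Int.gcd_mul_lcm (g : ℤ) (k : ℤ)
        rw [hk]
        have e : (Int.gcd (g : ℤ) (k : ℤ)) * (Int.lcm (g : ℤ) (k : ℤ)) = g * k := by
          rw [this]; simp
        exact_mod_cast e
      rw [← hgl]
      exact mul_dvd_mul hh hl
    -- injection into an interval
    have hdR : (0 : ℝ) < d := by exact_mod_cast hd
    have hcard : (A.filter (fun n : ℕ => Int.gcd ((n : ℤ) - n0) d = g)).card ≤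
        (Finset.range (2 * N / d + 1)).card := by
      apply Finset.card_le_card_of_injOn (fun n => 2 * n / d)
      · intro n hn
        rw [Finset.mem_coe, Finset.mem_filter, hA, Finset.mem_filter, Finset.mem_Icc] at hn
        rw [Finset.mem_coe, Finset.mem_range]
        have : 2 * n / d ≤ 2 * N / d := Nat.div_le_div_right (by omega)
        exact Nat.lt_succ_of_le this
      · intro n hn n' hn' heq
        rw [Finset.mem_coe, Finset.mem_filter] at hn hn'
        simp only at heq
        have hdv := hcong n hn.1 hn.2 n' hn'.1 hn'.2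
        have h1 := Nat.div_add_mod (2 * n) d
        have h2 := Nat.div_add_mod (2 * n') d
        have h3 := Nat.mod_lt (2 * n) (by omega : d > 0)
        have h4 := Nat.mod_lt (2 * n') (by omega : d > 0)
        rw [heq] at h1
        obtain ⟨c, hc⟩ := hdv
        have h5 : (2 * (n : ℤ) - 2 * n') = ((2 * n % d : ℕ) : ℤ) - ((2 * n' % d : ℕ) : ℤ) := by
          have h1' : ((d * (2 * n' / d) + 2 * n % d : ℕ) : ℤ) = ((2 * n : ℕ) : ℤ) := by rw [h1]
          have h2' : ((d * (2 * n' / d) + 2 * n' % d : ℕ) : ℤ) = ((2 * n' : ℕ) : ℤ) := by rw [h2]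
          push_cast at h1' h2' ⊢
          linarith
        have h6 : (d : ℤ) * c < d := by
          rw [← hc]
          have : (2 : ℤ) * ((n : ℤ) - n') = 2 * (n : ℤ) - 2 * n' := by ring
          rw [this, h5]
          have h3' : ((2 * n % d : ℕ) : ℤ) < d := by exact_mod_cast h3
          have : (0 : ℤ) ≤ ((2 * n' % d : ℕ) : ℤ) := Int.natCast_nonneg _
          linarith
        have h7 : -(d : ℤ) < (d : ℤ) * c := by
          rw [← hc]
          have : (2 : ℤ) * ((n : ℤ) - n') = 2 * (n : ℤ) - 2 * n' := by ring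
          rw [this, h5]
          have h4' : ((2 * n' % d : ℕ) : ℤ) < d := by exact_mod_cast h4
          have : (0 : ℤ) ≤ ((2 * n % d : ℕ) : ℤ) := Int.natCast_nonneg _
          linarith
        have hdz : (0 : ℤ) < d := by exact_mod_cast hd
        have hc1 : c < 1 := by nlinarith
        have hc2 : -1 < c := by nlinarith
        have hc0 : c = 0 := by omega
        rw [hc0, mul_zero] at hc
        have : (n : ℤ) = n' := by linarith
        exact_mod_cast this
    rw [Finset.card_range] at hcard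
    have h8 : (((A.filter (fun n : ℕ => Int.gcd ((n : ℤ) - n0) d = g)).card : ℕ) : ℝ) ≤
        ((2 * N / d + 1 : ℕ) : ℝ) := by exact_mod_cast hcard
    refine h8.trans ?_
    push_cast
    have h9 : ((2 * N / d : ℕ) : ℝ) ≤ ((2 * N : ℕ) : ℝ) / d := Nat.cast_div_le
    push_cast at h9
    linarith
  calc _ ≤ ∑ g ∈ d.divisors, (2 * (N : ℝ) / d + 1) := Finset.sum_le_sum hfib
    _ = _ := by rw [Finset.sum_const, nsmul_eq_mul]; rfl

/-- logarithmic moments of the number of divisors -/
theorem log_moment (D : ℕ) (j : ℕ) :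
    ∑ d ∈ Finset.Icc 1 D, (tau d : ℝ) ^ j / d ≤ (∑ d ∈ Finset.Icc 1 D, (1 : ℝ) / d) ^ (2 ^ j) := by
  classical
  induction j with
  | zero => simp
  | succ j ih =>
    have h0 : 0 ≤ ∑ d ∈ Finset.Icc 1 D, (tau d : ℝ) ^ j / d := Finset.sum_nonneg (fun d _ => by positivity)
    have key : ∑ d ∈ Finset.Icc 1 D, (tau d : ℝ) ^ (j + 1) / d ≤
        (∑ d ∈ Finset.Icc 1 D, (tau d : ℝ) ^ j / d) ^ 2 := by
      set s := ((Finset.Icc 1 D) ×ˢ (Finset.Icc 1 D)).filter (fun p => p.1 * p.2 ≤ D) with hs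
      have hmaps : ∀ p ∈ s, p.1 * p.2 ∈ Finset.Icc 1 D := by
        intro p hp
        rw [hs, Finset.mem_filter, Finset.mem_product, Finset.mem_Icc, Finset.mem_Icc] at hp
        rw [Finset.mem_Icc]
        exact ⟨Nat.mul_pos (by omega) (by omega), hp.2⟩
      calc ∑ d ∈ Finset.Icc 1 D, (tau d : ℝ) ^ (j + 1) / d
          ≤ ∑ d ∈ Finset.Icc 1 D, ∑ p ∈ s.filter (fun p => p.1 * p.2 = d),
              ((tau p.1 : ℝ) ^ j / p.1) * ((tau p.2 : ℝ) ^ j / p.2) := by
            apply Finset.sum_le_sum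
            intro d hd
            rw [Finset.mem_Icc] at hd
            have hterm : ∀ p ∈ s.filter (fun p => p.1 * p.2 = d), (tau d : ℝ) ^ j / d ≤
                ((tau p.1 : ℝ) ^ j / p.1) * ((tau p.2 : ℝ) ^ j / p.2) := by
              intro p hp
              rw [Finset.mem_filter] at hp
              have e : ((tau p.1 : ℝ) ^ j / p.1) * ((tau p.2 : ℝ) ^ j / p.2) =
                  ((tau p.1 : ℝ) * tau p.2) ^ j / d := by
                rw [← hp.2, mul_pow]; push_cast; rw [div_mul_div_comm]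
              rw [e]
              have h1 : (tau d : ℝ) ≤ (tau p.1 : ℝ) * tau p.2 := by
                rw [← hp.2]; exact_mod_cast tau_mul_le p.1 p.2
              gcongr
            have hcard : tau d ≤ (s.filter (fun p => p.1 * p.2 = d)).card := by
              unfold tau
              apply Finset.card_le_card_of_injOn (fun a => (a, d / a))
              · intro a ha
                rw [Finset.mem_coe, Nat.mem_divisors] at ha
                rw [Finset.mem_coe, Finset.mem_filter, hs, Finset.mem_filter, Finset.mem_product,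
                  Finset.mem_Icc, Finset.mem_Icc]
                have hapos : 0 < a := Nat.pos_of_dvd_of_pos ha.1 (by omega)
                have hale : a ≤ d := Nat.le_of_dvd (by omega) ha.1
                have hmul : a * (d / a) = d := Nat.mul_div_cancel' ha.1
                have hda : d / a ≤ d := Nat.div_le_self _ _
                have hda0 : 0 < d / a := Nat.div_pos hale hapos
                simp only
                refine ⟨⟨⟨⟨by omega, by omega⟩, by omega, by omega⟩, by rw [hmul]; omega⟩, hmul⟩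
              · intro a _ b _ h
                exact (Prod.mk.injEq _ _ _ _ ▸ h).1
            calc (tau d : ℝ) ^ (j + 1) / d = (tau d : ℝ) * ((tau d : ℝ) ^ j / d) := by
                  rw [pow_succ]; ring
              _ ≤ ((s.filter (fun p => p.1 * p.2 = d)).card : ℝ) * ((tau d : ℝ) ^ j / d) := by
                  have : (tau d : ℝ) ≤ ((s.filter (fun p => p.1 * p.2 = d)).card : ℝ) := by
                    exact_mod_cast hcard
                  gcongr
              _ = ∑ p ∈ s.filter (fun p => p.1 * p.2 = d), ((tau d : ℝ) ^ j / d) := by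
                  rw [Finset.sum_const, nsmul_eq_mul]
              _ ≤ _ := Finset.sum_le_sum hterm
        _ = ∑ p ∈ s, ((tau p.1 : ℝ) ^ j / p.1) * ((tau p.2 : ℝ) ^ j / p.2) :=
            Finset.sum_fiberwise_of_maps_to hmaps _
        _ ≤ ∑ p ∈ (Finset.Icc 1 D) ×ˢ (Finset.Icc 1 D),
              ((tau p.1 : ℝ) ^ j / p.1) * ((tau p.2 : ℝ) ^ j / p.2) := by
            apply Finset.sum_le_sum_of_subset_of_nonneg (Finset.filter_subset _ _)
            intro p _ _
            positivity
        _ = _ := by rw [sq, Finset.sum_mul_sum, Finset.sum_product]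
    calc _ ≤ _ := key
      _ ≤ ((∑ d ∈ Finset.Icc 1 D, (1 : ℝ) / d) ^ (2 ^ j)) ^ 2 := by gcongr
      _ = _ := by rw [← pow_mul, pow_succ]

theorem harm_le (D : ℕ) : ∑ d ∈ Finset.Icc 1 D, (1 : ℝ) / d ≤ 1 + Real.log D := by
  have h := harmonic_le_one_add_log D
  have e : ∑ d ∈ Finset.Icc 1 D, (1 : ℝ) / d = (harmonic D : ℝ) := by
    rw [harmonic_eq_sum_Icc]
    push_cast
    apply Finset.sum_congr rfl
    intro i _
    rw [one_div]
  rw [e]; exact h

/-- the second moment -/
theorem second_moment (N : ℕ) (hN : 1 ≤ N) :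
    ∑ n ∈ Finset.Icc 1 N, (tau (n ^ 2 + 1) : ℝ) ^ 2 ≤ 12 * N * (1 + Real.log N) ^ 32 := by
  classical
  have hNR : (1 : ℝ) ≤ N := by exact_mod_cast hN
  calc ∑ n ∈ Finset.Icc 1 N, (tau (n ^ 2 + 1) : ℝ) ^ 2
      ≤ ∑ n ∈ Finset.Icc 1 N, ∑ d ∈ (Finset.Icc 1 N).filter (fun d => d ∣ n ^ 2 + 1),
          4 * (tau d : ℝ) ^ 4 := by
        apply Finset.sum_le_sum
        intro n hn
        rw [Finset.mem_Icc] at hn
        obtain ⟨d, hd1, hd2, hd3⟩ := exists_half (n ^ 2 + 1) (by omega)
        have hmem : d ∈ (Finset.Icc 1 N).filter (fun d => d ∣ n ^ 2 + 1) := by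
          rw [Finset.mem_filter, Finset.mem_Icc]
          have hpos : 0 < d := Nat.pos_of_dvd_of_pos hd1 (by omega)
          refine ⟨⟨hpos, ?_⟩, hd1⟩
          by_contra hcon
          push Not at hcon
          have : (N + 1) ^ 2 ≤ d ^ 2 := Nat.pow_le_pow_left hcon 2
          nlinarith
        calc (tau (n ^ 2 + 1) : ℝ) ^ 2 ≤ (2 * (tau d : ℝ) ^ 2) ^ 2 := by
              have : (tau (n ^ 2 + 1) : ℝ) ≤ 2 * (tau d : ℝ) ^ 2 := by exact_mod_cast hd3
              gcongr
          _ = 4 * (tau d : ℝ) ^ 4 := by ring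
          _ ≤ _ := Finset.single_le_sum (f := fun d => 4 * (tau d : ℝ) ^ 4)
                (fun d _ => by positivity) hmem
    _ = ∑ d ∈ Finset.Icc 1 N, ∑ n ∈ (Finset.Icc 1 N).filter (fun n => d ∣ n ^ 2 + 1),
          4 * (tau d : ℝ) ^ 4 := by
        apply Finset.sum_comm'
        intro n d
        simp only [Finset.mem_filter]
        tauto
    _ ≤ ∑ d ∈ Finset.Icc 1 N, 12 * N * ((tau d : ℝ) ^ 5 / d) := by
        apply Finset.sum_le_sum
        intro d hd
        rw [Finset.mem_Icc] at hd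
        have hdR : (0 : ℝ) < d := by exact_mod_cast hd.1
        have hdN : (d : ℝ) ≤ N := by exact_mod_cast hd.2
        rw [Finset.sum_const, nsmul_eq_mul]
        have h1 := count_roots N d hd.1
        have h2 : 2 * (N : ℝ) / d + 1 ≤ 3 * N / d := by
          rw [div_add_one hdR.ne', div_le_div_iff_of_pos_right hdR]
          linarith
        calc (((Finset.Icc 1 N).filter (fun n => d ∣ n ^ 2 + 1)).card : ℝ) * (4 * (tau d : ℝ) ^ 4)
            ≤ (tau d * (2 * N / d + 1)) * (4 * (tau d : ℝ) ^ 4) := by gcongr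
          _ ≤ (tau d * (3 * N / d)) * (4 * (tau d : ℝ) ^ 4) := by gcongr
          _ = 12 * N * ((tau d : ℝ) ^ 5 / d) := by ring
    _ = 12 * N * ∑ d ∈ Finset.Icc 1 N, (tau d : ℝ) ^ 5 / d := by rw [Finset.mul_sum]
    _ ≤ 12 * N * (1 + Real.log N) ^ 32 := by
        have h1 := log_moment N 5
        have h2 := harm_le N
        have h3 : 0 ≤ ∑ d ∈ Finset.Icc 1 N, (1 : ℝ) / d := Finset.sum_nonneg (fun d _ => by positivity)
        have h4 : (∑ d ∈ Finset.Icc 1 N, (1 : ℝ) / d) ^ (2 ^ 5) ≤ (1 + Real.log N) ^ 32 := by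
          norm_num
          gcongr
          simpa using h2
        gcongr
        exact h1.trans h4

end Pool.Agent.ParityQuad
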