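import Pool.Agent.Lib_MP_f1a94e_nt.Defs

/-!
# Number of unimodular pairs with a given dot product
-/

set_option autoImplicit false

namespace Pool.Agent.ParityQuad

theorem opp_alg1 (p q : ℤ × ℤ) (h : dt p q = 1) :
    p.1 * dp p q - p.2 = q.1 * Nm p := by
  simp only [dt, dp, Nm] at *
  linear_combination p.2 * h

theorem opp_alg2 (p q : ℤ × ℤ) (h : dt p q = 1) :
    p.2 * dp p q + p.1 = q.2 * Nm p := by
  simp only [dt, dp, Nm] at *
  linear_combination (-p.1) * h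

theorem Nm_pos_of_dt (p q : ℤ × ℤ) (h : dt p q = 1) : 0 < Nm p := by
  have h0 : p.1 ≠ 0 ∨ p.2 ≠ 0 := by
    by_contra hc
    push Not at hc
    simp [dt, hc.1, hc.2] at h
  unfold Nm
  rcases h0 with h0 | h0
  · have := sq_pos_of_ne_zero (a := p.1) h0
    nlinarith [sq_nonneg p.2]
  · have := sq_pos_of_ne_zero (a := p.2) h0
    nlinarith [sq_nonneg p.1]

theorem opp_key (p q p' q' : ℤ × ℤ) (h : dt p q = 1) (h' : dt p' q' = 1)
    (hn : dp p' q' = dp p q) (hg : Nm p' = Nm p) :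
    (dp p p', dt p p') = (Nm p, 0) ∨ (dp p p', dt p p') = (-Nm p, 0) ∨
    (dp p p', dt p p') = (0, Nm p) ∨ (dp p p', dt p p') = (0, -Nm p) := by
  have hpos := Nm_pos_of_dt p q h
  have e1 := opp_alg1 p q h
  have e2 := opp_alg1 p' q' h'
  rw [hn, hg] at e2
  obtain ⟨k, hk⟩ : ∃ k : ℤ, dt p p' = Nm p * k := by
    refine ⟨q.1 * p'.1 - p.1 * q'.1, ?_⟩
    have : dt p p' = p.1 * p'.2 - p.2 * p'.1 := rfl
    rw [this]
    linear_combination p'.1 * e1 - p.1 * e2
  have hs := dp_sq_add_dt_sq p p'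
  rw [hg, hk] at hs
  have hk2 : k ^ 2 ≤ 1 := by
    by_contra hc
    push Not at hc
    have h2 : 2 ≤ k ^ 2 := hc
    have h3 : 0 ≤ dp p p' ^ 2 := sq_nonneg _
    have h4 : 0 < Nm p ^ 2 := by positivity
    nlinarith
  have hk3 : k = 0 ∨ k = 1 ∨ k = -1 := by
    have : k ≤ 1 := by nlinarith
    have : -1 ≤ k := by nlinarith
    omega
  rcases hk3 with rfl | rfl | rfl
  · have : dp p p' ^ 2 = Nm p ^ 2 := by linear_combination hs
    rcases sq_eq_sq_iff_eq_or_eq_neg.mp this with h5 | h5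
    · left; simp [h5, hk]
    · right; left; simp [h5, hk]
  · have : dp p p' ^ 2 = 0 := by linear_combination hs
    have h5 : dp p p' = 0 := by simpa using this
    right; right; left
    simp [h5, hk]
  · have : dp p p' ^ 2 = 0 := by linear_combination hs
    have h5 : dp p p' = 0 := by simpa using this
    right; right; right
    simp [h5, hk]

theorem opp_inj (p : ℤ × ℤ) (hp : 0 < Nm p) (u v : ℤ × ℤ) (h1 : dp p u = dp p v)
    (h2 : dt p u = dt p v) : u = v := by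
  have hne : Nm p ≠ 0 := hp.ne'
  simp only [dp, dt] at h1 h2
  have e1 : Nm p * u.1 = Nm p * v.1 := by
    simp only [Nm]
    linear_combination p.1 * h1 - p.2 * h2
  have e2 : Nm p * u.2 = Nm p * v.2 := by
    simp only [Nm]
    linear_combination p.2 * h1 + p.1 * h2
  exact Prod.ext (mul_left_cancel₀ hne e1) (mul_left_cancel₀ hne e2)

theorem opp_fiber (P : Finset ((ℤ × ℤ) × (ℤ × ℤ))) (n g : ℤ)
    (h : ∀ r ∈ P, dt r.1 r.2 = 1 ∧ dp r.1 r.2 = n ∧ Nm r.1 = g) : P.card ≤ 4 := by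
  classical
  rcases P.eq_empty_or_nonempty with hP | ⟨r0, hr0⟩
  · simp [hP]
  obtain ⟨h01, h02, h03⟩ := h r0 hr0
  have hpos := Nm_pos_of_dt r0.1 r0.2 h01
  set T : Finset (ℤ × ℤ) := {(g, 0), (-g, 0), (0, g), (0, -g)} with hT
  have hTc : T.card ≤ 4 := Finset.card_le_four
  refine le_trans (Finset.card_le_card_of_injOn (fun r => (dp r0.1 r.1, dt r0.1 r.1)) ?_ ?_) hTc
  · intro r hr
    obtain ⟨h1, h2, h3⟩ := h r hr
    have := opp_key r0.1 r0.2 r.1 r.2 h01 h1 (h2.trans h02.symm) (h3.trans h03.symm)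
    rw [h03] at this
    simp only [hT, Finset.coe_insert, Finset.coe_singleton, Set.mem_insert_iff,
      Set.mem_singleton_iff]
    exact this
  · intro r hr s hs hrs
    obtain ⟨h1, h2, h3⟩ := h r hr
    obtain ⟨k1, k2, k3⟩ := h s hs
    simp only [Prod.mk.injEq] at hrs
    have e : r.1 = s.1 := opp_inj r0.1 hpos _ _ hrs.1 hrs.2
    have hrpos := Nm_pos_of_dt r.1 r.2 h1
    have a1 := opp_alg1 r.1 r.2 h1
    have a2 := opp_alg2 r.1 r.2 h1
    have b1 := opp_alg1 s.1 s.2 k1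
    have b2 := opp_alg2 s.1 s.2 k1
    rw [h2] at a1 a2
    rw [k2, ← e] at b1 b2
    have c1 : r.2.1 = s.2.1 := mul_right_cancel₀ hrpos.ne' (a1.symm.trans b1)
    have c2 : r.2.2 = s.2.2 := mul_right_cancel₀ hrpos.ne' (a2.symm.trans b2)
    exact Prod.ext e (Prod.ext c1 c2)

theorem opp_card (P : Finset ((ℤ × ℤ) × (ℤ × ℤ))) (S : Finset ℕ) (B : ℕ)
    (h1 : ∀ r ∈ P, dt r.1 r.2 = 1 ∧ (dp r.1 r.2).natAbs ∈ S)
    (h2 : ∀ m ∈ S, (Nat.divisors (m ^ 2 + 1)).card ≤ B) : P.card ≤ 8 * B * S.card := by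
  classical
  set W : Finset (ℤ × ℕ) := S.biUnion
    (fun m => ({(m : ℤ), -(m : ℤ)} : Finset ℤ) ×ˢ (Nat.divisors (m ^ 2 + 1))) with hW
  have hWc : W.card ≤ S.card * (2 * B) := by
    refine Finset.card_biUnion_le_card_mul _ _ _ ?_
    intro m hm
    rw [Finset.card_product]
    exact Nat.mul_le_mul Finset.card_le_two (h2 m hm)
  have hmap : ∀ r ∈ P, (dp r.1 r.2, (Nm r.1).natAbs) ∈ W := by
    intro r hr
    obtain ⟨a1, a2⟩ := h1 r hr
    rw [hW, Finset.mem_biUnion]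
    refine ⟨(dp r.1 r.2).natAbs, a2, ?_⟩
    rw [Finset.mem_product]
    constructor
    · simp only [Finset.mem_insert, Finset.mem_singleton]
      exact Int.natAbs_eq _
    · rw [Nat.mem_divisors]
      refine ⟨?_, by positivity⟩
      have hid := dp_sq_add_dt_sq r.1 r.2
      rw [a1] at hid
      have : (Nm r.1) ∣ ((((dp r.1 r.2).natAbs ^ 2 + 1 : ℕ)) : ℤ) := by
        push_cast
        rw [sq_abs]
        exact ⟨Nm r.2, by linear_combination hid⟩
      exact Int.natAbs_dvd_natAbs.mpr this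
  have hfib : ∀ b ∈ W, (P.filter (fun r => (dp r.1 r.2, (Nm r.1).natAbs) = b)).card ≤ 4 := by
    intro b _
    refine opp_fiber _ b.1 (b.2 : ℤ) ?_
    intro r hr
    rw [Finset.mem_filter] at hr
    obtain ⟨hrP, hrb⟩ := hr
    refine ⟨(h1 r hrP).1, by rw [← hrb], ?_⟩
    rw [← hrb]
    simp only [Int.natCast_natAbs]
    rw [abs_of_pos (Nm_pos_of_dt r.1 r.2 (h1 r hrP).1)]
  have := Finset.card_le_mul_card_image_of_maps_to (s := P) (t := W) hmap 4 hfib
  calc P.card ≤ 4 * W.card := this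
    _ ≤ 4 * (S.card * (2 * B)) := Nat.mul_le_mul_left _ hWc
    _ = 8 * B * S.card := by ring

end Pool.Agent.ParityQuad
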