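import Mathlib

/-!
# MP_f1a94e_nt: parity of the number of prime factors of `m ^ 2 + 1`

Definitions. Integer vectors `(a, b)` are Gaussian integers `a + b i`.
-/

set_option autoImplicit false

namespace Pool.Agent.ParityQuad

/-- norm of an integer vector (Gaussian integer) -/
def Nm (z : ℤ × ℤ) : ℤ := z.1 ^ 2 + z.2 ^ 2

/-- determinant -/
def dt (z w : ℤ × ℤ) : ℤ := z.1 * w.2 - z.2 * w.1

/-- dot product -/
def dp (z w : ℤ × ℤ) : ℤ := z.1 * w.1 + z.2 * w.2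

/-- product of Gaussian integers -/
def mu (z w : ℤ × ℤ) : ℤ × ℤ := (z.1 * w.1 - z.2 * w.2, z.1 * w.2 + z.2 * w.1)

/-- the complex number of an integer vector -/
noncomputable def tc (z : ℤ × ℤ) : ℂ := (z.1 : ℂ) + (z.2 : ℂ) * Complex.I

/-- direction -/
noncomputable def dir (z : ℤ × ℤ) : ℂ := tc z / (‖tc z‖ : ℂ)

/-- A completely multiplicative sign function on the Gaussian integers of odd norm, trivial on the
odd rational integers. -/
structure SignFn (F : ℤ × ℤ → ℤ) : Prop where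
  pm : ∀ z, F z = 1 ∨ F z = -1
  mul : ∀ z w, Odd (Nm z) → Odd (Nm w) → F (mu z w) = F z * F w
  int : ∀ m : ℤ, Odd m → F (m, 0) = 1

/-- coordinate of `z` in the frame of `β` -/
noncomputable def cr (β : ℂ) (z : ℤ × ℤ) : ℂ := tc z * (starRingEnd ℂ) β

/-- the convex cone around the direction `β` of slope `τ` -/
def Cone (β : ℂ) (τ : ℝ) (z : ℤ × ℤ) : Prop :=
  0 < (cr β z).re ∧ |(cr β z).im| ≤ τ * (cr β z).re

/-- adjacent pairs of opposite sign, both of odd norm at most `X` -/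
def IsOpp (F : ℤ × ℤ → ℤ) (X : ℤ) (p q : ℤ × ℤ) : Prop :=
  dt p q = 1 ∧ Nm p ≤ X ∧ Nm q ≤ X ∧ Odd (Nm p) ∧ Odd (Nm q) ∧ F p ≠ F q

open Classical in
/-- the finite set of such pairs -/
noncomputable def Opp (F : ℤ × ℤ → ℤ) (X : ℤ) : Finset ((ℤ × ℤ) × (ℤ × ℤ)) :=
  ((Finset.Icc (-X) X ×ˢ Finset.Icc (-X) X) ×ˢ (Finset.Icc (-X) X ×ˢ Finset.Icc (-X) X)).filter
    (fun r => IsOpp F X r.1 r.2)

/-- difference with step two -/
noncomputable def dd (g : ℝ → ℝ) : ℝ → ℝ := fun t => g t - g (t + 2)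

theorem Nm_mu (z w : ℤ × ℤ) : Nm (mu z w) = Nm z * Nm w := by
  simp only [Nm, mu]; ring

theorem tc_mu (z w : ℤ × ℤ) : tc (mu z w) = tc z * tc w := by
  simp only [tc, mu]; push_cast
  linear_combination (-(z.2 : ℂ) * (w.2 : ℂ)) * Complex.I_sq

theorem norm_tc_sq (z : ℤ × ℤ) : ‖tc z‖ ^ 2 = (Nm z : ℝ) := by
  rw [← Complex.normSq_eq_norm_sq, tc, Nm]
  simp [Complex.normSq_apply]
  ring

theorem dp_sq_add_dt_sq (z w : ℤ × ℤ) : dp z w ^ 2 + dt z w ^ 2 = Nm z * Nm w := by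
  simp only [Nm, dp, dt]; ring

end Pool.Agent.ParityQuad
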