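import Pool.Agent.Lib_MP_f1a94e_nt.Defs

/-!
# MP_f1a94e_nt: measure of the angles close to a given direction
-/

set_option autoImplicit false

namespace Pool.Agent.ParityQuad

open MeasureTheory

theorem tc_ne_zero (z : ℤ × ℤ) (hz : z ≠ 0) : tc z ≠ 0 := by
  intro h
  apply hz
  have h1 := congrArg Complex.re h
  have h2 := congrArg Complex.im h
  simp [tc] at h1 h2
  exact Prod.ext h1 h2

theorem ang_cover (g α σ : ℝ) (hg1 : -Real.pi < g) (hg2 : g ≤ Real.pi) (hα1 : -Real.pi ≤ α)
    (hα2 : α ≤ Real.pi) (hc : 0 < Real.cos (g - α)) (hs : |Real.sin (g - α)| ≤ σ) :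
    |g - α| ≤ Real.pi / 2 * σ ∨ |g - α - 2 * Real.pi| ≤ Real.pi / 2 * σ ∨
      |g - α + 2 * Real.pi| ≤ Real.pi / 2 * σ := by
  have hpi := Real.pi_pos
  have key : ∀ y : ℝ, |y| ≤ Real.pi / 2 → |Real.sin y| ≤ σ → |y| ≤ Real.pi / 2 * σ := by
    intro y hy hsy
    have h := Real.mul_abs_le_abs_sin hy
    have h2 : 2 / Real.pi * |y| ≤ σ := h.trans hsy
    have h3 : Real.pi / 2 * (2 / Real.pi * |y|) ≤ Real.pi / 2 * σ :=
      mul_le_mul_of_nonneg_left h2 (by positivity)
    have h4 : Real.pi / 2 * (2 / Real.pi * |y|) = |y| := by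
      field_simp
    rwa [h4] at h3
  rcases lt_or_ge |g - α| (Real.pi / 2) with h | h
  · left
    exact key _ h.le hs
  · right
    rcases le_abs.mp h with h1 | h1
    · left
      have h2 : ¬ (g - α ≤ Real.pi + Real.pi / 2) := by
        intro h3
        exact absurd (Real.cos_nonpos_of_pi_div_two_le_of_le h1 h3) (not_le.mpr hc)
      push Not at h2
      apply key
      · rw [abs_le]; constructor <;> linarith
      · rw [Real.sin_sub_two_pi]; exact hs
    · right
      have h2 : ¬ (-(g - α) ≤ Real.pi + Real.pi / 2) := by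
        intro h3
        have := Real.cos_nonpos_of_pi_div_two_le_of_le h1 h3
        rw [Real.cos_neg] at this
        exact absurd this (not_le.mpr hc)
      push Not at h2
      apply key
      · rw [abs_le]; constructor <;> linarith
      · rw [Real.sin_add_two_pi]; exact hs

theorem ang_meas (v : ℂ) (hv : ‖v‖ = 1) (z : ℤ × ℤ) (hz : z ≠ 0) (σ : ℝ) (hσ : 0 ≤ σ) :
    volume {α : ℝ | α ∈ Set.Icc (-Real.pi) Real.pi ∧
      0 < (cr (Complex.exp (α * Complex.I) * v) z).re ∧
      |(cr (Complex.exp (α * Complex.I) * v) z).im| ≤ σ * ‖tc z‖} ≤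
    ENNReal.ofReal (3 * Real.pi * σ) := by
  have hpi := Real.pi_pos
  set w : ℂ := tc z * (starRingEnd ℂ) v with hw
  have hwn : ‖w‖ = ‖tc z‖ := by
    rw [hw, norm_mul, RCLike.norm_conj, hv, mul_one]
  have hpos : 0 < ‖tc z‖ := norm_pos_iff.mpr (tc_ne_zero z hz)
  set g : ℝ := Complex.arg w with hg
  have hg1 : -Real.pi < g := Complex.neg_pi_lt_arg w
  have hg2 : g ≤ Real.pi := Complex.arg_le_pi w
  have hcr : ∀ α : ℝ, cr (Complex.exp (α * Complex.I) * v) z =
      (‖tc z‖ : ℂ) * Complex.exp ((g - α : ℝ) * Complex.I) := by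
    intro α
    have h1 : w = (‖w‖ : ℂ) * Complex.exp (g * Complex.I) := (Complex.norm_mul_exp_arg_mul_I w).symm
    have h2 : cr (Complex.exp (α * Complex.I) * v) z = w * Complex.exp (-(α * Complex.I)) := by
      simp only [cr, map_mul, ← Complex.exp_conj, Complex.conj_I, Complex.conj_ofReal, hw]
      rw [mul_neg]
      ring
    rw [h2, h1, hwn, mul_assoc, ← Complex.exp_add]
    congr 2
    push_cast
    ring
  have hsub : {α : ℝ | α ∈ Set.Icc (-Real.pi) Real.pi ∧
      0 < (cr (Complex.exp (α * Complex.I) * v) z).re ∧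
      |(cr (Complex.exp (α * Complex.I) * v) z).im| ≤ σ * ‖tc z‖} ⊆
      (Set.Icc (g - Real.pi / 2 * σ) (g + Real.pi / 2 * σ) ∪
      Set.Icc (g - 2 * Real.pi - Real.pi / 2 * σ) (g - 2 * Real.pi + Real.pi / 2 * σ)) ∪
      Set.Icc (g + 2 * Real.pi - Real.pi / 2 * σ) (g + 2 * Real.pi + Real.pi / 2 * σ) := by
    rintro α ⟨⟨ha1, ha2⟩, hre, him⟩
    rw [hcr α] at hre him
    rw [Complex.re_ofReal_mul, Complex.exp_ofReal_mul_I_re] at hre
    rw [Complex.im_ofReal_mul, Complex.exp_ofReal_mul_I_im] at him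
    have hc : 0 < Real.cos (g - α) := by
      by_contra hcon
      push Not at hcon
      have := mul_nonpos_of_nonneg_of_nonpos hpos.le hcon
      linarith
    have hs : |Real.sin (g - α)| ≤ σ := by
      rw [abs_mul, abs_of_pos hpos, mul_comm] at him
      exact le_of_mul_le_mul_right him hpos
    rcases ang_cover g α σ hg1 hg2 ha1 ha2 hc hs with h | h | h
    · left; left
      rw [abs_le] at h
      exact ⟨by linarith, by linarith⟩
    · left; right
      rw [abs_le] at h
      exact ⟨by linarith, by linarith⟩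
    · right
      rw [abs_le] at h
      exact ⟨by linarith, by linarith⟩
  refine (measure_mono hsub).trans ?_
  refine (measure_union_le _ _).trans ?_
  refine (add_le_add (measure_union_le _ _) le_rfl).trans ?_
  rw [Real.volume_Icc, Real.volume_Icc, Real.volume_Icc]
  rw [← ENNReal.ofReal_add (by nlinarith [mul_nonneg hpi.le hσ]) (by nlinarith [mul_nonneg hpi.le hσ]),
    ← ENNReal.ofReal_add (by nlinarith [mul_nonneg hpi.le hσ]) (by nlinarith [mul_nonneg hpi.le hσ])]
  apply ENNReal.ofReal_le_ofReal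
  nlinarith [mul_nonneg hpi.le hσ]

end Pool.Agent.ParityQuad
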