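import Pool.Agent.Lib_MP_f1a94e_nt.Ang

set_option autoImplicit false

namespace Pool.Agent.ParityQuad

open MeasureTheory

/-- half of the sum of `1 / |z|` over nonzero integer vectors -/
theorem bad_half (N : ℕ) (a b : ℤ × ℤ → ℤ) (hab : ∀ z w, a z = a w → b z = b w → z = w)
    (S : Finset (ℤ × ℤ)) (f : ℤ × ℤ → ℝ)
    (h : ∀ z ∈ S, a z ≠ 0 ∧ |a z| ≤ N ∧ |b z| ≤ |a z| ∧ f z ≤ 1 / (|a z| : ℤ)) :
    ∑ z ∈ S, f z ≤ 6 * N := by
  classical
  set T : Finset ℤ := (Finset.Icc (-(N : ℤ)) N).erase 0 with hT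
  have hmaps : ∀ z ∈ S, a z ∈ T := by
    intro z hz
    obtain ⟨h1, h2, _, _⟩ := h z hz
    rw [hT, Finset.mem_erase, Finset.mem_Icc]
    exact ⟨h1, abs_le.mp h2⟩
  have hcardT : T.card = 2 * N := by
    rw [hT, Finset.card_erase_of_mem (by simp), Int.card_Icc]
    omega
  have hfib : ∀ x ∈ T, ∑ z ∈ S.filter (fun z => a z = x), f z ≤ 3 := by
    intro x hx
    have hx0 : x ≠ 0 := (Finset.mem_erase.mp hx).1
    have hx1 : 1 ≤ |x| := Int.one_le_abs hx0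
    have hxr : (1 : ℝ) ≤ ((|x| : ℤ) : ℝ) := by exact_mod_cast hx1
    have h1 : ∑ z ∈ S.filter (fun z => a z = x), f z ≤
        ∑ z ∈ S.filter (fun z => a z = x), 1 / ((|x| : ℤ) : ℝ) := by
      refine Finset.sum_le_sum fun z hz => ?_
      obtain ⟨hz1, hz2⟩ := Finset.mem_filter.mp hz
      have := (h z hz1).2.2.2
      rwa [hz2] at this
    have h2 : (S.filter (fun z => a z = x)).card ≤ (Finset.Icc (-|x|) |x|).card := by
      refine Finset.card_le_card_of_injOn b ?_ ?_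
      · intro z hz
        obtain ⟨hz1, hz2⟩ := Finset.mem_filter.mp hz
        have := (h z hz1).2.2.1
        rw [hz2] at this
        exact Finset.mem_coe.mpr (Finset.mem_Icc.mpr (abs_le.mp this))
      · intro z hz w hw hzw
        obtain ⟨_, hz2⟩ := Finset.mem_filter.mp (Finset.mem_coe.mp hz)
        obtain ⟨_, hw2⟩ := Finset.mem_filter.mp (Finset.mem_coe.mp hw)
        exact hab z w (hz2.trans hw2.symm) hzw
    have h3 : ((Finset.Icc (-|x|) |x|).card : ℝ) = 2 * ((|x| : ℤ) : ℝ) + 1 := by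
      rw [Int.card_Icc]
      have : ((|x| + 1 - -|x|).toNat : ℤ) = 2 * |x| + 1 := by
        rw [Int.toNat_of_nonneg (by omega)]; ring
      exact_mod_cast this
    rw [Finset.sum_const, nsmul_eq_mul] at h1
    have h4 : ((S.filter (fun z => a z = x)).card : ℝ) ≤ 2 * ((|x| : ℤ) : ℝ) + 1 := by
      rw [← h3]; exact_mod_cast h2
    calc ∑ z ∈ S.filter (fun z => a z = x), f z
        ≤ ((S.filter (fun z => a z = x)).card : ℝ) * (1 / ((|x| : ℤ) : ℝ)) := h1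
      _ ≤ (3 * ((|x| : ℤ) : ℝ)) * (1 / ((|x| : ℤ) : ℝ)) := by
          gcongr
          linarith
      _ = 3 := by
          have : ((|x| : ℤ) : ℝ) ≠ 0 := by linarith
          field_simp
  rw [← Finset.sum_fiberwise_of_maps_to hmaps]
  calc ∑ x ∈ T, ∑ z ∈ S.filter (fun z => a z = x), f z ≤ ∑ x ∈ T, (3 : ℝ) :=
        Finset.sum_le_sum hfib
    _ = 6 * N := by
        rw [Finset.sum_const, hcardT, nsmul_eq_mul]; push_cast; ring

theorem bad_norm_le (z : ℤ × ℤ) : ((|z.1| : ℤ) : ℝ) ≤ ‖tc z‖ ∧ ((|z.2| : ℤ) : ℝ) ≤ ‖tc z‖ := by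
  have h := norm_tc_sq z
  have h0 := norm_nonneg (tc z)
  constructor
  · refine abs_le_of_sq_le_sq' ?_ h0 |>.2 |> fun h => h
    rw [h, Nm]
    have : (|z.1| : ℤ) ^ 2 = z.1 ^ 2 := sq_abs _
    have h2 : (((|z.1| : ℤ) : ℝ)) ^ 2 = ((z.1 ^ 2 : ℤ) : ℝ) := by exact_mod_cast this
    rw [h2]
    push_cast
    nlinarith [sq_nonneg (z.2 : ℝ)]
  · refine abs_le_of_sq_le_sq' ?_ h0 |>.2 |> fun h => h
    rw [h, Nm]
    have : (|z.2| : ℤ) ^ 2 = z.2 ^ 2 := sq_abs _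
    have h2 : (((|z.2| : ℤ) : ℝ)) ^ 2 = ((z.2 ^ 2 : ℤ) : ℝ) := by exact_mod_cast this
    rw [h2]
    push_cast
    nlinarith [sq_nonneg (z.1 : ℝ)]

theorem bad_meas (v : ℂ) (hv : ‖v‖ = 1) (Q : ℕ) (hQ : 1 ≤ Q) (R : ℝ) (hR : 0 ≤ R) :
    volume {α : ℝ | α ∈ Set.Icc (-Real.pi) Real.pi ∧ ∃ z : ℤ × ℤ, z ≠ 0 ∧ ‖tc z‖ ≤ R ∧
      0 < (cr (Complex.exp (α * Complex.I) * v) z).re ∧
      |(cr (Complex.exp (α * Complex.I) * v) z).im| ≤ 1 / Q} ≤
    ENNReal.ofReal (36 * Real.pi * R / Q) := by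
  classical
  set N : ℕ := ⌊R⌋₊ with hN
  have hNR : (N : ℝ) ≤ R := Nat.floor_le hR
  have hQ0 : (0 : ℝ) < Q := by exact_mod_cast hQ
  have hpi := Real.pi_pos
  set S : Finset (ℤ × ℤ) := ((Finset.Icc (-(N : ℤ)) N) ×ˢ (Finset.Icc (-(N : ℤ)) N)).filter
    (fun z => z ≠ 0 ∧ ‖tc z‖ ≤ R) with hS
  have habsN : ∀ x : ℤ, ((|x| : ℤ) : ℝ) ≤ R → |x| ≤ N := by
    intro x hx
    have h1 : (x.natAbs : ℝ) ≤ R := by
      rw [Nat.cast_natAbs]; exact hx
    have h3 : x.natAbs ≤ N := Nat.le_floor h1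
    rw [← Int.natCast_natAbs]
    exact_mod_cast h3
  have hmem : ∀ z : ℤ × ℤ, z ≠ 0 → ‖tc z‖ ≤ R → z ∈ S := by
    intro z hz hzR
    obtain ⟨h1, h2⟩ := bad_norm_le z
    rw [hS, Finset.mem_filter, Finset.mem_product, Finset.mem_Icc, Finset.mem_Icc]
    exact ⟨⟨abs_le.mp (habsN _ (h1.trans hzR)), abs_le.mp (habsN _ (h2.trans hzR))⟩, hz, hzR⟩
  have hpos : ∀ z ∈ S, 0 < ‖tc z‖ := by
    intro z hz
    have hz0 : z ≠ 0 := (Finset.mem_filter.mp hz).2.1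
    obtain ⟨h1, h2⟩ := bad_norm_le z
    by_cases h : z.1 = 0
    · have h3 : z.2 ≠ 0 := fun h4 => hz0 (Prod.ext h h4)
      have h5 : 1 ≤ |z.2| := Int.one_le_abs h3
      have h6 : (1 : ℝ) ≤ ((|z.2| : ℤ) : ℝ) := by exact_mod_cast h5
      linarith
    · have h5 : 1 ≤ |z.1| := Int.one_le_abs h
      have h6 : (1 : ℝ) ≤ ((|z.1| : ℤ) : ℝ) := by exact_mod_cast h5
      linarith
  -- the sum
  have hsum : ∑ z ∈ S, 1 / ‖tc z‖ ≤ 12 * R := by
    have hsplit := Finset.sum_filter_add_sum_filter_not S (fun z : ℤ × ℤ => |z.2| ≤ |z.1|)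
      (fun z => 1 / ‖tc z‖)
    have key : ∀ x : ℤ, ∀ z ∈ S, x ≠ 0 → ((|x| : ℤ) : ℝ) ≤ ‖tc z‖ →
        1 / ‖tc z‖ ≤ 1 / ((|x| : ℤ) : ℝ) := by
      intro x z hz hx hxz
      have h5 : 1 ≤ |x| := Int.one_le_abs hx
      have h6 : (1 : ℝ) ≤ ((|x| : ℤ) : ℝ) := by exact_mod_cast h5
      exact one_div_le_one_div_of_le (by linarith) hxz
    have hA : ∑ z ∈ S.filter (fun z : ℤ × ℤ => |z.2| ≤ |z.1|), 1 / ‖tc z‖ ≤ 6 * N := by
      refine bad_half N Prod.fst Prod.snd (fun z w h1 h2 => Prod.ext h1 h2) _ _ fun z hz => ?_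
      obtain ⟨hz1, hz2⟩ := Finset.mem_filter.mp hz
      have hz3 := Finset.mem_filter.mp hz1
      have hz4 : z.1 ≠ 0 := by
        intro h
        rw [h, abs_zero] at hz2
        have : z.2 = 0 := abs_eq_zero.mp (le_antisymm hz2 (abs_nonneg _))
        exact hz3.2.1 (Prod.ext h this)
      refine ⟨hz4, habsN _ ((bad_norm_le z).1.trans hz3.2.2), hz2, ?_⟩
      exact key z.1 z hz1 hz4 (bad_norm_le z).1
    have hB : ∑ z ∈ S.filter (fun z : ℤ × ℤ => ¬ |z.2| ≤ |z.1|), 1 / ‖tc z‖ ≤ 6 * N := by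
      refine bad_half N Prod.snd Prod.fst (fun z w h1 h2 => Prod.ext h2 h1) _ _ fun z hz => ?_
      obtain ⟨hz1, hz2⟩ := Finset.mem_filter.mp hz
      have hz3 := Finset.mem_filter.mp hz1
      have hz4 : z.2 ≠ 0 := by
        intro h
        rw [h, abs_zero] at hz2
        exact hz2 (abs_nonneg _)
      refine ⟨hz4, habsN _ ((bad_norm_le z).2.trans hz3.2.2), (not_le.mp hz2).le, ?_⟩
      exact key z.2 z hz1 hz4 (bad_norm_le z).2
    rw [← hsplit]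
    linarith
  -- union bound
  have hsub : {α : ℝ | α ∈ Set.Icc (-Real.pi) Real.pi ∧ ∃ z : ℤ × ℤ, z ≠ 0 ∧ ‖tc z‖ ≤ R ∧
      0 < (cr (Complex.exp (α * Complex.I) * v) z).re ∧
      |(cr (Complex.exp (α * Complex.I) * v) z).im| ≤ 1 / Q} ⊆
      ⋃ z ∈ S, {α : ℝ | α ∈ Set.Icc (-Real.pi) Real.pi ∧
      0 < (cr (Complex.exp (α * Complex.I) * v) z).re ∧
      |(cr (Complex.exp (α * Complex.I) * v) z).im| ≤ (1 / (Q * ‖tc z‖)) * ‖tc z‖} := by
    rintro α ⟨hα, z, hz, hzR, h1, h2⟩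
    have hzS := hmem z hz hzR
    simp only [Set.mem_iUnion]
    refine ⟨z, hzS, hα, h1, ?_⟩
    have hp := hpos z hzS
    have e : (1 / (Q * ‖tc z‖)) * ‖tc z‖ = 1 / Q := by field_simp
    rw [e]
    exact h2
  refine (measure_mono hsub).trans ((measure_biUnion_finset_le _ _).trans ?_)
  calc ∑ z ∈ S, volume {α : ℝ | α ∈ Set.Icc (-Real.pi) Real.pi ∧
      0 < (cr (Complex.exp (α * Complex.I) * v) z).re ∧
      |(cr (Complex.exp (α * Complex.I) * v) z).im| ≤ (1 / (Q * ‖tc z‖)) * ‖tc z‖}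
      ≤ ∑ z ∈ S, ENNReal.ofReal (3 * Real.pi * (1 / (Q * ‖tc z‖))) := by
        refine Finset.sum_le_sum fun z hz => ?_
        exact ang_meas v hv z (Finset.mem_filter.mp hz).2.1 _ (by positivity)
    _ = ENNReal.ofReal (∑ z ∈ S, 3 * Real.pi * (1 / (Q * ‖tc z‖))) := by
        rw [ENNReal.ofReal_sum_of_nonneg]
        intro z _
        positivity
    _ ≤ ENNReal.ofReal (36 * Real.pi * R / Q) := by
        apply ENNReal.ofReal_le_ofReal
        have e : ∑ z ∈ S, 3 * Real.pi * (1 / (Q * ‖tc z‖)) =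
            3 * Real.pi / Q * ∑ z ∈ S, 1 / ‖tc z‖ := by
          rw [Finset.mul_sum]
          refine Finset.sum_congr rfl fun z hz => ?_
          have hp := hpos z hz
          field_simp
        rw [e]
        calc 3 * Real.pi / Q * ∑ z ∈ S, 1 / ‖tc z‖ ≤ 3 * Real.pi / Q * (12 * R) := by gcongr
          _ = 36 * Real.pi * R / Q := by ring

end Pool.Agent.ParityQuad
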