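import Pool.Agent.Lib_MP_f1a94e_nt.Defs

/-!
# MP_f1a94e_nt, piece B: Dirichlet approximation by a Gaussian integer of odd norm
-/

set_option autoImplicit false

namespace Pool.Agent.ParityQuad

namespace Good

theorem gcr_re (β : ℂ) (z : ℤ × ℤ) : (cr β z).re = z.1 * β.re + z.2 * β.im := by
  simp [cr, tc]

theorem gcr_im (β : ℂ) (z : ℤ × ℤ) : (cr β z).im = z.2 * β.re - z.1 * β.im := by
  simp [cr, tc]; ring

theorem re_im_sq (β : ℂ) (hβ : ‖β‖ = 1) (z : ℤ × ℤ) :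
    (cr β z).re ^ 2 + (cr β z).im ^ 2 = (Nm z : ℝ) := by
  have h1 : β.re ^ 2 + β.im ^ 2 = 1 := by
    have h := Complex.sq_norm β
    rw [hβ, Complex.normSq_apply] at h
    nlinarith [h]
  rw [gcr_re, gcr_im, Nm]
  push_cast
  linear_combination ((z.1 : ℝ) ^ 2 + (z.2 : ℝ) ^ 2) * h1

theorem dirichlet_aux (x y : ℝ) (hx : x ≠ 0) (hx1 : |x| ≤ 1) (hyx : |y| ≤ |x|) (Q : ℕ)
    (hQ : 1 ≤ Q) :
    ∃ k j : ℤ, 0 < k ∧ k ≤ Q ∧ |j| ≤ k ∧ |(k : ℝ) * y - j * x| ≤ 1 / ((Q : ℝ) + 1) := by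
  obtain ⟨j, k, hk0, hkQ, h⟩ := Real.exists_int_int_abs_mul_sub_le (y / x) hQ
  have hQ' : (1 : ℝ) ≤ Q := by exact_mod_cast hQ
  have hlt : 1 / ((Q : ℝ) + 1) < 1 := by
    rw [div_lt_one (by positivity)]; linarith
  refine ⟨k, j, hk0, hkQ, ?_, ?_⟩
  · have h1 : |y / x| ≤ 1 := by
      rw [abs_div]; exact div_le_one_of_le₀ hyx (abs_nonneg _)
    have hk : (0 : ℝ) < k := by exact_mod_cast hk0
    have h2 : |(k : ℝ) * (y / x)| ≤ k := by
      rw [abs_mul, abs_of_pos hk]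
      calc (k : ℝ) * |y / x| ≤ k * 1 := by gcongr
        _ = k := mul_one _
    have h3 : |(j : ℝ)| < k + 1 := by
      have : (j : ℝ) = k * (y / x) - (k * (y / x) - j) := by ring
      rw [this]
      calc |(k : ℝ) * (y / x) - (k * (y / x) - j)| ≤ |(k : ℝ) * (y / x)| + |k * (y / x) - j| :=
            abs_sub _ _
        _ < k + 1 := by linarith
    have h4 : |j| < k + 1 := by exact_mod_cast h3
    omega
  · have : (k : ℝ) * y - j * x = (k * (y / x) - j) * x := by field_simp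
    rw [this, abs_mul]
    calc |(k : ℝ) * (y / x) - j| * |x| ≤ 1 / ((Q : ℝ) + 1) * 1 :=
          mul_le_mul h hx1 (abs_nonneg _) (by positivity)
      _ = _ := mul_one _

theorem exists_approx (β : ℂ) (hβ : ‖β‖ = 1) (Q : ℕ) (hQ : 1 ≤ Q) :
    ∃ z : ℤ × ℤ, z ≠ 0 ∧ Nm z ≤ 2 * (Q : ℤ) ^ 2 ∧ |(cr β z).im| ≤ 1 / ((Q : ℝ) + 1) := by
  have h1 : β.re ^ 2 + β.im ^ 2 = 1 := by
    have h := Complex.sq_norm β
    rw [hβ, Complex.normSq_apply] at h
    nlinarith [h]
  have hre : |β.re| ≤ 1 := by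
    rw [abs_le_one_iff_mul_self_le_one]; nlinarith [sq_nonneg β.im]
  have him : |β.im| ≤ 1 := by
    rw [abs_le_one_iff_mul_self_le_one]; nlinarith [sq_nonneg β.re]
  rcases le_total |β.im| |β.re| with h | h
  · have hx : β.re ≠ 0 := by
      intro h0
      rw [h0, abs_zero] at h
      have : β.im = 0 := abs_eq_zero.mp (le_antisymm h (abs_nonneg _))
      rw [h0, this] at h1; norm_num at h1
    obtain ⟨k, j, hk0, hkQ, hj, hle⟩ := dirichlet_aux β.re β.im hx hre h Q hQ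
    refine ⟨(k, j), ?_, ?_, ?_⟩
    · intro h0
      have := congrArg Prod.fst h0
      simp at this; omega
    · simp only [Nm]
      have hj2 : j ^ 2 ≤ k ^ 2 := sq_le_sq' (by linarith [neg_abs_le j]) (le_trans (le_abs_self j) hj)
      have hk2 : k ^ 2 ≤ (Q : ℤ) ^ 2 := pow_le_pow_left₀ hk0.le hkQ 2
      linarith
    · rw [gcr_im]
      rw [abs_sub_comm] at hle
      exact hle
  · have hx : β.im ≠ 0 := by
      intro h0
      rw [h0, abs_zero] at h
      have : β.re = 0 := abs_eq_zero.mp (le_antisymm h (abs_nonneg _))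
      rw [h0, this] at h1; norm_num at h1
    obtain ⟨k, j, hk0, hkQ, hj, hle⟩ := dirichlet_aux β.im β.re hx him h Q hQ
    refine ⟨(j, k), ?_, ?_, ?_⟩
    · intro h0
      have := congrArg Prod.snd h0
      simp at this; omega
    · simp only [Nm]
      have hj2 : j ^ 2 ≤ k ^ 2 := sq_le_sq' (by linarith [neg_abs_le j]) (le_trans (le_abs_self j) hj)
      have hk2 : k ^ 2 ≤ (Q : ℤ) ^ 2 := pow_le_pow_left₀ hk0.le hkQ 2
      linarith
    · rw [gcr_im]
      exact hle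

/-- division by the gcd and choice of the sign -/
theorem exists_prim (β : ℂ) (hβ : ‖β‖ = 1) (Q : ℕ) (hQ : 1 ≤ Q) :
    ∃ z : ℤ × ℤ, IsCoprime z.1 z.2 ∧ Nm z ≤ 2 * (Q : ℤ) ^ 2 ∧ 0 < (cr β z).re ∧
      |(cr β z).im| ≤ 1 / ((Q : ℝ) + 1) := by
  obtain ⟨z, hz0, hzN, hzi⟩ := exists_approx β hβ Q hQ
  have hQ' : (1 : ℝ) ≤ Q := by exact_mod_cast hQ
  have hg : z.1.gcd z.2 ≠ 0 := by
    intro h
    rw [Int.gcd_eq_zero_iff] at h
    exact hz0 (Prod.ext h.1 h.2)
  obtain ⟨g, a, b, hgpos, hcop, ha, hb⟩ : ∃ (g : ℤ) (a b : ℤ), 0 < g ∧ IsCoprime a b ∧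
      z.1 = a * g ∧ z.2 = b * g := by
    obtain ⟨a, b, hc, ha, hb⟩ := Int.exists_gcd_one (Nat.pos_of_ne_zero hg)
    exact ⟨_, a, b, by exact_mod_cast Nat.pos_of_ne_zero hg,
      Int.isCoprime_iff_gcd_eq_one.mpr hc, ha, hb⟩
  have hg1 : (1 : ℤ) ≤ g := hgpos
  have hg1' : (1 : ℝ) ≤ (g : ℝ) := by exact_mod_cast hg1
  have hN : Nm (a, b) ≤ 2 * (Q : ℤ) ^ 2 := by
    refine le_trans ?_ hzN
    simp only [Nm, ha, hb]
    nlinarith [sq_nonneg a, sq_nonneg b, mul_nonneg (sub_nonneg.mpr hg1) (add_nonneg hgpos.le zero_le_one),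
      mul_nonneg (mul_nonneg (sub_nonneg.mpr hg1) (add_nonneg hgpos.le zero_le_one))
        (add_nonneg (sq_nonneg a) (sq_nonneg b))]
  have hI : |(cr β (a, b)).im| ≤ 1 / ((Q : ℝ) + 1) := by
    refine le_trans ?_ hzi
    have : (cr β z).im = g * (cr β (a, b)).im := by
      rw [gcr_im, gcr_im, ha, hb]; push_cast; ring
    rw [this, abs_mul, abs_of_pos (by linarith : (0 : ℝ) < g)]
    nlinarith [abs_nonneg (cr β (a, b)).im]
  have hNpos : 1 ≤ Nm (a, b) := by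
    have : 0 < Nm (a, b) := by
      simp only [Nm]
      rcases eq_or_ne a 0 with h | h
      · have hb0 : b ≠ 0 := by
          rintro rfl
          rw [h] at hcop
          exact not_isCoprime_zero_zero hcop
        positivity
      · positivity
    omega
  have hNpos' : (1 : ℝ) ≤ (Nm (a, b) : ℝ) := by exact_mod_cast hNpos
  have hsq := re_im_sq β hβ (a, b)
  have hhalf : 1 / ((Q : ℝ) + 1) ≤ 1 / 2 := by
    apply one_div_le_one_div_of_le <;> linarith
  have hI2 : (cr β (a, b)).im ^ 2 ≤ 1 / 4 := by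
    have := le_trans hI hhalf
    rw [← sq_abs]
    nlinarith [abs_nonneg (cr β (a, b)).im]
  have hR : (cr β (a, b)).re ≠ 0 := by
    intro h
    rw [h] at hsq
    nlinarith
  rcases lt_or_gt_of_ne hR with h | h
  · refine ⟨(-a, -b), ?_, ?_, ?_, ?_⟩
    · exact hcop.neg_left.neg_right
    · simpa [Nm] using hN
    · rw [gcr_re] at h ⊢
      push_cast
      linarith
    · rw [gcr_im] at hI ⊢
      have : ((-b : ℤ) : ℝ) * β.re - ((-a : ℤ) : ℝ) * β.im = -((b : ℝ) * β.re - (a : ℝ) * β.im) := by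
        push_cast; ring
      simp only [this, abs_neg]
      exact hI
  · exact ⟨(a, b), hcop, hN, h, hI⟩

theorem exists_shift (z : ℤ × ℤ) (hc : IsCoprime z.1 z.2) (hN : 0 < Nm z) :
    ∃ y : ℤ × ℤ, dt z y = 1 ∧ Nm z ≤ dp z y ∧ dp z y < 2 * Nm z := by
  obtain ⟨u, v, huv⟩ := hc
  set e : ℤ := dp z (-v, u) with he
  refine ⟨(-v + (1 - e / Nm z) * z.1, u + (1 - e / Nm z) * z.2), ?_, ?_, ?_⟩
  · simp only [dt]
    linear_combination huv
  · have h1 : dp z (-v + (1 - e / Nm z) * z.1, u + (1 - e / Nm z) * z.2) =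
        e % Nm z + Nm z := by
      have h2 : e % Nm z = e - Nm z * (e / Nm z) := Int.emod_def _ _
      rw [h2, he]
      simp only [dp, Nm]
      ring
    rw [h1]
    have := Int.emod_nonneg e hN.ne'
    linarith
  · have h1 : dp z (-v + (1 - e / Nm z) * z.1, u + (1 - e / Nm z) * z.2) =
        e % Nm z + Nm z := by
      have h2 : e % Nm z = e - Nm z * (e / Nm z) := Int.emod_def _ _
      rw [h2, he]
      simp only [dp, Nm]
      ring
    rw [h1]
    have := Int.emod_lt_of_pos e hN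
    linarith

theorem odd_shift (z y : ℤ × ℤ) (hc : IsCoprime z.1 z.2) (hN : ¬ Odd (Nm z))
    (hd : dt z y = 1) : Odd (Nm y) := by
  obtain ⟨z1, z2⟩ := z
  obtain ⟨y1, y2⟩ := y
  simp only [Nm, dt] at *
  have hz1 : Odd z1 := by
    by_contra h
    rw [Int.not_odd_iff_even] at h
    have h2 : Even z2 := by
      rw [Int.not_odd_iff_even] at hN
      have h3 : Even (z2 ^ 2) := by
        have : z2 ^ 2 = (z1 ^ 2 + z2 ^ 2) - z1 ^ 2 := by ring
        rw [this]
        exact hN.sub (h.pow_of_ne_zero (by norm_num))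
      exact (Int.even_pow.mp h3).1
    have : (2 : ℤ) ∣ 1 := by
      rw [← hd]
      exact dvd_sub (Dvd.dvd.mul_right h.two_dvd _) (Dvd.dvd.mul_right h2.two_dvd _)
    norm_num at this
  have hz2 : Odd z2 := by
    by_contra h
    rw [Int.not_odd_iff_even] at h hN
    have h3 : Even (z1 ^ 2) := by
      have : z1 ^ 2 = (z1 ^ 2 + z2 ^ 2) - z2 ^ 2 := by ring
      rw [this]
      exact hN.sub (h.pow_of_ne_zero (by norm_num))
    have h4 := (Int.even_pow.mp h3).1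
    exact (Int.not_odd_iff_even.mpr h4) hz1
  obtain ⟨p, hp⟩ := hz1
  obtain ⟨q, hq⟩ := hz2
  subst hp; subst hq
  have h5 : y2 = y1 + 1 - 2 * (p * y2 - q * y1) := by linarith
  rw [h5]
  refine ⟨y1 ^ 2 + y1 - 2 * (y1 + 1) * (p * y2 - q * y1) + 2 * (p * y2 - q * y1) ^ 2, ?_⟩
  ring

end Good

open Good

theorem good_or_bad (β : ℂ) (hβ : ‖β‖ = 1) (Q : ℕ) (hQ : 1 ≤ Q) (c : ℝ) (hc0 : 0 < c)
    (hc1 : c ≤ 1) (hcQ : 4 ≤ c * (Q : ℝ) ^ 2) :
    (∃ z : ℤ × ℤ, z ≠ 0 ∧ ‖tc z‖ ≤ c * Q ∧ 0 < (cr β z).re ∧ |(cr β z).im| ≤ 1 / Q) ∨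
    (∃ z : ℤ × ℤ, Odd (Nm z) ∧ Nm z ≤ 10 * (Q : ℤ) ^ 2 ∧
      Cone β (6 / (c ^ 2 * (Q : ℝ) ^ 2)) z) := by
  obtain ⟨z, hcop, hN, hre, him⟩ := exists_prim β hβ Q hQ
  have hQ' : (1 : ℝ) ≤ Q := by exact_mod_cast hQ
  have hQ0 : (0 : ℝ) < Q := by linarith
  have hz0 : z ≠ 0 := by
    rintro rfl
    have h0 : IsCoprime (0 : ℤ) (0 : ℤ) := hcop
    exact not_isCoprime_zero_zero h0
  have hN1 : 1 ≤ Nm z := by
    have : 0 < Nm z := by
      simp only [Nm]
      rcases eq_or_ne z.1 0 with h | h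
      · have hb0 : z.2 ≠ 0 := fun h' => hz0 (Prod.ext h h')
        positivity
      · positivity
    omega
  have hN1' : (1 : ℝ) ≤ (Nm z : ℝ) := by exact_mod_cast hN1
  have him' : |(cr β z).im| ≤ 1 / Q :=
    le_trans him (one_div_le_one_div_of_le hQ0 (by linarith))
  rcases le_or_gt ‖tc z‖ (c * Q) with hle | hgt
  · exact Or.inl ⟨z, hz0, hle, hre, him'⟩
  right
  have hsq := re_im_sq β hβ z
  set r := (cr β z).re with hr
  set s := (cr β z).im with hs
  have hnorm : ‖tc z‖ ^ 2 = (Nm z : ℝ) := norm_tc_sq z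
  set n := ‖tc z‖ with hn
  have hn1 : 1 ≤ n := by
    by_contra h
    push Not at h
    nlinarith [norm_nonneg (tc z)]
  have hhalf : 1 / ((Q : ℝ) + 1) ≤ 1 / 2 := by
    apply one_div_le_one_div_of_le <;> linarith
  have hs2 : s ^ 2 ≤ 1 / 4 := by
    have := le_trans him hhalf
    rw [← sq_abs]
    nlinarith [abs_nonneg s]
  have hrn : n / 2 ≤ r := by
    by_contra h
    push Not at h
    nlinarith
  -- the slope of `z`
  set t : ℝ := 2 / (c * (Q : ℝ) ^ 2) with ht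
  have hcQ0 : 0 < c * (Q : ℝ) ^ 2 := by positivity
  have ht0 : 0 < t := by positivity
  have ht2 : t ≤ 1 / 2 := by
    rw [ht, div_le_iff₀ hcQ0]; linarith
  have hst : |s| ≤ t * r := by
    have h1 : 1 / (Q : ℝ) ≤ n / (c * (Q : ℝ) ^ 2) := by
      rw [div_le_div_iff₀ hQ0 hcQ0]
      nlinarith
    have h2 : n / (c * (Q : ℝ) ^ 2) ≤ t * r := by
      rw [ht, div_mul_eq_mul_div, div_le_div_iff_of_pos_right hcQ0]
      linarith
    linarith
  have hc2Q : 0 < c ^ 2 * (Q : ℝ) ^ 2 := by positivity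
  have htc : t ≤ 2 / (c ^ 2 * (Q : ℝ) ^ 2) := by
    rw [ht]
    apply div_le_div_of_nonneg_left (by norm_num) hc2Q
    have : c ^ 2 ≤ c := by nlinarith
    exact mul_le_mul_of_nonneg_right this (by positivity)
  rcases Int.even_or_odd (Nm z) with hev | hodd
  swap
  · refine ⟨z, hodd, ?_, hre, ?_⟩
    · nlinarith [sq_nonneg (Q : ℤ)]
    · refine le_trans hst ?_
      apply mul_le_mul_of_nonneg_right _ hre.le
      refine le_trans htc ?_
      apply div_le_div_of_nonneg_right (by norm_num) hc2Q.le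
  obtain ⟨y, hd, hD1, hD2⟩ := exists_shift z hcop (by omega)
  have hoy : Odd (Nm y) := odd_shift z y hcop (Int.not_odd_iff_even.mpr hev) hd
  set D := dp z y with hD
  have hNy : D ^ 2 + 1 = Nm z * Nm y := by
    have := dp_sq_add_dt_sq z y
    rw [hd] at this
    linarith
  refine ⟨y, hoy, ?_, ?_⟩
  · -- norm bound
    have h1 : Nm z * Nm y ≤ Nm z * (4 * Nm z) := by
      rw [← hNy]
      nlinarith
    have h2 : Nm y ≤ 4 * Nm z := le_of_mul_le_mul_left h1 (by omega)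
    nlinarith [sq_nonneg (Q : ℤ)]
  · -- the cone
    have hNr : (Nm z : ℝ) * (cr β y).re = D * r - s := by
      have e1 : (D : ℝ) = z.1 * y.1 + z.2 * y.2 := by
        rw [hD, dp]; push_cast; ring
      have e2 : (z.1 : ℝ) * y.2 - z.2 * y.1 = 1 := by
        have : ((dt z y : ℤ) : ℝ) = 1 := by rw [hd]; norm_num
        rw [dt] at this; push_cast at this; exact this
      rw [hr, hs, gcr_re, gcr_im, gcr_re, e1, Nm]
      push_cast
      linear_combination (-(z.2 : ℝ) * β.re + (z.1 : ℝ) * β.im) * e2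
    have hNi : (Nm z : ℝ) * (cr β y).im = D * s + r := by
      have e1 : (D : ℝ) = z.1 * y.1 + z.2 * y.2 := by
        rw [hD, dp]; push_cast; ring
      have e2 : (z.1 : ℝ) * y.2 - z.2 * y.1 = 1 := by
        have : ((dt z y : ℤ) : ℝ) = 1 := by rw [hd]; norm_num
        rw [dt] at this; push_cast at this; exact this
      rw [hr, hs, gcr_im, gcr_im, gcr_re, e1, Nm]
      push_cast
      linear_combination ((z.1 : ℝ) * β.re + (z.2 : ℝ) * β.im) * e2
    have hDN : (Nm z : ℝ) ≤ (D : ℝ) := by exact_mod_cast hD1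
    have hD1' : (1 : ℝ) ≤ D := le_trans hN1' hDN
    have hDc : c ^ 2 * (Q : ℝ) ^ 2 ≤ D := by
      refine le_trans ?_ hDN
      rw [← hnorm]
      have : (c * (Q : ℝ)) ^ 2 ≤ n ^ 2 := pow_le_pow_left₀ (by positivity) hgt.le 2
      nlinarith
    have habs := abs_le.mp hst
    have hR1 : r * (D - t) ≤ (Nm z : ℝ) * (cr β y).re := by
      rw [hNr]; nlinarith
    have hI1 : |(Nm z : ℝ) * (cr β y).im| ≤ r * (D * t + 1) := by
      rw [hNi, abs_le]
      have hD0 : (0 : ℝ) ≤ D := by linarith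
      have h1 := mul_le_mul_of_nonneg_left habs.1 hD0
      have h2 := mul_le_mul_of_nonneg_left habs.2 hD0
      constructor
      · nlinarith
      · nlinarith
    have hNz0 : (0 : ℝ) < (Nm z : ℝ) := by linarith
    refine ⟨?_, ?_⟩
    · have h1 : 0 < (Nm z : ℝ) * (cr β y).re := by
        refine lt_of_lt_of_le ?_ hR1
        apply mul_pos hre
        linarith
      exact (mul_pos_iff_of_pos_left hNz0).mp h1
    · set τ : ℝ := 6 / (c ^ 2 * (Q : ℝ) ^ 2) with hτ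
      have hτ0 : 0 < τ := by positivity
      have h3 : D * t + 1 ≤ τ * (D - t) := by
        have h4 : D - t ≥ D / 2 := by linarith
        have h5 : (1 : ℝ) ≤ D / (c ^ 2 * (Q : ℝ) ^ 2) := by
          rw [le_div_iff₀ hc2Q]; linarith
        have h6 : D * t ≤ D * (2 / (c ^ 2 * (Q : ℝ) ^ 2)) :=
          mul_le_mul_of_nonneg_left htc (by linarith)
        have h7 : D * (2 / (c ^ 2 * (Q : ℝ) ^ 2)) + D / (c ^ 2 * (Q : ℝ) ^ 2) = τ * (D / 2) := by
          rw [hτ]; ring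
        have h8 : τ * (D / 2) ≤ τ * (D - t) := mul_le_mul_of_nonneg_left h4 hτ0.le
        linarith
      have h9 : (Nm z : ℝ) * |(cr β y).im| ≤ (Nm z : ℝ) * (τ * (cr β y).re) := by
        rw [abs_mul, abs_of_pos hNz0] at hI1
        calc (Nm z : ℝ) * |(cr β y).im| ≤ r * (D * t + 1) := hI1
          _ ≤ r * (τ * (D - t)) := mul_le_mul_of_nonneg_left h3 hre.le
          _ = τ * (r * (D - t)) := by ring
          _ ≤ τ * ((Nm z : ℝ) * (cr β y).re) := mul_le_mul_of_nonneg_left hR1 hτ0.le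
          _ = (Nm z : ℝ) * (τ * (cr β y).re) := by ring
      exact le_of_mul_le_mul_left h9 hNz0

end Pool.Agent.ParityQuad
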