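import Pool.Agent.Lib_MP_f1a94e_nt.Defs

/-!
# Size of the iterated differences of `arctan (1 / t)`
-/

set_option autoImplicit false

namespace Pool.Agent.ParityQuad

open Filter Topology

/-- mean value theorem for iterated differences -/
lemma diff_chain (j : ℕ) : ∀ (G : ℕ → ℝ → ℝ),
    (∀ i t, 0 < t → HasDerivAt (G i) (G (i + 1) t) t) → ∀ (k : ℕ) (t : ℝ), 0 < t →
    ∃ ξ : ℝ, t ≤ ξ ∧ ξ ≤ t + 2 * j ∧ (dd^[j] (G k)) t = (-2) ^ j * G (k + j) ξ := by
  induction j with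
  | zero =>
    intro G _ k t _
    exact ⟨t, le_rfl, by simp, by simp⟩
  | succ j ih =>
    intro G hG k t ht
    obtain ⟨ξ, h1, h2, h3⟩ := ih (fun i => dd (G i)) (fun i t ht => by
      have a1 := hG i t ht
      have a2 := hG i (t + 2) (by linarith)
      have a3 : HasDerivAt (fun s => G i (s + 2)) (G (i + 1) (t + 2)) t := by
        simpa using a2.comp_add_const t 2
      exact a1.sub a3) k t ht
    have hξ : 0 < ξ := by linarith
    obtain ⟨η, hη, hη'⟩ := exists_hasDerivAt_eq_slope (G (k + j)) (G (k + j + 1))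
      (show ξ < ξ + 2 by linarith)
      (fun s hs => (hG (k + j) s (by linarith [hs.1])).continuousAt.continuousWithinAt)
      (fun s hs => hG (k + j) s (by linarith [hs.1]))
    refine ⟨η, by linarith [hη.1], ?_, ?_⟩
    · push_cast; linarith [hη.2]
    · rw [Function.iterate_succ_apply, h3]
      have e1 : (ξ + 2 - ξ : ℝ) = 2 := by ring
      rw [e1] at hη'
      have e2 : dd (G (k + j)) ξ = -2 * G (k + j + 1) η := by
        rw [hη', dd]; ring
      simp only [e2]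
      have e3 : k + (j + 1) = k + j + 1 := by ring
      rw [e3]
      ring

/-- the chain of derivatives of `arctan (1/t)` -/
noncomputable def diffG : ℕ → ℝ → ℝ
  | 0 => fun t => Real.arctan (1 / t)
  | i + 1 => fun t => (((-1) ^ i * (i.factorial : ℂ)) * ((t : ℂ) + Complex.I)⁻¹ ^ (i + 1)).im

lemma diff_ne (t : ℝ) : (t : ℂ) + Complex.I ≠ 0 := by
  intro h
  have := congrArg Complex.im h
  simp at this

lemma diffG_deriv (i : ℕ) (t : ℝ) (ht : 0 < t) : HasDerivAt (diffG i) (diffG (i + 1) t) t := by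
  cases i with
  | zero =>
    have h1 : HasDerivAt (fun t : ℝ => 1 / t) (-(t ^ 2)⁻¹) t := by
      simpa using hasDerivAt_inv ht.ne'
    have h2 := h1.arctan
    have e : diffG 1 t = 1 / (1 + (1 / t) ^ 2) * -(t ^ 2)⁻¹ := by
      simp only [diffG, pow_zero, Nat.factorial_zero, Nat.cast_one, mul_one, one_mul, zero_add,
        pow_one]
      rw [Complex.inv_im, Complex.normSq_apply]
      simp
      have : t * t + 1 ≠ 0 := by positivity
      field_simp
    change HasDerivAt (fun t => Real.arctan (1 / t)) (diffG 1 t) t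
    rw [e]
    exact h2
  | succ i =>
    have h0 : HasDerivAt (fun s : ℝ => ((s : ℂ) + Complex.I)) 1 t :=
      (Complex.ofRealCLM.hasDerivAt (x := t)).add_const _
    have h1 := (h0.inv (diff_ne t)).pow (i + 1)
    have h2 := h1.const_mul ((-1) ^ i * (i.factorial : ℂ))
    have h3 := (Complex.imCLM.hasFDerivAt.comp_hasDerivAt t h2)
    have e : diffG (i + 1 + 1) t = Complex.imCLM ((-1) ^ i * (i.factorial : ℂ) *
        (((i + 1 : ℕ) : ℂ) * ((t : ℂ) + Complex.I)⁻¹ ^ (i + 1 - 1) *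
          (-1 / ((t : ℂ) + Complex.I) ^ 2))) := by
      simp only [diffG, Complex.imCLM_apply]
      congr 1
      rw [Nat.factorial_succ, Nat.add_sub_cancel]
      push_cast
      have e1 : -1 / ((t : ℂ) + Complex.I) ^ 2 = -(((t : ℂ) + Complex.I)⁻¹) ^ 2 := by
        rw [inv_pow]; ring
      rw [e1]
      generalize ((t : ℂ) + Complex.I)⁻¹ = z
      ring
    rw [e]
    exact h3

lemma diffG_val (j : ℕ) (ξ : ℝ) (hξ : 0 < ξ) :
    (-2) ^ (j + 1) * diffG (j + 1) ξ =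
      2 ^ (j + 1) * (j.factorial : ℝ) * (((1 + ((1 / ξ : ℝ) : ℂ) * Complex.I) ^ (j + 1)).im) *
        ξ ^ (j + 1) / (ξ ^ 2 + 1) ^ (j + 1) := by
  have hne := diff_ne ξ
  have h1 : ((ξ : ℂ) + Complex.I)⁻¹ = ((ξ ^ 2 + 1 : ℝ) : ℂ)⁻¹ * ((ξ : ℂ) - Complex.I) := by
    have h2 : ((ξ : ℂ) + Complex.I) * ((ξ : ℂ) - Complex.I) = ((ξ ^ 2 + 1 : ℝ) : ℂ) := by
      push_cast
      linear_combination -Complex.I_sq
    have h3 : ((ξ ^ 2 + 1 : ℝ) : ℂ) ≠ 0 := by
      exact_mod_cast (by positivity : (ξ ^ 2 + 1 : ℝ) ≠ 0)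
    have hw : (ξ : ℂ) - Complex.I ≠ 0 := by
      intro h
      have := congrArg Complex.im h
      simp at this
    rw [← h2, mul_inv, mul_assoc, inv_mul_cancel₀ hw, mul_one]
  have h4 : ((ξ : ℂ) - Complex.I) = (ξ : ℂ) * (starRingEnd ℂ) (1 + ((1 / ξ : ℝ) : ℂ) * Complex.I) := by
    have : (ξ : ℂ) ≠ 0 := by exact_mod_cast hξ.ne'
    simp only [map_add, map_one, map_mul, Complex.conj_ofReal, Complex.conj_I]
    push_cast
    field_simp
    ring
  simp only [diffG]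
  rw [h1, h4, mul_pow, mul_pow, ← map_pow]
  have h5 : ∀ (a b c : ℝ) (z : ℂ), (((a : ℂ)) * ((b : ℂ) * ((c : ℂ) * (starRingEnd ℂ) z))).im =
      -(a * b * c * z.im) := by
    intro a b c z
    have e : ((a : ℂ)) * ((b : ℂ) * ((c : ℂ) * (starRingEnd ℂ) z)) =
      ((a * b * c : ℝ) : ℂ) * (starRingEnd ℂ) z := by push_cast; ring
    rw [e, Complex.im_ofReal_mul, Complex.conj_im]
    ring
  have h6 := h5 ((-1) ^ j * j.factorial) (((ξ ^ 2 + 1)⁻¹) ^ (j + 1)) (ξ ^ (j + 1))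
    ((1 + ((1 / ξ : ℝ) : ℂ) * Complex.I) ^ (j + 1))
  push_cast at h6 ⊢
  rw [h6]
  have h7 : (-2 : ℝ) ^ (j + 1) = (-1) ^ (j + 1) * 2 ^ (j + 1) := by
    rw [← mul_pow]; norm_num
  have h8 : (-1 : ℝ) ^ (j + 1) * (-1) ^ j = -1 := by
    rw [← pow_add]
    have : j + 1 + j = 2 * j + 1 := by ring
    rw [this, pow_succ, pow_mul]; norm_num
  rw [h7, inv_pow]
  generalize ((1 + 1 / (ξ : ℂ) * Complex.I) ^ (j + 1)).im = y
  have h9 : (-1 : ℝ) ^ (j + 1) * 2 ^ (j + 1) *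
      -((-1) ^ j * (j.factorial : ℝ) * ((ξ ^ 2 + 1) ^ (j + 1))⁻¹ * ξ ^ (j + 1) * y) =
      -((-1) ^ (j + 1) * (-1) ^ j) * (2 ^ (j + 1) * (j.factorial : ℝ) * y * ξ ^ (j + 1) /
        (ξ ^ 2 + 1) ^ (j + 1)) := by
    rw [div_eq_mul_inv]; ring
  rw [h9, h8]
  ring

/-- sine like quantities are comparable with their argument near zero -/
lemma diff_im_bounds (j : ℕ) : ∃ x0 : ℝ, 0 < x0 ∧ ∀ x : ℝ, 0 < x → x ≤ x0 →
    x / 2 ≤ ((1 + (x : ℂ) * Complex.I) ^ (j + 1)).im ∧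
    ((1 + (x : ℂ) * Complex.I) ^ (j + 1)).im ≤ (2 * (j + 1)) * x := by
  have h0 : HasDerivAt (fun s : ℝ => (1 + (s : ℂ) * Complex.I)) (1 * Complex.I) 0 :=
    ((Complex.ofRealCLM.hasDerivAt (x := (0:ℝ))).mul_const _).const_add _
  have h1 := h0.pow (j + 1)
  have h3 := (Complex.imCLM.hasFDerivAt.comp_hasDerivAt (0:ℝ) h1)
  have h4 : HasDerivAt (fun s : ℝ => ((1 + (s : ℂ) * Complex.I) ^ (j + 1)).im) ((j : ℝ) + 1) 0 := by
    have e : Complex.imCLM (((j + 1 : ℕ) : ℂ) * (1 + (((0:ℝ)) : ℂ) * Complex.I) ^ (j + 1 - 1) *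
        (1 * Complex.I)) = (j : ℝ) + 1 := by
      simp
    rw [← e]
    exact h3
  have h5 := h4.tendsto_slope
  have h6 : Tendsto (fun x : ℝ => ((1 + (x : ℂ) * Complex.I) ^ (j + 1)).im / x) (𝓝[>] 0)
      (𝓝 ((j : ℝ) + 1)) := by
    refine (h5.mono_left (nhdsWithin_mono 0 fun x hx => (ne_of_gt hx))).congr fun x => ?_
    simp [slope_def_field]
  have hj : (0:ℝ) ≤ j := Nat.cast_nonneg j
  have h7 : ∀ᶠ x : ℝ in 𝓝[>] 0, 1 / 2 < ((1 + (x : ℂ) * Complex.I) ^ (j + 1)).im / x ∧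
      ((1 + (x : ℂ) * Complex.I) ^ (j + 1)).im / x < 2 * ((j : ℝ) + 1) :=
    (h6.eventually_const_lt (by linarith)).and (h6.eventually_lt_const (by linarith))
  rw [eventually_nhdsWithin_iff, Metric.eventually_nhds_iff] at h7
  obtain ⟨δ, hδ, h8⟩ := h7
  refine ⟨δ / 2, by positivity, fun x hx hx' => ?_⟩
  have h9 := h8 (y := x) (by rw [Real.dist_eq, sub_zero, abs_of_pos hx]; linarith) hx
  rw [lt_div_iff₀ hx, div_lt_iff₀ hx] at h9
  constructor
  · linarith [h9.1]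
  · linarith [h9.2]

lemma diff_arctan_bounds : ∃ x0 : ℝ, 0 < x0 ∧ ∀ x : ℝ, 0 < x → x ≤ x0 →
    x / 2 ≤ Real.arctan x ∧ Real.arctan x ≤ 2 * x := by
  have h4 : HasDerivAt Real.arctan 1 0 := by simpa using Real.hasDerivAt_arctan 0
  have h5 := h4.tendsto_slope
  have h6 : Tendsto (fun x : ℝ => Real.arctan x / x) (𝓝[>] 0) (𝓝 1) := by
    refine (h5.mono_left (nhdsWithin_mono 0 fun x hx => (ne_of_gt hx))).congr fun x => ?_
    simp [slope_def_field]
  have h7 : ∀ᶠ x : ℝ in 𝓝[>] 0, 1 / 2 < Real.arctan x / x ∧ Real.arctan x / x < 2 :=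
    (h6.eventually_const_lt (by norm_num)).and (h6.eventually_lt_const (by norm_num))
  rw [eventually_nhdsWithin_iff, Metric.eventually_nhds_iff] at h7
  obtain ⟨δ, hδ, h8⟩ := h7
  refine ⟨δ / 2, by positivity, fun x hx hx' => ?_⟩
  have h9 := h8 (y := x) (by rw [Real.dist_eq, sub_zero, abs_of_pos hx]; linarith) hx
  rw [lt_div_iff₀ hx, div_lt_iff₀ hx] at h9
  constructor
  · linarith [h9.1]
  · linarith [h9.2]

/-! ### PIECE F (Diff.lean) -/

theorem diff_bounds (j : ℕ) : ∃ a b t0 : ℝ, 0 < a ∧ 0 < b ∧ 0 < t0 ∧ ∀ t : ℝ, t0 ≤ t →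
    a / t ^ (j + 1) ≤ (dd^[j] (fun s : ℝ => Real.arctan (1 / s))) t ∧
    (dd^[j] (fun s : ℝ => Real.arctan (1 / s))) t ≤ b / t ^ (j + 1) := by
  cases j with
  | zero =>
    obtain ⟨x0, hx0, h⟩ := diff_arctan_bounds
    refine ⟨1 / 2, 2, 1 / x0, by norm_num, by norm_num, by positivity, fun t ht => ?_⟩
    have ht0 : 0 < t := lt_of_lt_of_le (by positivity) ht
    have h1 := h (1 / t) (by positivity) (by
      rw [div_le_iff₀ ht0]
      rw [div_le_iff₀ hx0] at ht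
      linarith)
    simp only [Function.iterate_zero, id, zero_add, pow_one]
    constructor
    · calc 1 / 2 / t = 1 / t / 2 := by ring
        _ ≤ _ := h1.1
    · calc _ ≤ 2 * (1 / t) := h1.2
        _ = 2 / t := by ring
  | succ j =>
    obtain ⟨x0, hx0, h⟩ := diff_im_bounds j
    set f : ℝ := (j.factorial : ℝ) with hf
    have hf0 : 0 < f := by rw [hf]; exact_mod_cast Nat.factorial_pos j
    refine ⟨2 ^ (j + 1) * f * (1 / 2) / (2 ^ (j + 1) * 2 ^ (j + 2)),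
      2 ^ (j + 1) * f * (2 * (j + 1)), max (1 / x0) (max (2 * (j + 1)) 1),
      by positivity, by positivity, by positivity, fun t ht => ?_⟩
    have ht1 : 1 / x0 ≤ t := (le_max_left _ _).trans ht
    have ht2 : 2 * ((j : ℝ) + 1) ≤ t := (le_max_left _ _).trans ((le_max_right _ _).trans ht)
    have ht3 : 1 ≤ t := (le_max_right _ _).trans ((le_max_right _ _).trans ht)
    have ht0 : 0 < t := by linarith
    obtain ⟨ξ, h1, h2, h3⟩ := diff_chain (j + 1) diffG diffG_deriv 0 t ht0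
    have hξ : 0 < ξ := by linarith
    have hξ1 : 1 ≤ ξ := by linarith
    have h2' : ξ ≤ 2 * t := by push_cast at h2; linarith
    have e : (fun s : ℝ => Real.arctan (1 / s)) = diffG 0 := rfl
    rw [e, h3, zero_add, diffG_val j ξ hξ, ← hf]
    have h4 := h (1 / ξ) (by positivity) (by
      rw [div_le_iff₀ hξ]
      rw [div_le_iff₀ hx0] at ht1
      nlinarith)
    set y := ((1 + ((1 / ξ : ℝ) : ℂ) * Complex.I) ^ (j + 1)).im with hy
    have hy0 : 0 < y := lt_of_lt_of_le (by positivity) h4.1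
    have hsq : (ξ ^ 2 + 1) ≤ 2 * ξ ^ 2 := by nlinarith
    constructor
    · calc 2 ^ (j + 1) * f * (1 / 2) / (2 ^ (j + 1) * 2 ^ (j + 2)) / t ^ (j + 1 + 1) =
          2 ^ (j + 1) * f * (1 / 2) / (2 ^ (j + 1) * (2 * t) ^ (j + 2)) := by
            rw [mul_pow]
            have : j + 1 + 1 = j + 2 := rfl
            rw [this]
            field_simp
        _ ≤ 2 ^ (j + 1) * f * (1 / 2) / (2 ^ (j + 1) * ξ ^ (j + 2)) := by gcongr
        _ = 2 ^ (j + 1) * f * ((1 / ξ) / 2) * ξ ^ (j + 1) / (2 * ξ ^ 2) ^ (j + 1) := by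
            rw [mul_pow, ← pow_mul]
            have e2 : ξ ^ (2 * (j + 1)) = ξ ^ (j + 2) * ξ ^ j := by rw [← pow_add]; congr 1; ring
            have e3 : ξ ^ (j + 1) = ξ * ξ ^ j := by ring
            rw [e2, e3]
            have : ξ ^ j ≠ 0 := by positivity
            field_simp
        _ ≤ 2 ^ (j + 1) * f * y * ξ ^ (j + 1) / (2 * ξ ^ 2) ^ (j + 1) := by
            gcongr
            exact h4.1
        _ ≤ 2 ^ (j + 1) * f * y * ξ ^ (j + 1) / (ξ ^ 2 + 1) ^ (j + 1) := by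
            gcongr
    · calc 2 ^ (j + 1) * f * y * ξ ^ (j + 1) / (ξ ^ 2 + 1) ^ (j + 1) ≤
          2 ^ (j + 1) * f * y * ξ ^ (j + 1) / (ξ ^ 2) ^ (j + 1) := by
            gcongr
            linarith
        _ ≤ 2 ^ (j + 1) * f * (2 * (j + 1) * (1 / ξ)) * ξ ^ (j + 1) / (ξ ^ 2) ^ (j + 1) := by
            gcongr
            exact h4.2
        _ = 2 ^ (j + 1) * f * (2 * (j + 1)) / ξ ^ (j + 1 + 1) := by
            rw [← pow_mul]
            have e2 : ξ ^ (2 * (j + 1)) = ξ ^ (j + 1 + 1) * ξ ^ j := by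
              rw [← pow_add]; congr 1; ring
            have e3 : ξ ^ (j + 1) = ξ * ξ ^ j := by ring
            rw [e2, e3]
            have : ξ ^ j ≠ 0 := by positivity
            field_simp
        _ ≤ 2 ^ (j + 1) * f * (2 * (j + 1)) / t ^ (j + 1 + 1) := by gcongr

end Pool.Agent.ParityQuad
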