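import Pool.Agent.Lib_MP_f1a94e_nt.Defs
import Pool.Agent.Lib_MP_f1a94e_nt.Diff

/-!
# MP_f1a94e_nt, piece G: products of few small Gaussian integers of total sign `-1` whose direction
is extremely close to `1` (greedy digits).
-/

set_option autoImplicit false

namespace Pool.Agent.ParityQuad

open Complex

/-- `a` is the angle of a product of at most `k` vectors of odd norm at most `T`, of total sign
`s`. -/
def Rep (F : ℤ × ℤ → ℤ) (T : ℤ) (k : ℕ) (a : ℝ) (s : ℤ) : Prop :=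
  ∃ l : List (ℤ × ℤ), (∀ u ∈ l, Odd (Nm u) ∧ Nm u ≤ T) ∧ l.length ≤ k ∧
    (l.map F).prod = s ∧ (l.map dir).prod = Complex.exp (a * Complex.I)

theorem Rep.zero (F : ℤ × ℤ → ℤ) (T : ℤ) : Rep F T 0 0 1 :=
  ⟨[], by simp, by simp, by simp, by simp⟩

theorem Rep.add {F : ℤ × ℤ → ℤ} {T : ℤ} {k k' : ℕ} {a a' : ℝ} {s s' : ℤ}
    (h : Rep F T k a s) (h' : Rep F T k' a' s') : Rep F T (k + k') (a + a') (s * s') := by
  obtain ⟨l, h1, h2, h3, h4⟩ := h
  obtain ⟨l', h1', h2', h3', h4'⟩ := h'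
  refine ⟨l ++ l', ?_, ?_, ?_, ?_⟩
  · intro u hu
    rcases List.mem_append.1 hu with hu | hu
    · exact h1 u hu
    · exact h1' u hu
  · rw [List.length_append]; omega
  · rw [List.map_append, List.prod_append, h3, h3']
  · rw [List.map_append, List.prod_append, h4, h4', ← Complex.exp_add]
    congr 1; push_cast; ring

theorem Rep.mul {F : ℤ × ℤ → ℤ} {T : ℤ} {k : ℕ} {a : ℝ} {s : ℤ}
    (h : Rep F T k a s) (m : ℕ) : Rep F T (m * k) (m * a) (s ^ m) := by
  induction m with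
  | zero => simpa using Rep.zero F T
  | succ m ih =>
    have := ih.add h
    have e1 : (m + 1) * k = m * k + k := by ring
    have e2 : ((m + 1 : ℕ) : ℝ) * a = m * a + a := by push_cast; ring
    rw [e1, e2, pow_succ]
    exact this

theorem Nm_conj (z : ℤ × ℤ) : Nm (z.1, -z.2) = Nm z := by simp [Nm]

theorem SignFn.conj {F : ℤ × ℤ → ℤ} (hF : SignFn F) (z : ℤ × ℤ) (hz : Odd (Nm z)) :
    F (z.1, -z.2) = F z := by
  have h1 : mu z (z.1, -z.2) = (Nm z, 0) := by
    simp only [mu, Nm, Prod.mk.injEq]; constructor <;> ring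
  have h2 := hF.mul z (z.1, -z.2) hz (by rw [Nm_conj]; exact hz)
  rw [h1, hF.int _ hz] at h2
  rcases hF.pm z with h | h <;> rcases hF.pm (z.1, -z.2) with h' | h' <;> rw [h, h'] at h2 ⊢ <;>
    norm_num at h2

theorem tc_conj (z : ℤ × ℤ) : tc (z.1, -z.2) = (starRingEnd ℂ) (tc z) := by
  simp only [tc, map_add, map_mul, Complex.conj_I, map_intCast]
  push_cast; ring

theorem dir_conj (z : ℤ × ℤ) : dir (z.1, -z.2) = (starRingEnd ℂ) (dir z) := by
  rw [dir, dir, tc_conj, map_div₀, Complex.conj_ofReal, RCLike.norm_conj]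

theorem Rep.neg {F : ℤ × ℤ → ℤ} (hF : SignFn F) {T : ℤ} {k : ℕ} {a : ℝ} {s : ℤ}
    (h : Rep F T k a s) : Rep F T k (-a) s := by
  obtain ⟨l, h1, h2, h3, h4⟩ := h
  refine ⟨l.map (fun z => (z.1, -z.2)), ?_, ?_, ?_, ?_⟩
  · intro u hu
    obtain ⟨z, hz, rfl⟩ := List.mem_map.1 hu
    have := h1 z hz
    rw [Nm_conj]; exact this
  · simpa using h2
  · rw [List.map_map, ← h3]
    congr 1
    apply List.map_congr_left
    intro z hz
    exact hF.conj z (h1 z hz).1
  · rw [List.map_map]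
    have e : (List.map (dir ∘ fun z : ℤ × ℤ => (z.1, -z.2)) l) =
        (l.map dir).map (starRingEnd ℂ) := by
      rw [List.map_map]
      apply List.map_congr_left
      intro z _
      exact dir_conj z
    rw [e, ← map_list_prod, h4, ← Complex.exp_conj]
    congr 1
    simp

theorem dir_base (t : ℕ) (ht : 0 < t) :
    dir ((t : ℤ), 1) = Complex.exp ((Real.arctan (1 / (t : ℝ)) : ℝ) * Complex.I) := by
  have ht' : (0 : ℝ) < t := by exact_mod_cast ht
  have hn : ‖tc ((t : ℤ), 1)‖ = Real.sqrt ((t : ℝ) ^ 2 + 1) := by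
    rw [← Real.sqrt_sq (norm_nonneg _), norm_tc_sq]
    simp [Nm]
  have hs : Real.sqrt (1 + (1 / (t : ℝ)) ^ 2) = Real.sqrt ((t : ℝ) ^ 2 + 1) / t := by
    rw [eq_div_iff ht'.ne', ← Real.sqrt_sq ht'.le, ← Real.sqrt_mul (by positivity)]
    congr 1
    rw [Real.sqrt_sq ht'.le]
    field_simp
  have hp : 0 < Real.sqrt ((t : ℝ) ^ 2 + 1) := by positivity
  rw [dir, hn, Complex.exp_mul_I, ← Complex.ofReal_cos, ← Complex.ofReal_sin, Real.cos_arctan,
    Real.sin_arctan, hs, tc]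
  have hp' : ((Real.sqrt ((t : ℝ) ^ 2 + 1) : ℝ) : ℂ) ≠ 0 := by exact_mod_cast hp.ne'
  have ht'' : ((t : ℝ) : ℂ) ≠ 0 := by exact_mod_cast ht'.ne'
  push_cast at *
  field_simp

theorem rep_base (F : ℤ × ℤ → ℤ) (hF : SignFn F) (j : ℕ) : ∀ (t : ℕ), 0 < t → Even t → ∀ T : ℤ,
    ((t : ℤ) + 2 * j) ^ 2 + 1 ≤ T → ∃ s : ℤ, (s = 1 ∨ s = -1) ∧
      Rep F T (2 ^ j) ((dd^[j] (fun s : ℝ => Real.arctan (1 / s))) t) s := by
  induction j with
  | zero =>
    intro t ht hte T hT
    refine ⟨F ((t : ℤ), 1), hF.pm _, [((t : ℤ), 1)], ?_, by simp, by simp, ?_⟩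
    · intro u hu
      rw [List.mem_singleton] at hu
      subst hu
      obtain ⟨r, hr⟩ := hte
      refine ⟨⟨2 * r ^ 2, ?_⟩, ?_⟩
      · simp only [Nm]; subst hr; push_cast; ring
      · simp only [Nm]; push_cast at hT; linarith
    · simp only [List.map_cons, List.map_nil, List.prod_cons, List.prod_nil, mul_one,
        Function.iterate_zero, id_eq]
      exact dir_base t ht
  | succ j ih =>
    intro t ht hte T hT
    push_cast at hT
    obtain ⟨s, hs, h⟩ := ih t ht hte T (by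
      have : (0 : ℤ) ≤ t + 2 * j := by positivity
      nlinarith)
    obtain ⟨s', hs', h'⟩ := ih (t + 2) (by omega) (hte.add (by decide)) T (by
      push_cast
      have : ((t : ℤ) + 2 + 2 * j) = t + 2 * (j + 1) := by ring
      rw [this]; exact hT)
    refine ⟨s * s', ?_, ?_⟩
    · rcases hs with rfl | rfl <;> rcases hs' with rfl | rfl <;> norm_num
    · have := h.add (h'.neg hF)
      rw [Function.iterate_succ']
      have e : 2 ^ (j + 1) = 2 ^ j + 2 ^ j := by ring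
      rw [e]
      simp only [Function.comp, dd]
      push_cast at this
      rw [sub_eq_add_neg]
      exact this

/-- one step of the greedy expansion -/
theorem greedy_step {F : ℤ × ℤ → ℤ} {T : ℤ} {k N : ℕ} {a ψ : ℝ} {s : ℤ}
    (h : Rep F T k a (-1)) (ha : a ≤ 2 * Real.pi) (hψ : 0 < ψ) (hs : s = 1 ∨ s = -1)
    (h' : Rep F T N ψ s) : ∃ (m : ℕ) (a' : ℝ), (m : ℝ) ≤ (2 * Real.pi - a) / (2 * ψ) ∧
      Rep F T (k + 2 * m * N) a' (-1) ∧ a' ≤ 2 * Real.pi ∧ 2 * Real.pi - a' < 2 * ψ := by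
  have h0 : 0 ≤ (2 * Real.pi - a) / (2 * ψ) := by
    apply div_nonneg <;> linarith
  refine ⟨⌊(2 * Real.pi - a) / (2 * ψ)⌋₊,
    a + ((2 * ⌊(2 * Real.pi - a) / (2 * ψ)⌋₊ : ℕ) : ℝ) * ψ, Nat.floor_le h0, ?_, ?_, ?_⟩
  · have := h.add (h'.mul (2 * ⌊(2 * Real.pi - a) / (2 * ψ)⌋₊))
    have e : s ^ (2 * ⌊(2 * Real.pi - a) / (2 * ψ)⌋₊) = 1 := by
      rw [pow_mul]
      rcases hs with rfl | rfl <;> norm_num
    rw [e, mul_one] at this
    exact this
  · have := Nat.floor_le h0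
    rw [le_div_iff₀ (by linarith)] at this
    push_cast
    linarith
  · have := Nat.lt_floor_add_one ((2 * Real.pi - a) / (2 * ψ))
    rw [div_lt_iff₀ (by linarith)] at this
    push_cast
    linarith

/-- bound on the number of letters used, all levels -/
theorem greedy (F : ℤ × ℤ → ℤ) (hF : SignFn F) (z0 : ℤ × ℤ) (h0 : Odd (Nm z0))
    (hz0 : F z0 = -1) (j : ℕ) :
    ∃ C : ℝ, 0 ≤ C ∧ ∃ U0 : ℕ, 1 ≤ U0 ∧ ∀ U : ℕ, U0 ≤ U → ∃ (a : ℝ) (k : ℕ),
      Rep F (16 * (U : ℤ) ^ 2) k a (-1) ∧ a ≤ 2 * Real.pi ∧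
      2 * Real.pi - a < 2 * ((dd^[j] (fun s : ℝ => Real.arctan (1 / s))) ((2 * U : ℕ) : ℝ)) ∧
      (k : ℝ) ≤ C * U := by
  induction j with
  | zero =>
    obtain ⟨A, B, t0, hA, hB, ht0, hd⟩ := diff_bounds 0
    obtain ⟨n0, hn0⟩ := exists_nat_ge t0
    obtain ⟨n1, hn1⟩ := exists_nat_ge (Nm z0 : ℝ)
    refine ⟨1 + 6 * Real.pi / A, by positivity, max (max n0 n1) 4,
      le_trans (by norm_num) (le_max_right _ _), ?_⟩
    intro U hU
    have hU1 : n0 ≤ U := le_trans (le_trans (le_max_left _ _) (le_max_left _ _)) hU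
    have hU2 : n1 ≤ U := le_trans (le_trans (le_max_right _ _) (le_max_left _ _)) hU
    have hU3 : 4 ≤ U := le_trans (le_max_right _ _) hU
    have hU3' : (4 : ℝ) ≤ U := by exact_mod_cast hU3
    have hU3z : (4 : ℤ) ≤ U := by exact_mod_cast hU3
    have hUt : t0 ≤ ((2 * U : ℕ) : ℝ) := by
      have : (n0 : ℝ) ≤ U := by exact_mod_cast hU1
      push_cast; linarith
    have hd1 := (hd _ hUt).1
    have hpos : 0 < ((dd^[0] (fun s : ℝ => Real.arctan (1 / s))) ((2 * U : ℕ) : ℝ)) := by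
      refine lt_of_lt_of_le ?_ hd1
      have : (0 : ℝ) < ((2 * U : ℕ) : ℝ) := by push_cast; linarith
      positivity
    obtain ⟨s, hs, hr⟩ := rep_base F hF 0 (2 * U) (by omega) (by simp) (16 * (U : ℤ) ^ 2) (by
      push_cast; nlinarith)
    -- the first vector
    have hN : Nm z0 ≤ 16 * (U : ℤ) ^ 2 := by
      have h1 : Nm z0 ≤ (n1 : ℤ) := by exact_mod_cast hn1
      have h2 : (n1 : ℤ) ≤ U := by exact_mod_cast hU2
      nlinarith
    have hstart : Rep F (16 * (U : ℤ) ^ 2) 1 (Complex.arg (tc z0)) (-1) := by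
      refine ⟨[z0], ?_, by simp, by simpa using hz0, ?_⟩
      · intro u hu
        rw [List.mem_singleton] at hu
        subst hu
        exact ⟨h0, hN⟩
      · simp only [List.map_cons, List.map_nil, List.prod_cons, List.prod_nil, mul_one]
        have hne : ‖tc z0‖ ≠ 0 := by
          intro h
          have := norm_tc_sq z0
          rw [h] at this
          have h' : Nm z0 = 0 := by
            have : (Nm z0 : ℝ) = 0 := by rw [← this]; norm_num
            exact_mod_cast this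
          rw [h'] at h0
          exact absurd h0 (by decide)
        have hne' : ((‖tc z0‖ : ℝ) : ℂ) ≠ 0 := by exact_mod_cast hne
        rw [dir, div_eq_iff hne', mul_comm]
        exact (Complex.norm_mul_exp_arg_mul_I (tc z0)).symm
    have harg1 := Complex.arg_le_pi (tc z0)
    have harg2 := Complex.neg_pi_lt_arg (tc z0)
    obtain ⟨m, a', hm, hr', ha1, ha2⟩ := greedy_step hstart (by linarith [Real.pi_pos]) hpos hs hr
    refine ⟨a', _, hr', ha1, ha2, ?_⟩
    have hm' : (m : ℝ) ≤ 3 * Real.pi * U / A := by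
      refine hm.trans ?_
      have h1 : (2 * Real.pi - (tc z0).arg) ≤ 3 * Real.pi := by linarith
      have h2 : A / (2 * U) ≤
          ((dd^[0] (fun s : ℝ => Real.arctan (1 / s))) ((2 * U : ℕ) : ℝ)) := by
        have := hd1
        push_cast at this ⊢
        simpa using this
      have hUp : (0 : ℝ) < U := by linarith
      have h3 : 0 < A / (2 * U) := by positivity
      calc (2 * Real.pi - (tc z0).arg) / (2 * _) ≤ 3 * Real.pi / (2 * (A / (2 * U))) := by
            apply div_le_div₀ (by positivity) h1 (by positivity)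
            linarith
        _ = 3 * Real.pi * U / A := by field_simp
    push_cast
    have hpi := Real.pi_pos
    have : 6 * Real.pi / A * U = 2 * (3 * Real.pi * U / A) := by ring
    nlinarith
  | succ j ih =>
    obtain ⟨C, hC, U0, hU0, ih⟩ := ih
    obtain ⟨A, B, t0, hA, hB, ht0, hd⟩ := diff_bounds (j + 1)
    obtain ⟨A', B', t0', hA', hB', ht0', hd'⟩ := diff_bounds j
    obtain ⟨n0, hn0⟩ := exists_nat_ge t0
    obtain ⟨n1, hn1⟩ := exists_nat_ge t0'
    refine ⟨C + 2 ^ (j + 3) * (B' / A), by positivity, max (max n0 n1) (max U0 (j + 4)),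
      le_trans hU0 (le_trans (le_max_left _ _) (le_max_right _ _)), ?_⟩
    intro U hU
    have hU1 : n0 ≤ U := le_trans (le_trans (le_max_left _ _) (le_max_left _ _)) hU
    have hU2 : n1 ≤ U := le_trans (le_trans (le_max_right _ _) (le_max_left _ _)) hU
    have hU3 : U0 ≤ U := le_trans (le_trans (le_max_left _ _) (le_max_right _ _)) hU
    have hU4 : j + 4 ≤ U := le_trans (le_trans (le_max_right _ _) (le_max_right _ _)) hU
    have hUp : (0 : ℝ) < U := by
      have : 0 < U := by omega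
      exact_mod_cast this
    have hUz : ((j : ℤ) + 4) ≤ U := by exact_mod_cast hU4
    have hUt : t0 ≤ ((2 * U : ℕ) : ℝ) := by
      have : (n0 : ℝ) ≤ U := by exact_mod_cast hU1
      push_cast; linarith
    have hUt' : t0' ≤ ((2 * U : ℕ) : ℝ) := by
      have : (n1 : ℝ) ≤ U := by exact_mod_cast hU2
      push_cast; linarith
    obtain ⟨a, k, hr, ha1, ha2, hk⟩ := ih U hU3
    have hd1 := (hd _ hUt).1
    have hd2 := (hd' _ hUt').2
    have h2U : (0 : ℝ) < ((2 * U : ℕ) : ℝ) := by push_cast; linarith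
    have hlow : 0 < A / ((2 * U : ℕ) : ℝ) ^ (j + 1 + 1) := by positivity
    have hpos : 0 < ((dd^[j + 1] (fun s : ℝ => Real.arctan (1 / s))) ((2 * U : ℕ) : ℝ)) :=
      lt_of_lt_of_le hlow hd1
    obtain ⟨s, hs, hr1⟩ := rep_base F hF (j + 1) (2 * U) (by omega) (by simp)
      (16 * (U : ℤ) ^ 2) (by
        push_cast
        have h1 : (2 * (U : ℤ) + 2 * (j + 1)) ≤ 4 * U - 1 := by linarith
        have h2 : (0 : ℤ) ≤ 2 * (U : ℤ) + 2 * (j + 1) := by positivity
        nlinarith)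
    obtain ⟨m, a', hm, hr', ha1', ha2'⟩ := greedy_step hr ha1 hpos hs hr1
    refine ⟨a', _, hr', ha1', ha2', ?_⟩
    have hm' : (m : ℝ) ≤ B' / A * (2 * U) := by
      refine hm.trans ?_
      calc (2 * Real.pi - a) / (2 * _) ≤
            (2 * (B' / ((2 * U : ℕ) : ℝ) ^ (j + 1))) / (2 * (A / ((2 * U : ℕ) : ℝ) ^ (j + 1 + 1))) := by
            apply div_le_div₀ (by positivity) (by linarith) (by positivity)
            linarith
        _ = B' / A * (2 * U) := by
            push_cast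
            field_simp
            try ring
    push_cast
    have e : (2 : ℝ) ^ (j + 3) = 4 * 2 ^ (j + 1) := by ring
    rw [e]
    have h2 : (0 : ℝ) < 2 ^ (j + 1) := by positivity
    nlinarith

theorem exists_list (F : ℤ × ℤ → ℤ) (hF : SignFn F) (z0 : ℤ × ℤ) (h0 : Odd (Nm z0))
    (hz0 : F z0 = -1) (K : ℕ) :
    ∃ C : ℝ, 1 ≤ C ∧ ∃ U0 : ℕ, ∀ U : ℕ, U0 ≤ U → ∃ l : List (ℤ × ℤ),
      (∀ u ∈ l, Odd (Nm u) ∧ Nm u ≤ 16 * (U : ℤ) ^ 2) ∧ (l.map F).prod = -1 ∧
      (l.length : ℝ) ≤ C * U ∧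
      ∃ δ : ℝ, |δ| ≤ C / (U : ℝ) ^ (K + 1) ∧
        (l.map dir).prod = Complex.exp (δ * Complex.I) := by
  obtain ⟨C, hC, U0, hU0, h⟩ := greedy F hF z0 h0 hz0 K
  obtain ⟨A, B, t0, hA, hB, ht0, hd⟩ := diff_bounds K
  obtain ⟨n0, hn0⟩ := exists_nat_ge t0
  refine ⟨max 1 (max C (2 * B)), le_max_left _ _, max n0 U0, ?_⟩
  intro U hU
  have hU1 : n0 ≤ U := le_trans (le_max_left _ _) hU
  have hU2 : U0 ≤ U := le_trans (le_max_right _ _) hU
  have hUp : (0 : ℝ) < U := by
    have : 0 < U := by omega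
    exact_mod_cast this
  have hUt : t0 ≤ ((2 * U : ℕ) : ℝ) := by
    have : (n0 : ℝ) ≤ U := by exact_mod_cast hU1
    push_cast; linarith
  obtain ⟨a, k, ⟨l, hl1, hl2, hl3, hl4⟩, ha1, ha2, hk⟩ := h U hU2
  refine ⟨l, hl1, hl3, ?_, a - 2 * Real.pi, ?_, ?_⟩
  · have h1 : (l.length : ℝ) ≤ k := by exact_mod_cast hl2
    have h2 : C ≤ max 1 (max C (2 * B)) := le_trans (le_max_left _ _) (le_max_right _ _)
    calc (l.length : ℝ) ≤ k := h1
      _ ≤ C * U := hk
      _ ≤ _ := by gcongr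
  · have h2 : 2 * B ≤ max 1 (max C (2 * B)) := le_trans (le_max_right _ _) (le_max_right _ _)
    have hd2 := (hd _ hUt).2
    rw [abs_of_nonpos (by linarith)]
    have h3 : B / ((2 * U : ℕ) : ℝ) ^ (K + 1) ≤ B / (U : ℝ) ^ (K + 1) := by
      apply div_le_div_of_nonneg_left hB.le (by positivity)
      apply pow_le_pow_left₀ hUp.le
      push_cast; linarith
    calc -(a - 2 * Real.pi) ≤ 2 * (B / (U : ℝ) ^ (K + 1)) := by linarith
      _ = 2 * B / (U : ℝ) ^ (K + 1) := by ring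
      _ ≤ _ := by gcongr
  · rw [hl4]
    push_cast
    rw [sub_mul, Complex.exp_sub, Complex.exp_two_pi_mul_I, div_one]

end Pool.Agent.ParityQuad
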