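import Pool.Agent.Lib_MP_f1a94e_nt.Descent
import Pool.Agent.Lib_MP_f1a94e_nt.Good
import Pool.Agent.Lib_MP_f1a94e_nt.Bad
import Pool.Agent.Lib_MP_f1a94e_nt.Mult
import Pool.Agent.Lib_MP_f1a94e_nt.Greedy

/-!
The main inequality: a lower bound for the number of adjacent pairs of opposite sign.
-/

set_option autoImplicit false

namespace Pool.Agent.ParityQuad

open MeasureTheory

theorem tc_ne_zero_of_odd {z : ℤ × ℤ} (h : Odd (Nm z)) : tc z ≠ 0 := by
  intro h0
  have h1 := norm_tc_sq z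
  rw [h0, norm_zero] at h1
  have h2 : Nm z = 0 := by
    have : (Nm z : ℝ) = 0 := by rw [← h1]; norm_num
    exact_mod_cast this
  rw [h2] at h
  exact absurd h (by decide)

theorem norm_dir {z : ℤ × ℤ} (h : Odd (Nm z)) : ‖dir z‖ = 1 := by
  have h1 : ‖tc z‖ ≠ 0 := norm_ne_zero_iff.2 (tc_ne_zero_of_odd h)
  rw [dir, norm_div, Complex.norm_real, norm_norm, div_self h1]

theorem cr_mul (β : ℂ) (z u : ℤ × ℤ) (hu : Odd (Nm u)) :
    cr (β * dir u) (mu z u) = cr β z * (‖tc u‖ : ℂ) := by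
  have h1 : (‖tc u‖ : ℂ) ≠ 0 := by
    rw [Ne, Complex.ofReal_eq_zero]; exact norm_ne_zero_iff.2 (tc_ne_zero_of_odd hu)
  have h2 : tc u * (starRingEnd ℂ) (dir u) = (‖tc u‖ : ℂ) := by
    rw [dir, map_div₀, Complex.conj_ofReal, ← mul_div_assoc, Complex.mul_conj,
      Complex.normSq_eq_norm_sq, Complex.ofReal_pow, sq, mul_div_assoc, div_self h1, mul_one]
  rw [cr, cr, tc_mu, map_mul]
  calc tc z * tc u * ((starRingEnd ℂ) β * (starRingEnd ℂ) (dir u))
      = tc z * (starRingEnd ℂ) β * (tc u * (starRingEnd ℂ) (dir u)) := by ring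
    _ = _ := by rw [h2]

theorem cone_mul {β : ℂ} {τ : ℝ} {z : ℤ × ℤ} (hz : Cone β τ z) (u : ℤ × ℤ) (hu : Odd (Nm u)) :
    Cone (β * dir u) τ (mu z u) := by
  have h1 : 0 < ‖tc u‖ := norm_pos_iff.2 (tc_ne_zero_of_odd hu)
  obtain ⟨h2, h3⟩ := hz
  unfold Cone
  rw [cr_mul β z u hu, Complex.re_mul_ofReal, Complex.im_mul_ofReal, abs_mul, abs_of_pos h1]
  exact ⟨mul_pos h2 h1, by nlinarith⟩

theorem cone_mono {β : ℂ} {τ τ' : ℝ} (h : τ ≤ τ') {z : ℤ × ℤ} (hz : Cone β τ z) : Cone β τ' z :=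
  ⟨hz.1, hz.2.trans (mul_le_mul_of_nonneg_right h hz.1.le)⟩

theorem cone_rot {β : ℂ} {τ : ℝ} {z : ℤ × ℤ} (hz : Cone β τ z) (h0 : 0 ≤ τ) (h1 : τ ≤ 1 / 16)
    (δ : ℝ) (hδ : |δ| ≤ τ) : Cone (β * Complex.exp (δ * Complex.I)) (4 * τ) z := by
  obtain ⟨h2, h3⟩ := hz
  have e : cr (β * Complex.exp (δ * Complex.I)) z =
      cr β z * ((Real.cos δ : ℂ) - (Real.sin δ : ℂ) * Complex.I) := by
    rw [cr, cr, map_mul, ← Complex.exp_conj, map_mul, Complex.conj_ofReal, Complex.conj_I,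
      mul_assoc]
    congr 2
    rw [mul_neg, ← neg_mul, ← Complex.ofReal_neg, Complex.exp_mul_I, ← Complex.ofReal_cos,
      ← Complex.ofReal_sin, Real.cos_neg, Real.sin_neg, Complex.ofReal_neg]
    ring
  set r := (cr β z).re with hr
  set s := (cr β z).im with hs
  have hre : (cr (β * Complex.exp (δ * Complex.I)) z).re = r * Real.cos δ + s * Real.sin δ := by
    rw [e]
    simp only [Complex.mul_re, Complex.sub_re, Complex.ofReal_re, Complex.sub_im,
      Complex.ofReal_im, Complex.mul_im, Complex.I_re, Complex.I_im, hr, hs]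
    ring
  have him : (cr (β * Complex.exp (δ * Complex.I)) z).im = s * Real.cos δ - r * Real.sin δ := by
    rw [e]
    simp only [Complex.mul_re, Complex.sub_re, Complex.ofReal_re, Complex.sub_im,
      Complex.ofReal_im, Complex.mul_im, Complex.I_re, Complex.I_im, hr, hs]
    ring
  have hsin : |Real.sin δ| ≤ |δ| := Real.abs_sin_le_abs
  have hcos : 1 - δ ^ 2 / 2 ≤ Real.cos δ := Real.one_sub_sq_div_two_le_cos
  have hcos1 : |Real.cos δ| ≤ 1 := Real.abs_cos_le_one δ
  have hδ2 : δ ^ 2 ≤ τ ^ 2 := by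
    rw [← sq_abs δ]; exact pow_le_pow_left₀ (abs_nonneg _) hδ 2
  have hss : |s * Real.sin δ| ≤ (τ * r) * τ := by
    rw [abs_mul]; exact mul_le_mul h3 (hsin.trans hδ) (abs_nonneg _) (by positivity)
  have hre2 : r / 2 ≤ r * Real.cos δ + s * Real.sin δ := by
    have h4 := (abs_le.1 hss).1
    have h5 : r * (1 - δ ^ 2 / 2) ≤ r * Real.cos δ := mul_le_mul_of_nonneg_left hcos h2.le
    have h6 : τ ^ 2 ≤ 1 / 256 := by nlinarith
    have h7 : r * δ ^ 2 ≤ r * τ ^ 2 := mul_le_mul_of_nonneg_left hδ2 h2.le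
    nlinarith
  have him2 : |s * Real.cos δ - r * Real.sin δ| ≤ 2 * τ * r := by
    calc |s * Real.cos δ - r * Real.sin δ| ≤ |s * Real.cos δ| + |r * Real.sin δ| := abs_sub _ _
      _ ≤ (τ * r) * 1 + r * τ := by
          rw [abs_mul, abs_mul, abs_of_pos h2]
          exact add_le_add (mul_le_mul h3 hcos1 (abs_nonneg _) (by positivity))
            (mul_le_mul_of_nonneg_left (hsin.trans hδ) h2.le)
      _ = 2 * τ * r := by ring
  unfold Cone
  rw [hre, him]
  constructor
  · linarith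
  · refine him2.trans ?_
    nlinarith

/-- all vectors of odd norm at most `X` in the cone have the same sign -/
def Const (F : ℤ × ℤ → ℤ) (X : ℤ) (β : ℂ) (τ : ℝ) : Prop :=
  ∀ z w, Cone β τ z → Cone β τ w → Odd (Nm z) → Odd (Nm w) → Nm z ≤ X → Nm w ≤ X → F z = F w

/-- there is a short vector of odd norm in the cone -/
def GoodV (Y : ℤ) (β : ℂ) (τ : ℝ) : Prop := ∃ z, Odd (Nm z) ∧ Nm z ≤ Y ∧ Cone β τ z

theorem Nm_nonneg (z : ℤ × ℤ) : 0 ≤ Nm z := by unfold Nm; positivity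

theorem chain (F : ℤ × ℤ → ℤ) (hF : SignFn F) (X Y T : ℤ) (τ : ℝ) (hτ : 0 ≤ τ) (hT : 1 ≤ T)
    (hY : 0 ≤ Y) (hX : Y * T ≤ X) : ∀ (l : List (ℤ × ℤ)), (∀ u ∈ l, Odd (Nm u) ∧ Nm u ≤ T) →
    ∀ β : ℂ, (∀ i ≤ l.length, Const F X (β * ((l.take i).map dir).prod) (4 * τ) ∧
      GoodV Y (β * ((l.take i).map dir).prod) τ) →
    ∀ z w, Cone β τ z → Odd (Nm z) → Nm z ≤ Y →
      Cone (β * (l.map dir).prod) (4 * τ) w → Odd (Nm w) → Nm w ≤ X →
      F w = F z * (l.map F).prod := by
  have hYX : Y ≤ X := le_trans (by nlinarith) hX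
  intro l
  induction l with
  | nil =>
    intro _ β hpre z w hz hoz hzY hw how hwX
    have h := (hpre 0 (by simp)).1
    simp only [List.map_nil, List.prod_nil, mul_one, List.take_nil] at h hw ⊢
    exact h w z hw (cone_mono (by linarith) hz) how hoz hwX (hzY.trans hYX)
  | cons u l ih =>
    intro hl β hpre z w hz hoz hzY hw how hwX
    have hu := hl u (by simp)
    have h1 := hpre 1 (by simp)
    simp only [List.take_succ_cons, List.take_zero, List.map_cons, List.map_nil, List.prod_cons,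
      List.prod_nil, mul_one] at h1
    obtain ⟨hc, z1, hoz1, hz1Y, hz1⟩ := h1
    have hz' := cone_mul hz u hu.1
    have hoz' : Odd (Nm (mu z u)) := by rw [Nm_mu]; exact hoz.mul hu.1
    have hz'X : Nm (mu z u) ≤ X := by
      rw [Nm_mu]
      exact le_trans (mul_le_mul hzY hu.2 (Nm_nonneg u) hY) hX
    have e1 : F z1 = F z * F u := by
      rw [← hF.mul z u hoz hu.1]
      exact hc _ _ (cone_mono (by linarith) hz1) (cone_mono (by linarith) hz') hoz1 hoz'
        (hz1Y.trans hYX) hz'X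
    have hw' : Cone (β * dir u * (l.map dir).prod) (4 * τ) w := by
      rw [List.map_cons, List.prod_cons, ← mul_assoc] at hw; exact hw
    have := ih (fun v hv => hl v (by simp [hv])) (β * dir u) (fun i hi => by
      have := hpre (i + 1) (by simpa using hi)
      simp only [List.take_succ_cons, List.map_cons, List.prod_cons, ← mul_assoc] at this
      exact this) z1 w hz1 hoz1 hz1Y hw' how hwX
    rw [this, e1, List.map_cons, List.prod_cons, mul_assoc]

theorem norm_prod_dir (l : List (ℤ × ℤ)) (hl : ∀ u ∈ l, Odd (Nm u)) :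
    ‖(l.map dir).prod‖ = 1 := by
  induction l with
  | nil => simp
  | cons u l ih =>
    rw [List.map_cons, List.prod_cons, norm_mul, norm_dir (hl u (by simp)),
      ih (fun v hv => hl v (by simp [hv])), one_mul]

theorem mem_Opp (F : ℤ × ℤ → ℤ) (X : ℤ) (r : (ℤ × ℤ) × (ℤ × ℤ)) :
    r ∈ Opp F X ↔ IsOpp F X r.1 r.2 := by
  classical
  unfold Opp
  rw [Finset.mem_filter]
  constructor
  · exact fun h => h.2
  · intro h
    refine ⟨?_, h⟩
    have key : ∀ z : ℤ × ℤ, Nm z ≤ X → z ∈ Finset.Icc (-X) X ×ˢ Finset.Icc (-X) X := by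
      intro z hz
      unfold Nm at hz
      rw [Finset.mem_product, Finset.mem_Icc, Finset.mem_Icc]
      have h1 : ∀ a : ℤ, a ≤ a ^ 2 ∧ -a ≤ a ^ 2 := by
        intro a
        constructor
        · rcases le_or_gt a 0 with h | h <;> nlinarith
        · rcases le_or_gt 0 a with h | h <;> nlinarith
      have h2 := h1 z.1
      have h3 := h1 z.2
      have h4 := sq_nonneg z.1
      have h5 := sq_nonneg z.2
      refine ⟨⟨?_, ?_⟩, ⟨?_, ?_⟩⟩ <;> linarith [h2.1, h2.2, h3.1, h3.2]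
    rw [Finset.mem_product]
    exact ⟨key _ h.2.1, key _ h.2.2.1⟩

theorem cone_meas (v : ℂ) (hv : ‖v‖ = 1) (z : ℤ × ℤ) (τ : ℝ) (hτ : 0 ≤ τ) :
    volume {α : ℝ | α ∈ Set.Icc (-Real.pi) Real.pi ∧
      Cone (Complex.exp (α * Complex.I) * v) τ z} ≤ ENNReal.ofReal (3 * Real.pi * τ) := by
  rcases eq_or_ne z 0 with h | h
  · have : {α : ℝ | α ∈ Set.Icc (-Real.pi) Real.pi ∧
      Cone (Complex.exp (α * Complex.I) * v) τ z} = ∅ := by
      ext α
      simp only [Set.mem_ofPred_eq, Set.mem_empty_iff_false, iff_false, not_and]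
      intro _ hc
      have := hc.1
      rw [h] at this
      simp [cr, tc] at this
    rw [this]; simp
  · refine le_trans (measure_mono ?_) (ang_meas v hv z h τ hτ)
    rintro α ⟨h1, h2, h3⟩
    refine ⟨h1, h2, h3.trans (mul_le_mul_of_nonneg_left ?_ hτ)⟩
    refine (Complex.re_le_norm _).trans ?_
    rw [cr, norm_mul, Complex.norm_conj, norm_mul, hv, mul_one,
      Complex.norm_exp_ofReal_mul_I, mul_one]

/-- The main inequality. -/
theorem main_ineq (F : ℤ × ℤ → ℤ) (hF : SignFn F) (X T : ℤ) (l : List (ℤ × ℤ))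
    (hl : ∀ u ∈ l, Odd (Nm u) ∧ Nm u ≤ T) (hprod : (l.map F).prod = -1) (hT : 1 ≤ T)
    (Q : ℕ) (hQ : 1 ≤ Q) (c : ℝ) (hc0 : 0 < c) (hc1 : c ≤ 1) (hcQ : 4 ≤ c * (Q : ℝ) ^ 2)
    (hX : 10 * (Q : ℤ) ^ 2 * T ≤ X) (τ : ℝ) (hτ : τ = 6 / (c ^ 2 * (Q : ℝ) ^ 2))
    (hτ1 : τ ≤ 1 / 16) (δ : ℝ) (hδ : |δ| ≤ τ)
    (hdir : (l.map dir).prod = Complex.exp (δ * Complex.I)) :
    2 * Real.pi ≤ ((l.length : ℝ) + 1) *
      (36 * Real.pi * c + 48 * Real.pi * τ * (Opp F X).card) := by
  have hQ0 : (0 : ℝ) < Q := by exact_mod_cast hQ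
  have hτ0 : 0 < τ := by rw [hτ]; positivity
  have hpi := Real.pi_pos
  set v : ℕ → ℂ := fun i => ((l.take i).map dir).prod with hvdef
  have hv : ∀ i, ‖v i‖ = 1 := fun i =>
    norm_prod_dir _ (fun u hu => (hl u (List.mem_of_mem_take hu)).1)
  have hβ : ∀ (α : ℝ) i, ‖Complex.exp (α * Complex.I) * v i‖ = 1 := fun α i => by
    rw [norm_mul, hv, mul_one, Complex.norm_exp_ofReal_mul_I]
  -- the sets
  set Bd : ℕ → Set ℝ := fun i => {α : ℝ | α ∈ Set.Icc (-Real.pi) Real.pi ∧ ∃ z : ℤ × ℤ, z ≠ 0 ∧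
      ‖tc z‖ ≤ c * Q ∧ 0 < (cr (Complex.exp (α * Complex.I) * v i) z).re ∧
      |(cr (Complex.exp (α * Complex.I) * v i) z).im| ≤ 1 / Q} with hBd
  set A : ℕ → ℤ × ℤ → Set ℝ := fun i z => {α : ℝ | α ∈ Set.Icc (-Real.pi) Real.pi ∧
      Cone (Complex.exp (α * Complex.I) * v i) (4 * τ) z} with hA
  have hcov : Set.Icc (-Real.pi) Real.pi ⊆ ⋃ i ∈ Finset.range (l.length + 1),
      (Bd i ∪ ⋃ r ∈ Opp F X, ((A i r.1 ∪ A i r.2) ∪ (A i (r.1 - r.2) ∪ A i (r.2 - r.1)))) := by
    intro α hα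
    by_contra hcon
    have hno : ∀ i ≤ l.length, α ∉ Bd i ∧ ∀ r ∈ Opp F X,
        α ∉ A i r.1 ∧ α ∉ A i r.2 ∧ α ∉ A i (r.1 - r.2) ∧ α ∉ A i (r.2 - r.1) := by
      intro i hi
      have hi' : i ∈ Finset.range (l.length + 1) := Finset.mem_range.2 (by omega)
      constructor
      · intro h
        exact hcon (Set.mem_iUnion₂.2 ⟨i, hi', Or.inl h⟩)
      · intro r hr
        refine ⟨fun h => ?_, fun h => ?_, fun h => ?_, fun h => ?_⟩ <;>
        refine hcon (Set.mem_iUnion₂.2 ⟨i, hi', Or.inr (Set.mem_iUnion₂.2 ⟨r, hr, ?_⟩)⟩)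
        · exact Or.inl (Or.inl h)
        · exact Or.inl (Or.inr h)
        · exact Or.inr (Or.inl h)
        · exact Or.inr (Or.inr h)
    have hpre : ∀ i ≤ l.length,
        Const F X (Complex.exp (α * Complex.I) * ((l.take i).map dir).prod) (4 * τ) ∧
        GoodV (10 * (Q : ℤ) ^ 2) (Complex.exp (α * Complex.I) * ((l.take i).map dir).prod) τ := by
      intro i hi
      obtain ⟨hb, ho⟩ := hno i hi
      constructor
      · intro z w hz hw hoz how hzX hwX
        by_contra hne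
        obtain ⟨p, q, hpq, hcone⟩ := descent F hF X _ _ z w hz hw hoz how hzX hwX hne
        obtain ⟨o1, o2, o3, o4⟩ := ho (p, q) ((mem_Opp F X (p, q)).2 hpq)
        rcases hcone with h | h | h | h
        · exact o1 ⟨hα, h⟩
        · exact o2 ⟨hα, h⟩
        · exact o3 ⟨hα, h⟩
        · exact o4 ⟨hα, h⟩
      · rcases good_or_bad _ (hβ α i) Q hQ c hc0 hc1 hcQ with h | h
        · exact absurd ⟨hα, h⟩ hb
        · rw [← hτ] at h; exact h
    obtain ⟨z, hoz, hzY, hz⟩ := (hpre 0 (Nat.zero_le _)).2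
    simp only [List.take_zero, List.map_nil, List.prod_nil, mul_one] at hz
    have hzX : Nm z ≤ X := by
      refine hzY.trans (le_trans ?_ hX)
      nlinarith [sq_nonneg (Q : ℤ)]
    have hw : Cone (Complex.exp (α * Complex.I) * (l.map dir).prod) (4 * τ) z := by
      rw [hdir]; exact cone_rot hz hτ0.le hτ1 δ hδ
    have := chain F hF X (10 * (Q : ℤ) ^ 2) T τ hτ0.le hT (by positivity) hX l hl
      (Complex.exp (α * Complex.I)) hpre z z hz hoz hzY hw hoz hzX
    rw [hprod] at this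
    rcases hF.pm z with h | h <;> rw [h] at this <;> norm_num at this
  have hvol : ENNReal.ofReal (2 * Real.pi) ≤ ∑ i ∈ Finset.range (l.length + 1),
      (ENNReal.ofReal (36 * Real.pi * c) + ∑ r ∈ Opp F X, ENNReal.ofReal (48 * Real.pi * τ)) := by
    calc ENNReal.ofReal (2 * Real.pi) = volume (Set.Icc (-Real.pi) Real.pi) := by
          rw [Real.volume_Icc]; congr 1; ring
      _ ≤ _ := measure_mono hcov
      _ ≤ ∑ i ∈ Finset.range (l.length + 1), volume (Bd i ∪ ⋃ r ∈ Opp F X,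
          ((A i r.1 ∪ A i r.2) ∪ (A i (r.1 - r.2) ∪ A i (r.2 - r.1)))) :=
          measure_biUnion_finset_le _ _
      _ ≤ _ := by
          refine Finset.sum_le_sum fun i _ => ?_
          refine (measure_union_le _ _).trans (add_le_add ?_ ?_)
          · refine (bad_meas (v i) (hv i) Q hQ (c * Q) (by positivity)).trans (le_of_eq ?_)
            congr 1
            field_simp
          · refine (measure_biUnion_finset_le _ _).trans (Finset.sum_le_sum fun r _ => ?_)
            have hm : ∀ z, volume (A i z) ≤ ENNReal.ofReal (3 * Real.pi * (4 * τ)) := fun z =>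
              cone_meas (v i) (hv i) z (4 * τ) (by positivity)
            calc volume ((A i r.1 ∪ A i r.2) ∪ (A i (r.1 - r.2) ∪ A i (r.2 - r.1)))
                ≤ (volume (A i r.1) + volume (A i r.2)) +
                  (volume (A i (r.1 - r.2)) + volume (A i (r.2 - r.1))) :=
                  (measure_union_le _ _).trans
                    (add_le_add (measure_union_le _ _) (measure_union_le _ _))
              _ ≤ (ENNReal.ofReal (3 * Real.pi * (4 * τ)) + ENNReal.ofReal (3 * Real.pi * (4 * τ))) +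
                  (ENNReal.ofReal (3 * Real.pi * (4 * τ)) +
                    ENNReal.ofReal (3 * Real.pi * (4 * τ))) :=
                  add_le_add (add_le_add (hm _) (hm _)) (add_le_add (hm _) (hm _))
              _ = ENNReal.ofReal (48 * Real.pi * τ) := by
                  rw [← ENNReal.ofReal_add (by positivity) (by positivity),
                    ← ENNReal.ofReal_add (by positivity) (by positivity)]
                  congr 1; ring
  rw [Finset.sum_const, Finset.sum_const, Finset.card_range, nsmul_eq_mul, nsmul_eq_mul,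
    ← ENNReal.ofReal_natCast, ← ENNReal.ofReal_natCast, ← ENNReal.ofReal_mul (by positivity),
    ← ENNReal.ofReal_add (by positivity) (by positivity), ← ENNReal.ofReal_mul (by positivity),
    ENNReal.ofReal_le_ofReal_iff (by positivity)] at hvol
  calc 2 * Real.pi ≤ _ := hvol
    _ = _ := by push_cast; ring

end Pool.Agent.ParityQuad
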