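import Pool.Agent.Lib_MP_f1a94e_nt.Defs

/-!
# Piece A: descent to an adjacent pair of opposite sign
-/

set_option autoImplicit false

namespace Pool.Agent.ParityQuad

namespace DescentAux

lemma cr_re (β : ℂ) (z : ℤ × ℤ) : (cr β z).re = z.1 * β.re + z.2 * β.im := by
  simp [cr, tc]

lemma cr_im (β : ℂ) (z : ℤ × ℤ) : (cr β z).im = z.2 * β.re - z.1 * β.im := by
  simp [cr, tc]; ring

/-- the cone is convex -/
lemma cone_comb {β : ℂ} {τ : ℝ} {y z w : ℤ × ℤ} (D a b : ℤ) (hD : 0 < D) (ha : 0 ≤ a)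
    (hb : 0 ≤ b) (hab : 0 < a + b) (h1 : D * y.1 = a * z.1 + b * w.1)
    (h2 : D * y.2 = a * z.2 + b * w.2) (hz : Cone β τ z) (hw : Cone β τ w) : Cone β τ y := by
  obtain ⟨hz1, hz2⟩ := hz
  obtain ⟨hw1, hw2⟩ := hw
  have h1' : (D : ℝ) * y.1 = a * z.1 + b * w.1 := by exact_mod_cast h1
  have h2' : (D : ℝ) * y.2 = a * z.2 + b * w.2 := by exact_mod_cast h2
  have hD' : (0 : ℝ) < D := by exact_mod_cast hD
  have ha' : (0 : ℝ) ≤ a := by exact_mod_cast ha
  have hb' : (0 : ℝ) ≤ b := by exact_mod_cast hb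
  have hab' : (0 : ℝ) < a + b := by exact_mod_cast hab
  have hre : (D : ℝ) * (cr β y).re = a * (cr β z).re + b * (cr β w).re := by
    simp only [cr_re]
    linear_combination β.re * h1' + β.im * h2'
  have him : (D : ℝ) * (cr β y).im = a * (cr β z).im + b * (cr β w).im := by
    simp only [cr_im]
    linear_combination β.re * h2' - β.im * h1'
  have hpos : 0 < (a : ℝ) * (cr β z).re + b * (cr β w).re := by
    rcases ha'.lt_or_eq with h | h
    · have := mul_pos h hz1
      have := mul_nonneg hb' hw1.le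
      linarith
    · have hb2 : (0 : ℝ) < b := by linarith
      have := mul_pos hb2 hw1
      have := mul_nonneg ha' hz1.le
      linarith
  constructor
  · rw [← hre] at hpos
    exact (mul_pos_iff_of_pos_left hD').mp hpos
  · have hz3 := abs_le.mp hz2
    have hw3 := abs_le.mp hw2
    have e1 : |(D : ℝ) * (cr β y).im| ≤ τ * (D * (cr β y).re) := by
      rw [him, hre, abs_le]
      constructor
      · nlinarith [mul_le_mul_of_nonneg_left hz3.1 ha', mul_le_mul_of_nonneg_left hw3.1 hb']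
      · nlinarith [mul_le_mul_of_nonneg_left hz3.2 ha', mul_le_mul_of_nonneg_left hw3.2 hb']
    rw [abs_mul, abs_of_pos hD'] at e1
    have e2 : (D : ℝ) * |(cr β y).im| ≤ D * (τ * (cr β y).re) := by linarith
    exact le_of_mul_le_mul_left e2 hD'

lemma two_dp_le (z w : ℤ × ℤ) : 2 * dp z w ≤ Nm z + Nm w := by
  simp only [dp, Nm]
  nlinarith [sq_nonneg (z.1 - w.1), sq_nonneg (z.2 - w.2)]

lemma Nm_nonneg (z : ℤ × ℤ) : 0 ≤ Nm z := by simp only [Nm]; positivity

/-- convexity of the norm -/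
lemma norm_comb {X : ℤ} {y z w : ℤ × ℤ} (D a b : ℤ) (hD : 0 < D) (ha : 0 ≤ a)
    (hb : 0 ≤ b) (hab : a + b ≤ D) (h1 : D * y.1 = a * z.1 + b * w.1)
    (h2 : D * y.2 = a * z.2 + b * w.2) (hz : Nm z ≤ X) (hw : Nm w ≤ X) : Nm y ≤ X := by
  have hX : 0 ≤ X := (Nm_nonneg z).trans hz
  have e1 : D ^ 2 * Nm y = a ^ 2 * Nm z + a * b * (2 * dp z w) + b ^ 2 * Nm w := by
    have : D ^ 2 * Nm y = (D * y.1) ^ 2 + (D * y.2) ^ 2 := by simp only [Nm]; ring
    rw [this, h1, h2]
    simp only [Nm, dp]; ring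
  have e2 : a * b * (2 * dp z w) ≤ a * b * (2 * X) :=
    mul_le_mul_of_nonneg_left (by linarith [two_dp_le z w]) (mul_nonneg ha hb)
  have e3 : a ^ 2 * Nm z ≤ a ^ 2 * X := mul_le_mul_of_nonneg_left hz (sq_nonneg a)
  have e4 : b ^ 2 * Nm w ≤ b ^ 2 * X := mul_le_mul_of_nonneg_left hw (sq_nonneg b)
  have e5 : (a + b) ^ 2 ≤ D ^ 2 := pow_le_pow_left₀ (by linarith) hab 2
  have e6 : (a + b) ^ 2 * X ≤ D ^ 2 * X := mul_le_mul_of_nonneg_right e5 hX
  have e7 : D ^ 2 * Nm y ≤ D ^ 2 * X := by nlinarith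
  exact le_of_mul_le_mul_left e7 (by positivity)

lemma odd_Nm_iff (z : ℤ × ℤ) : Odd (Nm z) ↔ Odd (z.1 + z.2) := by
  simp only [Nm, Int.odd_add, Int.odd_pow, Int.even_pow]
  simp

section
variable {F : ℤ × ℤ → ℤ} (hF : SignFn F)
include hF

lemma F_smul (g : ℤ) (hg : Odd g) {z : ℤ × ℤ} (hz : Odd (Nm z)) :
    F (g * z.1, g * z.2) = F z := by
  have h1 : mu (g, 0) z = (g * z.1, g * z.2) := by simp [mu]
  have h2 : Odd (Nm (g, 0)) := by simpa [Nm] using hg.pow
  rw [← h1, hF.mul _ _ h2 hz, hF.int g hg, one_mul]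

lemma F_neg {z : ℤ × ℤ} (hz : Odd (Nm z)) : F (-z) = F z := by
  have := F_smul hF (-1) (by decide) hz
  have e : ((-1) * z.1, (-1) * z.2) = -z := by ext <;> simp
  rwa [e] at this

end

/-- parallel primitive vectors -/
lemma prim_par {p q : ℤ × ℤ} (hp : IsCoprime p.1 p.2) (hq : IsCoprime q.1 q.2)
    (h : dt p q = 0) : p = q ∨ p = -q := by
  simp only [dt] at h
  obtain ⟨s, t, hst⟩ := hq
  obtain ⟨s', t', hst'⟩ := hp
  -- p = m q with m = s p.1 + t p.2
  have e1 : p.1 = (s * p.1 + t * p.2) * q.1 := by linear_combination (-p.1) * hst + t * h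
  have e2 : p.2 = (s * p.1 + t * p.2) * q.2 := by linear_combination (-p.2) * hst - s * h
  obtain ⟨m, hm⟩ : ∃ m, m = s * p.1 + t * p.2 := ⟨_, rfl⟩
  rw [← hm] at e1 e2
  have e3 : m * (s' * q.1 + t' * q.2) = 1 := by
    linear_combination hst' - s' * e1 - t' * e2
  rcases Int.eq_one_or_neg_one_of_mul_eq_one e3 with h1 | h1
  · left
    ext
    · rw [e1, h1]; ring
    · rw [e2, h1]; ring
  · right
    ext
    · rw [e1, h1]; simp
    · rw [e2, h1]; simp

lemma cone_neg {β : ℂ} {τ : ℝ} {p : ℤ × ℤ} (h : Cone β τ p) (h' : Cone β τ (-p)) : False := by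
  have h1 := h.1
  have h2 := h'.1
  rw [cr_re] at h1 h2
  simp only [Prod.fst_neg, Prod.snd_neg, Int.cast_neg] at h2
  linarith

/-- reduction to primitive vectors -/
lemma to_prim {F : ℤ × ℤ → ℤ} (hF : SignFn F) {X : ℤ} {β : ℂ} {τ : ℝ} {z : ℤ × ℤ}
    (hz : Cone β τ z) (hoz : Odd (Nm z)) (hzX : Nm z ≤ X) :
    ∃ z' : ℤ × ℤ, IsCoprime z'.1 z'.2 ∧ Cone β τ z' ∧ Odd (Nm z') ∧ Nm z' ≤ X ∧ F z' = F z := by
  have hne : z.1 ≠ 0 ∨ z.2 ≠ 0 := by
    by_contra h
    push Not at h
    simp [Nm, h.1, h.2] at hoz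
  have hg : 0 < Int.gcd z.1 z.2 := by
    rcases hne with h | h
    · exact Int.gcd_pos_of_ne_zero_left _ h
    · exact Int.gcd_pos_of_ne_zero_right _ h
  obtain ⟨a, b, hab, ha, hb⟩ := Int.exists_gcd_one hg
  set g : ℤ := (Int.gcd z.1 z.2 : ℤ) with hgdef
  have hg0 : 0 < g := by rw [hgdef]; exact_mod_cast hg
  have hN : Nm z = g ^ 2 * Nm (a, b) := by
    simp only [Nm]; rw [ha, hb]; ring
  have hodd : Odd (g ^ 2) ∧ Odd (Nm (a, b)) := by
    rw [hN] at hoz
    exact Int.odd_mul.mp hoz
  have hgodd : Odd g := by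
    by_contra hc
    rw [Int.not_odd_iff_even] at hc
    exact (Int.not_even_iff_odd.mpr hodd.1) (hc.pow_of_ne_zero (by norm_num))
  refine ⟨(a, b), Int.isCoprime_iff_gcd_eq_one.mpr hab, ?_, hodd.2, ?_, ?_⟩
  · exact cone_comb (y := (a, b)) (z := z) (w := z) g 1 0 hg0 (by norm_num) (by norm_num)
      (by norm_num) (by simp only; rw [ha]; ring) (by simp only; rw [hb]; ring) hz hz
  · have h1 : 1 ≤ g ^ 2 := by nlinarith
    have h2 := Nm_nonneg (a, b)
    nlinarith
  · have := F_smul hF g hgodd hodd.2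
    rw [← this]
    congr 1
    ext
    · simp only; rw [ha]; ring
    · simp only; rw [hb]; ring

/-- a sign change along an arithmetic progression -/
lemma exists_change {F : ℤ × ℤ → ℤ} (e : ℕ → ℤ × ℤ) (k : ℕ) (h : F (e 0) ≠ F (e k)) :
    ∃ j < k, F (e j) ≠ F (e (j + 1)) := by
  by_contra hc
  push Not at hc
  apply h
  have : ∀ i ≤ k, F (e 0) = F (e i) := by
    intro i
    induction i with
    | zero => intro _; rfl
    | succ i ih => intro hi; rw [ih (by omega), hc i (by omega)]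
  exact this k le_rfl

/-- the main induction -/
lemma main {F : ℤ × ℤ → ℤ} (hF : SignFn F) (X : ℤ) (β : ℂ) (τ : ℝ) (n : ℕ) :
    ∀ z w : ℤ × ℤ, IsCoprime z.1 z.2 → IsCoprime w.1 w.2 → Cone β τ z → Cone β τ w →
    Odd (Nm z) → Odd (Nm w) → Nm z ≤ X → Nm w ≤ X → F z ≠ F w → dt z w = n → 0 < n →
    ∃ p q : ℤ × ℤ, IsOpp F X p q ∧
      (Cone β τ p ∨ Cone β τ q ∨ Cone β τ (p - q) ∨ Cone β τ (q - p)) := by
  induction n using Nat.strong_induction_on with
  | _ n ih =>
  intro z w hpz hpw hz hw hoz how hzX hwX hne hdt hn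
  rcases Nat.lt_or_ge 1 n with hn2 | hn1
  swap
  · have : n = 1 := by omega
    subst this
    exact ⟨z, w, ⟨by simpa using hdt, hzX, hwX, hoz, how, hne⟩, Or.inl hz⟩
  -- the integer D
  set D : ℤ := (n : ℤ) with hDdef
  have hD : 1 < D := by rw [hDdef]; exact_mod_cast hn2
  obtain ⟨s, t, hst⟩ := hpz
  -- u = (-t, s)
  set c : ℤ := w.1 * s + w.2 * t with hc
  have hw1 : w.1 = c * z.1 - D * t := by
    rw [hc]
    simp only [dt] at hdt
    linear_combination (-w.1) * hst - t * hdt
  have hw2 : w.2 = c * z.2 + D * s := by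
    rw [hc]
    simp only [dt] at hdt
    linear_combination (-w.2) * hst + s * hdt
  set a : ℤ := (-c) % D with ha
  have ha0 : 0 ≤ a := Int.emod_nonneg _ (by omega)
  have haD : a < D := Int.emod_lt_of_pos _ (by omega)
  have hdiv : D ∣ a + c := by
    have : a + c = D * (-((-c) / D)) := by
      have := Int.emod_add_mul_ediv (-c) D
      rw [ha]; linarith
    exact ⟨_, this⟩
  obtain ⟨k, hk⟩ := hdiv
  set y : ℤ × ℤ := (-t + k * z.1, s + k * z.2) with hy
  have hDy1 : D * y.1 = a * z.1 + 1 * w.1 := by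
    rw [hy, hw1]; simp only; linear_combination (-z.1) * hk
  have hDy2 : D * y.2 = a * z.2 + 1 * w.2 := by
    rw [hy, hw2]; simp only; linear_combination (-z.2) * hk
  have hzy : dt z y = 1 := by
    rw [hy]; simp only [dt]; linear_combination hst
  have ha1 : 1 ≤ a := by
    by_contra hcon
    have ha00 : a = 0 := by omega
    rw [ha00] at hDy1 hDy2
    obtain ⟨s2, t2, hst2⟩ := hpw
    have : D * (s2 * y.1 + t2 * y.2) = 1 := by
      rw [← hst2]; linear_combination s2 * hDy1 + t2 * hDy2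
    rcases Int.eq_one_or_neg_one_of_mul_eq_one this with h | h <;> omega
  have hycone : Cone β τ y := cone_comb D a 1 (by omega) ha0 (by norm_num) (by omega) hDy1 hDy2 hz hw
  have hyX : Nm y ≤ X := norm_comb D a 1 (by omega) ha0 (by norm_num) (by omega) hDy1 hDy2 hzX hwX
  have hyw : dt y w = a := by
    have : D * dt y w = D * a := by
      simp only [dt] at hdt ⊢
      linear_combination w.2 * hDy1 - w.1 * hDy2 + a * hdt
    exact mul_left_cancel₀ (by omega) this
  have hpy : IsCoprime y.1 y.2 := by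
    refine ⟨-z.2, z.1, ?_⟩
    simp only [dt] at hzy
    linear_combination hzy
  by_cases hoy : Odd (Nm y)
  · by_cases hFy : F y = F z
    · -- recursion with (y, w)
      have hlt : a.toNat < n := by omega
      exact ih a.toNat hlt y w hpy hpw hycone hw hoy how hyX hwX
        (by rw [hFy]; exact hne) (by rw [hyw]; omega) (by omega)
    · exact ⟨z, y, ⟨hzy, hzX, hyX, hoz, hoy, fun h => hFy h.symm⟩, Or.inl hz⟩
  · -- y has even norm
    obtain ⟨K, hK1, hK2⟩ : ∃ K : ℤ, D ≤ K * a ∧ K * a ≤ D + a - 1 := by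
      refine ⟨(D + a - 1) / a, ?_, ?_⟩
      · have h1 := Int.emod_add_mul_ediv (D + a - 1) a
        have h2 := Int.emod_lt_of_pos (D + a - 1) (by omega : 0 < a)
        nlinarith
      · exact Int.ediv_mul_le _ (by omega)
    have hKpos : 0 < K := by
      by_contra h
      push Not at h
      nlinarith
    set r : ℤ := K * a - D with hr
    have hr0 : 0 ≤ r := by omega
    have hra : r < a := by omega
    have hrK : r + K ≤ D := by
      have e1 : a * (K * (a + 1)) ≤ a * (2 * D) := by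
        have f1 : (K * a) * (a + 1) ≤ (D + a - 1) * (a + 1) :=
          mul_le_mul_of_nonneg_right hK2 (by omega)
        have f2 : 0 ≤ (a - 1) * (D - a - 1) := mul_nonneg (by omega) (by omega)
        nlinarith
      have e2 : K * (a + 1) ≤ 2 * D := le_of_mul_le_mul_left e1 (by omega)
      rw [hr]; linarith
    set y' : ℤ × ℤ := (K * y.1 - z.1, K * y.2 - z.2) with hy'
    have hDy'1 : D * y'.1 = r * z.1 + K * w.1 := by
      rw [hy', hr]; simp only; linear_combination K * hDy1
    have hDy'2 : D * y'.2 = r * z.2 + K * w.2 := by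
      rw [hy', hr]; simp only; linear_combination K * hDy2
    have hy'cone : Cone β τ y' :=
      cone_comb D r K (by omega) hr0 hKpos.le (by omega) hDy'1 hDy'2 hz hw
    have hy'X : Nm y' ≤ X :=
      norm_comb D r K (by omega) hr0 hKpos.le hrK hDy'1 hDy'2 hzX hwX
    have hyy' : dt y y' = 1 := by
      rw [hy']; simp only [dt] at hzy ⊢; linear_combination hzy
    have hpy' : IsCoprime y'.1 y'.2 := by
      refine ⟨-y.2, y.1, ?_⟩
      simp only [dt] at hyy'
      linear_combination hyy'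
    have hy'w : dt y' w = r := by
      have : D * dt y' w = D * r := by
        simp only [dt] at hdt ⊢
        linear_combination w.2 * hDy'1 - w.1 * hDy'2 + r * hdt
      exact mul_left_cancel₀ (by omega) this
    have hey : Even (y.1 + y.2) := by
      rw [← Int.not_odd_iff_even, ← odd_Nm_iff]; exact hoy
    have hoz' : Odd (z.1 + z.2) := (odd_Nm_iff z).mp hoz
    have hoy' : Odd (Nm y') := by
      rw [odd_Nm_iff, hy']
      have : K * y.1 - z.1 + (K * y.2 - z.2) = K * (y.1 + y.2) - (z.1 + z.2) := by ring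
      simp only [this]
      exact (hey.mul_left K).sub_odd hoz'
    by_cases hFy' : F y' = F z
    · have hne' : F y' ≠ F w := by rw [hFy']; exact hne
      rcases hr0.lt_or_eq with hrpos | hr00
      · have hlt : r.toNat < n := by omega
        exact ih r.toNat hlt y' w hpy' hpw hy'cone hw hoy' how hy'X hwX hne'
          (by rw [hy'w]; omega) (by omega)
      · exfalso
        rcases prim_par hpy' hpw (by rw [hy'w, ← hr00]) with h | h
        · exact hne' (by rw [h])
        · rw [h] at hy'cone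
          exact cone_neg hw hy'cone
    · -- sign change along z - j y
      have hKn : ((K.toNat : ℕ) : ℤ) = K := Int.toNat_of_nonneg hKpos.le
      set e : ℕ → ℤ × ℤ := fun j => (z.1 - j * y.1, z.2 - j * y.2) with he
      have he0 : e 0 = z := by rw [he]; ext <;> simp
      have hek : e K.toNat = -y' := by
        rw [he, hy']
        ext
        · simp only [Prod.fst_neg]; rw [hKn]; ring
        · simp only [Prod.snd_neg]; rw [hKn]; ring
      have hchange : F (e 0) ≠ F (e K.toNat) := by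
        rw [he0, hek, F_neg hF hoy']
        exact fun h => hFy' h.symm
      obtain ⟨j, hj, hFj⟩ := exists_change (F := F) e K.toNat hchange
      have hodd : ∀ i : ℕ, Odd (Nm (e i)) := by
        intro i
        rw [odd_Nm_iff, he]
        have : z.1 - i * y.1 + (z.2 - i * y.2) = (z.1 + z.2) - i * (y.1 + y.2) := by ring
        simp only [this]
        exact hoz'.sub_even (hey.mul_left _)
      have hnorm : ∀ i : ℕ, i ≤ K.toNat → Nm (e i) ≤ X := by
        intro i hi
        have hi' : (i : ℤ) ≤ K := by rw [← hKn]; exact_mod_cast hi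
        refine norm_comb (z := z) (w := -y') K (K - i) i hKpos (by omega) (by omega) (by omega)
          ?_ ?_ hzX ?_
        · rw [he, hy']; simp only [Prod.fst_neg]; ring
        · rw [he, hy']; simp only [Prod.snd_neg]; ring
        · have : Nm (-y') = Nm y' := by simp [Nm]
          rw [this]; exact hy'X
      refine ⟨e (j + 1), e j, ⟨?_, hnorm _ (by omega), hnorm _ (by omega), hodd _, hodd _,
        fun h => hFj h.symm⟩, Or.inr (Or.inr (Or.inr ?_))⟩
      · rw [he]; simp only [dt] at hzy ⊢; push_cast; linear_combination hzy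
      · have : e j - e (j + 1) = y := by
          rw [he]
          ext
          · simp only [Prod.fst_sub]; push_cast; ring
          · simp only [Prod.snd_sub]; push_cast; ring
        rw [this]; exact hycone

end DescentAux

open DescentAux in
theorem descent (F : ℤ × ℤ → ℤ) (hF : SignFn F) (X : ℤ) (β : ℂ) (τ : ℝ) (z w : ℤ × ℤ)
    (hz : Cone β τ z) (hw : Cone β τ w) (hoz : Odd (Nm z)) (how : Odd (Nm w))
    (hzX : Nm z ≤ X) (hwX : Nm w ≤ X) (hne : F z ≠ F w) :
    ∃ p q : ℤ × ℤ, IsOpp F X p q ∧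
      (Cone β τ p ∨ Cone β τ q ∨ Cone β τ (p - q) ∨ Cone β τ (q - p)) := by
  obtain ⟨z', hpz, hcz, hoz', hzX', hFz⟩ := to_prim hF hz hoz hzX
  obtain ⟨w', hpw, hcw, how', hwX', hFw⟩ := to_prim hF hw how hwX
  have hne' : F z' ≠ F w' := by rw [hFz, hFw]; exact hne
  rcases lt_trichotomy (dt z' w') 0 with h | h | h
  · have hsw : dt w' z' = ((-(dt z' w')).toNat : ℕ) := by
      rw [Int.toNat_of_nonneg (by omega)]
      simp only [dt]; ring
    exact main hF X β τ _ w' z' hpw hpz hcw hcz how' hoz' hwX' hzX' (fun h => hne' h.symm)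
      hsw (by omega)
  · exfalso
    rcases prim_par hpz hpw h with h1 | h1
    · exact hne' (by rw [h1])
    · rw [h1] at hcz
      exact cone_neg hcw hcz
  · exact main hF X β τ (dt z' w').toNat z' w' hpz hpw hcz hcw hoz' how' hzX' hwX' hne'
      (by rw [Int.toNat_of_nonneg (by omega)]) (by omega)

end Pool.Agent.ParityQuad
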