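import Pool.Agent.Lib_MP_f1a94e_nt.Diff

/-!
# Explicit bounds for the iterated differences of `arctan (1 / t)`, uniform in the order
-/

set_option autoImplicit false

namespace Pool.Agent.ParityQuad

open Filter Topology

lemma diff_im_explicit (x : ℝ) (hx : 0 ≤ x) (m : ℕ) (hm : (m : ℝ) * x ≤ 1 / 2) :
    3 / 4 ≤ ((1 + (x : ℂ) * Complex.I) ^ m).re ∧ ((1 + (x : ℂ) * Complex.I) ^ m).re ≤ 1 ∧
    3 / 4 * (m * x) ≤ ((1 + (x : ℂ) * Complex.I) ^ m).im ∧
    ((1 + (x : ℂ) * Complex.I) ^ m).im ≤ m * x := by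
  have key : ∀ m : ℕ, (m : ℝ) * x ≤ 1 / 2 →
      1 - (m * x) ^ 2 ≤ ((1 + (x : ℂ) * Complex.I) ^ m).re ∧
      ((1 + (x : ℂ) * Complex.I) ^ m).re ≤ 1 ∧
      3 / 4 * (m * x) ≤ ((1 + (x : ℂ) * Complex.I) ^ m).im ∧
      ((1 + (x : ℂ) * Complex.I) ^ m).im ≤ m * x := by
    intro m
    induction m with
    | zero => intro _; simp
    | succ m ih =>
      intro hm
      push_cast at hm
      have hmx : (m : ℝ) * x ≤ 1 / 2 := by nlinarith
      have hm0 : 0 ≤ (m : ℝ) * x := by positivity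
      obtain ⟨h1, h2, h3, h4⟩ := ih hmx
      have e1 : ((1 + (x : ℂ) * Complex.I) ^ (m + 1)).re =
          ((1 + (x : ℂ) * Complex.I) ^ m).re - x * ((1 + (x : ℂ) * Complex.I) ^ m).im := by
        rw [pow_succ, Complex.mul_re]
        simp
        ring
      have e2 : ((1 + (x : ℂ) * Complex.I) ^ (m + 1)).im =
          ((1 + (x : ℂ) * Complex.I) ^ m).im + x * ((1 + (x : ℂ) * Complex.I) ^ m).re := by
        rw [pow_succ, Complex.mul_im]
        simp
        ring
      rw [e1, e2]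
      set a := ((1 + (x : ℂ) * Complex.I) ^ m).re
      set b := ((1 + (x : ℂ) * Complex.I) ^ m).im
      have hb : 0 ≤ b := le_trans (by positivity) h3
      have ha : 3 / 4 ≤ a := by nlinarith
      push_cast
      refine ⟨?_, ?_, ?_, ?_⟩
      · nlinarith [mul_le_mul_of_nonneg_right h4 hx, mul_nonneg hx hx]
      · nlinarith [mul_nonneg hb hx]
      · nlinarith [mul_le_mul_of_nonneg_right ha hx]
      · nlinarith [mul_le_mul_of_nonneg_right h2 hx]
  obtain ⟨h1, h2, h3, h4⟩ := key m hm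
  refine ⟨?_, h2, h3, h4⟩
  have hm0 : 0 ≤ (m : ℝ) * x := by positivity
  nlinarith

lemma arctan_explicit (x : ℝ) (hx : 0 ≤ x) (hx1 : x ≤ 1) :
    x / 4 ≤ Real.arctan x ∧ Real.arctan x ≤ x := by
  have h0 : 0 ≤ Real.arctan x := Real.arctan_nonneg.2 hx
  have h1 : Real.arctan x ≤ x := by
    have h := Real.le_tan h0 (Real.arctan_lt_pi_div_two x)
    rwa [Real.tan_arctan] at h
  refine ⟨?_, h1⟩
  have h2 : Real.arctan x ≤ Real.pi / 4 := by
    rw [← Real.arctan_one]; exact Real.arctan_mono hx1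
  have hcos : 1 / 2 ≤ Real.cos (Real.arctan x) := by
    have : Real.cos (Real.pi / 3) ≤ Real.cos (Real.arctan x) := by
      apply Real.cos_le_cos_of_nonneg_of_le_pi h0
      · linarith [Real.pi_pos]
      · linarith [Real.pi_pos]
    rwa [Real.cos_pi_div_three] at this
  have hsin : Real.sin (Real.arctan x) ≤ Real.arctan x := Real.sin_le h0
  have ht : Real.tan (Real.arctan x) = x := Real.tan_arctan x
  rw [Real.tan_eq_sin_div_cos, div_eq_iff (by linarith)] at ht
  nlinarith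

/-- explicit bounds -/
theorem diff_bounds_explicit (j : ℕ) (t : ℝ) (ht : 2 * ((j : ℝ) + 1) ≤ t) :
    ((j.factorial : ℝ) / 2 ^ (j + 3)) / t ^ (j + 1) ≤
      (dd^[j] (fun s : ℝ => Real.arctan (1 / s))) t ∧
    (dd^[j] (fun s : ℝ => Real.arctan (1 / s))) t ≤ (2 ^ (j + 1) * (j.factorial : ℝ)) / t ^ (j + 1) := by
  have ht0 : 0 < t := by
    have : (0 : ℝ) ≤ j := Nat.cast_nonneg j
    linarith
  cases j with
  | zero =>
    simp only [Nat.cast_zero, zero_add, mul_one] at ht
    have h1 := arctan_explicit (1 / t) (by positivity) (by rw [div_le_one ht0]; linarith)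
    simp only [Function.iterate_zero, id, zero_add, pow_one, Nat.factorial_zero, Nat.cast_one]
    constructor
    · calc (1 : ℝ) / 2 ^ 3 / t ≤ 1 / t / 4 := by
            rw [div_div, div_div]
            apply one_div_le_one_div_of_le (by positivity)
            nlinarith
        _ ≤ _ := h1.1
    · calc _ ≤ 1 / t := h1.2
        _ ≤ 2 * 1 / t := by gcongr; norm_num
  | succ j =>
    push_cast at ht
    set f : ℝ := (j.factorial : ℝ) with hf
    have hf0 : 0 < f := by rw [hf]; exact_mod_cast Nat.factorial_pos j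
    have ht2 : 2 * ((j : ℝ) + 1) ≤ t := by linarith
    have hj0 : (0 : ℝ) ≤ j := Nat.cast_nonneg j
    obtain ⟨ξ, h1, h2, h3⟩ := diff_chain (j + 1) diffG diffG_deriv 0 t ht0
    have hξ : 0 < ξ := by linarith
    have hξ1 : 1 ≤ ξ := by linarith
    have h2' : ξ ≤ 2 * t := by push_cast at h2; linarith
    have e : (fun s : ℝ => Real.arctan (1 / s)) = diffG 0 := rfl
    rw [e, h3, zero_add, diffG_val j ξ hξ, ← hf]
    obtain ⟨-, -, h4, h5⟩ := diff_im_explicit (1 / ξ) (by positivity) (j + 1) (by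
      push_cast
      rw [mul_one_div, div_le_iff₀ hξ]
      linarith)
    set y := ((1 + ((1 / ξ : ℝ) : ℂ) * Complex.I) ^ (j + 1)).im with hy
    push_cast at h4 h5
    have hy0 : 0 < y := lt_of_lt_of_le (by positivity) h4
    have hsq : (ξ ^ 2 + 1) ≤ 2 * ξ ^ 2 := by nlinarith
    have hfac : (((j + 1).factorial : ℕ) : ℝ) = ((j : ℝ) + 1) * f := by
      rw [Nat.factorial_succ, hf]; push_cast; ring
    rw [hfac]
    constructor
    · calc (((j : ℝ) + 1) * f / 2 ^ (j + 1 + 3)) / t ^ (j + 1 + 1)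
          = ((j : ℝ) + 1) * f / 4 / (2 * t) ^ (j + 2) := by
            rw [mul_pow]
            have : j + 1 + 1 = j + 2 := rfl
            rw [this]
            have e3 : (2 : ℝ) ^ (j + 1 + 3) = 4 * 2 ^ (j + 2) := by ring
            rw [e3]
            field_simp
        _ ≤ ((j : ℝ) + 1) * f / 4 / ξ ^ (j + 2) := by gcongr
        _ ≤ 3 / 4 * (((j : ℝ) + 1) * f) / ξ ^ (j + 2) := by
            gcongr
            nlinarith [mul_pos (by linarith : (0:ℝ) < (j : ℝ) + 1) hf0]
        _ = 2 ^ (j + 1) * f * (3 / 4 * (((j : ℝ) + 1) * (1 / ξ))) * ξ ^ (j + 1) /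
              (2 * ξ ^ 2) ^ (j + 1) := by
            rw [mul_pow, ← pow_mul]
            have e2 : ξ ^ (2 * (j + 1)) = ξ ^ (j + 2) * ξ ^ j := by rw [← pow_add]; congr 1; ring
            have e3 : ξ ^ (j + 1) = ξ * ξ ^ j := by ring
            rw [e2, e3]
            have : ξ ^ j ≠ 0 := by positivity
            field_simp
        _ ≤ 2 ^ (j + 1) * f * y * ξ ^ (j + 1) / (2 * ξ ^ 2) ^ (j + 1) := by
            gcongr
        _ ≤ 2 ^ (j + 1) * f * y * ξ ^ (j + 1) / (ξ ^ 2 + 1) ^ (j + 1) := by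
            gcongr
    · calc 2 ^ (j + 1) * f * y * ξ ^ (j + 1) / (ξ ^ 2 + 1) ^ (j + 1) ≤
          2 ^ (j + 1) * f * y * ξ ^ (j + 1) / (ξ ^ 2) ^ (j + 1) := by
            gcongr
            linarith
        _ ≤ 2 ^ (j + 1) * f * (((j : ℝ) + 1) * (1 / ξ)) * ξ ^ (j + 1) / (ξ ^ 2) ^ (j + 1) := by
            gcongr
        _ = 2 ^ (j + 1) * (((j : ℝ) + 1) * f) / ξ ^ (j + 2) := by
            rw [← pow_mul]
            have e2 : ξ ^ (2 * (j + 1)) = ξ ^ (j + 2) * ξ ^ j := by rw [← pow_add]; congr 1; ring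
            have e3 : ξ ^ (j + 1) = ξ * ξ ^ j := by ring
            rw [e2, e3]
            have : ξ ^ j ≠ 0 := by positivity
            field_simp
        _ ≤ 2 ^ (j + 1) * (((j : ℝ) + 1) * f) / t ^ (j + 2) := by gcongr
        _ ≤ 2 ^ (j + 1 + 1) * (((j : ℝ) + 1) * f) / t ^ (j + 1 + 1) := by
            have : j + 1 + 1 = j + 2 := rfl
            rw [this]
            gcongr
            · norm_num
            · omega

end Pool.Agent.ParityQuad
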