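import Pool.Agent.Lib_MP_f1a94e_nt.Chain
import Pool.Agent.Lib_MP_db34dc_nt.Basic

/-!
Choice of parameters and the final theorem.
-/

set_option autoImplicit false

namespace Pool.Agent.ParityQuad

open Filter

/-! ### Many opposite pairs -/

theorem opp_large (F : ℤ × ℤ → ℤ) (hF : SignFn F) (z0 : ℤ × ℤ) (h0 : Odd (Nm z0))
    (hz0 : F z0 = -1) (ε : ℝ) (hε : 0 < ε) :
    ∀ᶠ x : ℕ in atTop, (x : ℝ) ^ (1 - ε) ≤ (Opp F (x : ℤ)).card := by
  obtain ⟨K, hK⟩ := exists_nat_ge (max 4 (6 / ε))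
  have hK4 : (4 : ℝ) ≤ K := (le_max_left _ _).trans hK
  have hK4' : 4 ≤ K := by exact_mod_cast hK4
  have hKε : 6 ≤ ((K : ℝ) + 2) * ε := by
    have : 6 / ε ≤ K := (le_max_right _ _).trans hK
    rw [div_le_iff₀ hε] at this
    nlinarith only [this, hε]
  obtain ⟨C, hC1, U0, hlist⟩ := exists_list F hF z0 h0 hz0 K
  -- the threshold for y = x^(1/(K+2))
  set Y0 : ℝ := max (max (U0 : ℝ) (10 ^ 16 * C ^ 3)) 1 with hY0
  have htend : Tendsto (fun x : ℕ => (x : ℝ) ^ (1 / ((K : ℝ) + 2))) atTop atTop :=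
    (tendsto_rpow_atTop (by positivity)).comp tendsto_natCast_atTop_atTop
  filter_upwards [htend.eventually_ge_atTop Y0, eventually_ge_atTop 1] with x hxY hx1
  set y : ℝ := (x : ℝ) ^ (1 / ((K : ℝ) + 2)) with hy
  have hy1 : 1 ≤ y := (le_max_right _ _).trans hxY
  have hyU0 : (U0 : ℝ) ≤ y := ((le_max_left _ _).trans (le_max_left _ _)).trans hxY
  have hyC : 10 ^ 16 * C ^ 3 ≤ y := ((le_max_right _ _).trans (le_max_left _ _)).trans hxY
  have hC3 : 1 ≤ C ^ 3 := one_le_pow₀ hC1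
  have hC2 : C ^ 2 ≤ C ^ 3 := pow_le_pow_right₀ hC1 (by norm_num)
  have hCC : C ≤ C ^ 3 := by
    calc C = C ^ 1 := (pow_one C).symm
      _ ≤ C ^ 3 := pow_le_pow_right₀ hC1 (by norm_num)
  have hy0 : 0 < y := by linarith
  have hxpow : y ^ (K + 2) = x := by
    rw [hy, ← Real.rpow_natCast, ← Real.rpow_mul (by positivity)]
    push_cast
    rw [one_div, inv_mul_cancel₀ (by positivity), Real.rpow_one]
  -- U
  set U : ℕ := ⌈y⌉₊ with hU
  have hyU : y ≤ U := Nat.le_ceil y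
  have hU2 : (U : ℝ) ≤ 2 * y := by
    have := Nat.ceil_lt_add_one hy0.le
    linarith
  have hU0 : 0 < (U : ℝ) := hy0.trans_le hyU
  have hUU0 : U0 ≤ U := by
    have : (U0 : ℝ) ≤ U := hyU0.trans hyU
    exact_mod_cast this
  obtain ⟨l, hl, hprod, hlen, δ, hδ, hdir⟩ := hlist U hUU0
  have hk : (l.length : ℝ) + 1 ≤ 4 * C * y := by
    have : C * U ≤ C * (2 * y) := mul_le_mul_of_nonneg_left hU2 (by linarith)
    have h1 : 1 ≤ C * y := one_le_mul_of_one_le_of_one_le hC1 hy1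
    linarith
  set k1 : ℝ := (l.length : ℝ) + 1 with hk1
  have hk10 : 1 ≤ k1 := by
    have : (0 : ℝ) ≤ l.length := Nat.cast_nonneg _
    linarith
  -- Q
  set w : ℝ := Real.sqrt (x / 160) / U with hw
  have hw2 : w ^ 2 = x / (160 * (U : ℝ) ^ 2) := by
    rw [hw, div_pow, Real.sq_sqrt (by positivity), div_div]
  have hyK : y ^ (K + 2) = y ^ K * y ^ 2 := pow_add _ _ _
  have hyK0 : 0 < y ^ K := by positivity
  have hw2' : y ^ K / 640 ≤ w ^ 2 := by
    rw [hw2, ← hxpow, hyK, div_le_div_iff₀ (by norm_num) (by positivity)]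
    have : (U : ℝ) ^ 2 ≤ (2 * y) ^ 2 := pow_le_pow_left₀ hU0.le hU2 2
    have h1 := mul_le_mul_of_nonneg_left this (by positivity : (0 : ℝ) ≤ 160 * y ^ K)
    linarith only [h1]
  have hyK4 : y ^ 4 ≤ y ^ K := pow_le_pow_right₀ hy1 hK4'
  have hybig : (10 : ℝ) ^ 16 ≤ y := by linarith only [hyC, hC3]
  have hw0 : 0 ≤ w := by positivity
  have hwbig : 2 ≤ w := by
    have h1 : y ≤ y ^ 4 := by
      calc y = y ^ 1 := (pow_one y).symm
        _ ≤ y ^ 4 := pow_le_pow_right₀ hy1 (by norm_num)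
    have h2 : 4 ≤ w ^ 2 := by
      refine le_trans ?_ hw2'
      rw [le_div_iff₀ (by norm_num)]
      linarith
    nlinarith only [h2, hw0]
  set Q : ℕ := ⌊w⌋₊ with hQdef
  have hQw : (Q : ℝ) ≤ w := Nat.floor_le hw0
  have hwQ : w / 2 ≤ Q := by
    have := Nat.sub_one_lt_floor w
    linarith
  have hQ1r : (1 : ℝ) ≤ Q := by linarith
  have hQ1 : 1 ≤ Q := by exact_mod_cast hQ1r
  have hQ0 : (0 : ℝ) < Q := by linarith
  have hQ2 : y ^ K / 2560 ≤ (Q : ℝ) ^ 2 := by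
    have : (w / 2) ^ 2 ≤ (Q : ℝ) ^ 2 := pow_le_pow_left₀ (by positivity) hwQ 2
    linarith only [this, hw2']
  have hQ2' : (Q : ℝ) ^ 2 ≤ x / (160 * (U : ℝ) ^ 2) := by
    rw [← hw2]; exact pow_le_pow_left₀ hQ0.le hQw 2
  have hQUx : 160 * ((Q : ℝ) ^ 2 * (U : ℝ) ^ 2) ≤ x := by
    rw [le_div_iff₀ (by positivity)] at hQ2'
    linarith
  -- c and τ
  set c : ℝ := 1 / (36 * k1) with hc
  have hc0 : 0 < c := by positivity
  have hc1 : c ≤ 1 := by
    rw [hc, div_le_one (by positivity)]; linarith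
  have hck : c * k1 = 1 / 36 := by rw [hc]; field_simp
  have hcQ : 4 ≤ c * (Q : ℝ) ^ 2 := by
    have h1 : 144 * k1 ≤ (Q : ℝ) ^ 2 := by
      refine le_trans ?_ hQ2
      rw [le_div_iff₀ (by norm_num)]
      calc 144 * k1 * 2560 ≤ 144 * (4 * C * y) * 2560 := by linarith only [hk]
        _ ≤ (10 ^ 16 * C ^ 3) * y := by
            have := mul_le_mul_of_nonneg_right hCC hy0.le
            have h3 : 0 ≤ C ^ 3 * y := by positivity
            linarith only [this, h3]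
        _ ≤ y * y := mul_le_mul_of_nonneg_right hyC hy0.le
        _ = y ^ 2 := by ring
        _ ≤ y ^ 4 := pow_le_pow_right₀ hy1 (by norm_num)
        _ ≤ y ^ K := hyK4
    calc (4 : ℝ) = c * (144 * k1) := by rw [hc]; field_simp; norm_num
      _ ≤ c * (Q : ℝ) ^ 2 := mul_le_mul_of_nonneg_left h1 hc0.le
  set τ : ℝ := 6 / (c ^ 2 * (Q : ℝ) ^ 2) with hτ
  have hτeq : τ = 7776 * k1 ^ 2 / (Q : ℝ) ^ 2 := by
    rw [hτ, hc]; field_simp; norm_num
  have hk2 : k1 ^ 2 ≤ 16 * C ^ 2 * y ^ 2 := by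
    calc k1 ^ 2 ≤ (4 * C * y) ^ 2 := pow_le_pow_left₀ (by linarith) hk 2
      _ = _ := by ring
  have hk3 : k1 ^ 3 ≤ 64 * C ^ 3 * y ^ 3 := by
    calc k1 ^ 3 ≤ (4 * C * y) ^ 3 := pow_le_pow_left₀ (by linarith) hk 3
      _ = _ := by ring
  have hτ1 : τ ≤ 1 / 16 := by
    rw [hτeq, div_le_div_iff₀ (by positivity) (by norm_num)]
    have h1 : 7776 * 16 * 2560 * (16 * C ^ 2 * y ^ 2) ≤ y ^ K := by
      calc 7776 * 16 * 2560 * (16 * C ^ 2 * y ^ 2) = (7776 * 16 * 2560 * 16 * C ^ 2) * y ^ 2 := by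
            ring
        _ ≤ (10 ^ 16 * C ^ 3) * y ^ 2 := by
            apply mul_le_mul_of_nonneg_right _ (by positivity)
            linarith only [hC2, hC3]
        _ ≤ y * y ^ 2 := mul_le_mul_of_nonneg_right hyC (by positivity)
        _ = y ^ 3 := by ring
        _ ≤ y ^ 4 := pow_le_pow_right₀ hy1 (by norm_num)
        _ ≤ y ^ K := hyK4
    linarith only [h1, hk2, hQ2]
  have hδτ : |δ| ≤ τ := by
    refine hδ.trans ?_
    rw [hτeq, div_le_div_iff₀ (by positivity) (by positivity)]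
    have h1 : C * (Q : ℝ) ^ 2 * (160 * (U : ℝ) ^ 2) ≤ 7776 * (U : ℝ) ^ (K + 1) *
        (160 * (U : ℝ) ^ 2) := by
      calc C * (Q : ℝ) ^ 2 * (160 * (U : ℝ) ^ 2) = C * (160 * ((Q : ℝ) ^ 2 * (U : ℝ) ^ 2)) := by
            ring
        _ ≤ C * x := mul_le_mul_of_nonneg_left hQUx (by linarith)
        _ = C * y ^ (K + 2) := by rw [hxpow]
        _ ≤ y * y ^ (K + 2) := by
            apply mul_le_mul_of_nonneg_right _ (by positivity)
            linarith only [hyC, hCC, hC3]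
        _ = y ^ (K + 3) := by ring
        _ ≤ (U : ℝ) ^ (K + 3) := pow_le_pow_left₀ hy0.le hyU _
        _ ≤ (7776 * 160) * (U : ℝ) ^ (K + 3) := by
            have : 0 ≤ (U : ℝ) ^ (K + 3) := by positivity
            linarith
        _ = _ := by ring
    have h2 : C * (Q : ℝ) ^ 2 ≤ 7776 * (U : ℝ) ^ (K + 1) :=
      le_of_mul_le_mul_right h1 (by positivity)
    have h3 : 7776 * (U : ℝ) ^ (K + 1) ≤ 7776 * k1 ^ 2 * (U : ℝ) ^ (K + 1) := by
      have : (1 : ℝ) ≤ k1 ^ 2 := one_le_pow₀ hk10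
      have h4 : 0 ≤ (U : ℝ) ^ (K + 1) := by positivity
      have h5 := mul_le_mul_of_nonneg_right this h4
      linarith only [h5]
    linarith
  have hX : 10 * (Q : ℤ) ^ 2 * (16 * (U : ℤ) ^ 2) ≤ (x : ℤ) := by
    have : (10 * (Q : ℝ) ^ 2 * (16 * (U : ℝ) ^ 2)) ≤ (x : ℝ) := by linarith only [hQUx]
    exact_mod_cast this
  have hT : 1 ≤ 16 * (U : ℤ) ^ 2 := by
    have : 1 ≤ U := by
      have : (0 : ℝ) < U := hU0
      exact_mod_cast this
    have h2 : (1 : ℤ) ≤ U := by exact_mod_cast this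
    have h3 : (1 : ℤ) ≤ (U : ℤ) ^ 2 := one_le_pow₀ h2
    linarith only [h3]
  have hmain := main_ineq F hF (x : ℤ) (16 * (U : ℤ) ^ 2) l hl hprod hT Q hQ1 c hc0 hc1 hcQ hX τ hτ
    hτ1 δ hδτ hdir
  rw [← hk1] at hmain
  set N : ℝ := ((Opp F (x : ℤ)).card : ℝ) with hN
  have hpi := Real.pi_pos
  have h1 : 1 ≤ 48 * τ * k1 * N := by
    have : 2 * Real.pi ≤ Real.pi * (36 * (c * k1)) + Real.pi * (48 * τ * k1 * N) := by
      linarith [hmain, show k1 * (36 * Real.pi * c + 48 * Real.pi * τ * N) =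
        Real.pi * (36 * (c * k1)) + Real.pi * (48 * τ * k1 * N) by ring]
    rw [hck] at this
    have h2 : Real.pi * 1 ≤ Real.pi * (48 * τ * k1 * N) := by linarith
    exact le_of_mul_le_mul_left h2 hpi
  have h2 : (Q : ℝ) ^ 2 ≤ 373248 * k1 ^ 3 * N := by
    rw [hτeq] at h1
    have h3 : 48 * (7776 * k1 ^ 2 / (Q : ℝ) ^ 2) * k1 * N = 373248 * k1 ^ 3 * N / (Q : ℝ) ^ 2 := by
      ring
    rw [h3, le_div_iff₀ (by positivity), one_mul] at h1
    exact h1
  have hN0 : 0 ≤ N := Nat.cast_nonneg _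
  have h3 : y ^ (K - 4) ≤ N := by
    have e1 : y ^ K = y ^ (K - 4) * y ^ 4 := by
      rw [← pow_add]; congr 1; omega
    have h4 : y ^ (K - 4) * y ^ 4 ≤ y ^ 4 * N := by
      calc y ^ (K - 4) * y ^ 4 = y ^ K := e1.symm
        _ ≤ 2560 * (373248 * k1 ^ 3 * N) := by linarith
        _ ≤ 2560 * (373248 * (64 * C ^ 3 * y ^ 3) * N) := by
            have := mul_le_mul_of_nonneg_right hk3 hN0
            linarith only [this]
        _ = (2560 * 373248 * 64 * C ^ 3) * y ^ 3 * N := by ring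
        _ ≤ y * y ^ 3 * N := by
            apply mul_le_mul_of_nonneg_right _ hN0
            apply mul_le_mul_of_nonneg_right _ (by positivity)
            linarith only [hyC, hC3]
        _ = y ^ 4 * N := by ring
    have h5 : 0 < y ^ 4 := by positivity
    rw [mul_comm] at h4
    exact le_of_mul_le_mul_left h4 h5
  refine le_trans ?_ h3
  calc (x : ℝ) ^ (1 - ε) = (y ^ ((K : ℝ) + 2)) ^ (1 - ε) := by
        rw [← hxpow]
        congr 1
        rw [← Real.rpow_natCast]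
        push_cast; rfl
    _ = y ^ (((K : ℝ) + 2) * (1 - ε)) := by rw [← Real.rpow_mul hy0.le]
    _ ≤ y ^ ((K - 4 : ℕ) : ℝ) := by
        apply Real.rpow_le_rpow_of_exponent_le hy1
        rw [Nat.cast_sub hK4']
        push_cast
        linarith only [hKε]
    _ = y ^ (K - 4) := Real.rpow_natCast _ _

/-! ### From opposite pairs to values of `m ^ 2 + 1` -/

theorem count_large (F : ℤ × ℤ → ℤ) (hF : SignFn F) (z0 : ℤ × ℤ) (h0 : Odd (Nm z0))
    (hz0 : F z0 = -1) (P : ℕ → Prop) [DecidablePred P]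
    (hP : ∀ (X : ℤ) (p q : ℤ × ℤ), IsOpp F X p q → P (dp p q).natAbs)
    (ε : ℝ) (hε : 0 < ε) :
    ∀ᶠ x : ℕ in atTop, (x : ℝ) ^ (1 - ε) ≤ ((Finset.range (x + 1)).filter P).card := by
  obtain ⟨K0, hK1, hdiv⟩ := Pool.Agent.MP_db34dc_nt.divisor_bound (ε / 8) (by positivity)
  have htend : Tendsto (fun x : ℕ => (x : ℝ) ^ (ε / 4)) atTop atTop :=
    (tendsto_rpow_atTop (by positivity)).comp tendsto_natCast_atTop_atTop
  filter_upwards [opp_large F hF z0 h0 hz0 (ε / 2) (by positivity),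
    htend.eventually_ge_atTop (8 * (K0 * (2 : ℝ) ^ (ε / 8))), eventually_ge_atTop 1] with
    x hx hxt hx1
  have hx1r : (1 : ℝ) ≤ x := by exact_mod_cast hx1
  have hx0 : (0 : ℝ) < x := by linarith
  set Br : ℝ := K0 * (2 : ℝ) ^ (ε / 8) * (x : ℝ) ^ (ε / 4) with hBr
  have hBr0 : 0 ≤ Br := by positivity
  have hlab : ∀ r ∈ Opp F (x : ℤ), dt r.1 r.2 = 1 ∧
      (dp r.1 r.2).natAbs ∈ (Finset.range (x + 1)).filter P := by
    intro r hr
    rw [mem_Opp] at hr
    refine ⟨hr.1, ?_⟩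
    rw [Finset.mem_filter, Finset.mem_range]
    refine ⟨?_, hP _ _ _ hr⟩
    have h1 := dp_sq_add_dt_sq r.1 r.2
    rw [hr.1] at h1
    have h2 : Nm r.1 * Nm r.2 ≤ (x : ℤ) * x :=
      mul_le_mul hr.2.1 hr.2.2.1 (Nm_nonneg _) (by positivity)
    have h3 : ((dp r.1 r.2).natAbs : ℤ) ^ 2 ≤ (x : ℤ) ^ 2 := by
      rw [Int.natAbs_sq]; linarith
    have h4 : ((dp r.1 r.2).natAbs : ℤ) ≤ x := by
      exact le_of_sq_le_sq h3 (by positivity)
    have : (dp r.1 r.2).natAbs ≤ x := by exact_mod_cast h4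
    omega
  have hdivs : ∀ m ∈ (Finset.range (x + 1)).filter P,
      (Nat.divisors (m ^ 2 + 1)).card ≤ ⌊Br⌋₊ := by
    intro m hm
    rw [Finset.mem_filter, Finset.mem_range] at hm
    apply Nat.le_floor
    refine (hdiv (m ^ 2 + 1) (by positivity)).trans ?_
    rw [hBr, mul_assoc]
    apply mul_le_mul_of_nonneg_left _ (by linarith)
    have hmx : (m : ℝ) ≤ x := by exact_mod_cast Nat.lt_succ_iff.1 hm.1
    calc (((m ^ 2 + 1 : ℕ) : ℝ)) ^ (ε / 8) ≤ (2 * (x : ℝ) ^ 2) ^ (ε / 8) := by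
          apply Real.rpow_le_rpow (by positivity) _ (by positivity)
          push_cast
          have hm0 : (0 : ℝ) ≤ m := Nat.cast_nonneg _
          nlinarith
      _ = (2 : ℝ) ^ (ε / 8) * (x : ℝ) ^ (ε / 4) := by
          rw [Real.mul_rpow (by norm_num) (by positivity), ← Real.rpow_natCast,
            ← Real.rpow_mul (by positivity)]
          congr 2
          push_cast; ring
  have hcard := opp_card (Opp F (x : ℤ)) ((Finset.range (x + 1)).filter P) ⌊Br⌋₊ hlab hdivs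
  set S : ℝ := (((Finset.range (x + 1)).filter P).card : ℝ) with hS
  have hS0 : 0 ≤ S := Nat.cast_nonneg _
  have hcard' : ((Opp F (x : ℤ)).card : ℝ) ≤ 8 * Br * S := by
    have h1 : ((Opp F (x : ℤ)).card : ℝ) ≤ 8 * (⌊Br⌋₊ : ℝ) * S := by
      rw [hS]; exact_mod_cast hcard
    refine h1.trans ?_
    apply mul_le_mul_of_nonneg_right _ hS0
    linarith [Nat.floor_le hBr0]
  have h2 : (x : ℝ) ^ (1 - ε / 2) ≤ 8 * Br * S := hx.trans hcard'
  have h3 : 8 * Br ≤ (x : ℝ) ^ (ε / 2) := by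
    calc 8 * Br = (8 * (K0 * (2 : ℝ) ^ (ε / 8))) * (x : ℝ) ^ (ε / 4) := by rw [hBr]; ring
      _ ≤ (x : ℝ) ^ (ε / 4) * (x : ℝ) ^ (ε / 4) :=
          mul_le_mul_of_nonneg_right hxt (by positivity)
      _ = (x : ℝ) ^ (ε / 2) := by rw [← Real.rpow_add hx0]; congr 1; ring
  have h4 : (x : ℝ) ^ (1 - ε) * (x : ℝ) ^ (ε / 2) ≤ S * (x : ℝ) ^ (ε / 2) := by
    calc (x : ℝ) ^ (1 - ε) * (x : ℝ) ^ (ε / 2) = (x : ℝ) ^ (1 - ε / 2) := by
          rw [← Real.rpow_add hx0]; congr 1; ring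
      _ ≤ 8 * Br * S := h2
      _ ≤ (x : ℝ) ^ (ε / 2) * S := mul_le_mul_of_nonneg_right h3 hS0
      _ = _ := mul_comm _ _
  exact le_of_mul_le_mul_right h4 (by positivity)

/-! ### The two sign functions -/

open Classical in
/-- `L` of the norm -/
noncomputable def FL (L : ℕ → ℤ) (z : ℤ × ℤ) : ℤ := if Nm z = 0 then 1 else L (Nm z).natAbs

/-- the character modulo `2` -/
def kap (z : ℤ × ℤ) : ℤ := if Even z.2 then 1 else -1

/-- the twisted sign function -/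
noncomputable def FK (L : ℕ → ℤ) (z : ℤ × ℤ) : ℤ := FL L z * kap z

theorem kap_pm (z : ℤ × ℤ) : kap z = 1 ∨ kap z = -1 := by
  unfold kap; split_ifs <;> simp

theorem odd_ne_zero {n : ℤ} (h : Odd n) : n ≠ 0 := by
  rintro rfl; exact absurd h (by decide)

theorem parity_of_odd {z : ℤ × ℤ} (h : Odd (Nm z)) :
    (Odd z.1 ∧ Even z.2) ∨ (Even z.1 ∧ Odd z.2) := by
  unfold Nm at h
  rcases Int.even_or_odd z.1 with h1 | h1 <;> rcases Int.even_or_odd z.2 with h2 | h2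
  · exfalso
    have : Even (z.1 ^ 2 + z.2 ^ 2) := (h1.pow_of_ne_zero (by norm_num)).add
      (h2.pow_of_ne_zero (by norm_num))
    exact (Int.not_even_iff_odd.2 h) this
  · exact Or.inr ⟨h1, h2⟩
  · exact Or.inl ⟨h1, h2⟩
  · exfalso
    have : Even (z.1 ^ 2 + z.2 ^ 2) := (h1.pow).add_odd h2.pow
    exact (Int.not_even_iff_odd.2 h) this

theorem kap_mul (z w : ℤ × ℤ) (hz : Odd (Nm z)) (hw : Odd (Nm w)) :
    kap (mu z w) = kap z * kap w := by
  unfold kap mu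
  rcases parity_of_odd hz with ⟨h1, h2⟩ | ⟨h1, h2⟩ <;>
  rcases parity_of_odd hw with ⟨h3, h4⟩ | ⟨h3, h4⟩
  · have : Even (z.1 * w.2 + z.2 * w.1) := (h4.mul_left _).add (h2.mul_right _)
    simp [h2, h4, this]
  · have h5 : Odd (z.1 * w.2 + z.2 * w.1) := (h1.mul h4).add_even (h2.mul_right _)
    have h6 : ¬ Even (z.1 * w.2 + z.2 * w.1) := Int.not_even_iff_odd.2 h5
    have h7 : ¬ Even w.2 := Int.not_even_iff_odd.2 h4
    simp [h2, h6, h7]
  · have h5 : Odd (z.1 * w.2 + z.2 * w.1) := Even.add_odd (h4.mul_left _) (h2.mul h3)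
    have h6 : ¬ Even (z.1 * w.2 + z.2 * w.1) := Int.not_even_iff_odd.2 h5
    have h7 : ¬ Even z.2 := Int.not_even_iff_odd.2 h2
    simp [h4, h6, h7]
  · have h5 : Even (z.1 * w.2 + z.2 * w.1) := (h1.mul_right _).add (h3.mul_left _)
    have h6 : ¬ Even z.2 := Int.not_even_iff_odd.2 h2
    have h7 : ¬ Even w.2 := Int.not_even_iff_odd.2 h4
    simp [h5, h6, h7]

variable {L : ℕ → ℤ}

theorem FL_of_odd (L : ℕ → ℤ) {z : ℤ × ℤ} (h : Odd (Nm z)) : FL L z = L (Nm z).natAbs := by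
  unfold FL; rw [if_neg (odd_ne_zero h)]

theorem signFn_FL (h1 : ∀ n, 0 < n → L n = 1 ∨ L n = -1)
    (h2 : ∀ m n, 0 < m → 0 < n → L (m * n) = L m * L n) : SignFn (FL L) := by
  refine ⟨fun z => ?_, fun z w hz hw => ?_, fun m hm => ?_⟩
  · unfold FL
    split_ifs with h
    · exact Or.inl rfl
    · exact h1 _ (Int.natAbs_pos.2 h)
  · have hzw : Odd (Nm (mu z w)) := by rw [Nm_mu]; exact hz.mul hw
    rw [FL_of_odd L hzw, FL_of_odd L hz, FL_of_odd L hw, Nm_mu, Int.natAbs_mul]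
    exact h2 _ _ (Int.natAbs_pos.2 (odd_ne_zero hz)) (Int.natAbs_pos.2 (odd_ne_zero hw))
  · have e : Nm (m, 0) = m * m := by unfold Nm; ring
    have hodd : Odd (Nm (m, 0)) := by rw [e]; exact hm.mul hm
    rw [FL_of_odd L hodd, e, Int.natAbs_mul]
    have hpos : 0 < m.natAbs := Int.natAbs_pos.2 (odd_ne_zero hm)
    rw [h2 _ _ hpos hpos]
    rcases h1 _ hpos with h | h <;> rw [h] <;> norm_num

theorem signFn_FK (h1 : ∀ n, 0 < n → L n = 1 ∨ L n = -1)
    (h2 : ∀ m n, 0 < m → 0 < n → L (m * n) = L m * L n) : SignFn (FK L) := by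
  have h := signFn_FL h1 h2
  refine ⟨fun z => ?_, fun z w hz hw => ?_, fun m hm => ?_⟩
  · unfold FK
    rcases h.pm z with h3 | h3 <;> rcases kap_pm z with h4 | h4 <;> rw [h3, h4] <;> norm_num
  · unfold FK
    rw [h.mul z w hz hw, kap_mul z w hz hw]; ring
  · unfold FK
    rw [h.int m hm]; simp [kap]

theorem label {F : ℤ × ℤ → ℤ} {X : ℤ} {p q : ℤ × ℤ} (h : IsOpp F X p q) :
    Even (dp p q).natAbs ∧ (dp p q).natAbs ^ 2 + 1 = (Nm p).natAbs * (Nm q).natAbs := by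
  have h1 := dp_sq_add_dt_sq p q
  rw [h.1] at h1
  have h2 : (((dp p q).natAbs ^ 2 + 1 : ℕ) : ℤ) = (((Nm p).natAbs * (Nm q).natAbs : ℕ) : ℤ) := by
    push_cast
    rw [sq_abs, abs_of_nonneg (Nm_nonneg p), abs_of_nonneg (Nm_nonneg q)]
    linarith
  refine ⟨?_, by exact_mod_cast h2⟩
  have h3 : Odd (Nm p * Nm q) := h.2.2.2.1.mul h.2.2.2.2.1
  rw [← h1, one_pow] at h3
  rw [Int.natAbs_even]
  by_contra hcon
  rw [Int.not_even_iff_odd] at hcon
  exact (Int.not_even_iff_odd.2 h3) (hcon.pow.add_odd odd_one)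

theorem L_label (h2 : ∀ m n, 0 < m → 0 < n → L (m * n) = L m * L n) {F : ℤ × ℤ → ℤ} {X : ℤ}
    {p q : ℤ × ℤ} (h : IsOpp F X p q) : L ((dp p q).natAbs ^ 2 + 1) = FL L p * FL L q := by
  rw [(label h).2, FL_of_odd L h.2.2.2.1, FL_of_odd L h.2.2.2.2.1]
  exact h2 _ _ (Int.natAbs_pos.2 (odd_ne_zero h.2.2.2.1))
    (Int.natAbs_pos.2 (odd_ne_zero h.2.2.2.2.1))

theorem kap_adj {p q : ℤ × ℤ} (hdt : dt p q = 1) (hp : Odd (Nm p)) (hq : Odd (Nm q)) :
    kap p * kap q = -1 := by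
  unfold dt at hdt
  rcases parity_of_odd hp with ⟨h1, h2⟩ | ⟨h1, h2⟩ <;>
  rcases parity_of_odd hq with ⟨h3, h4⟩ | ⟨h3, h4⟩
  · exfalso
    have : Even (p.1 * q.2 - p.2 * q.1) := (h4.mul_left _).sub (h2.mul_right _)
    rw [hdt] at this
    exact absurd this (by decide)
  · have h7 : ¬ Even q.2 := Int.not_even_iff_odd.2 h4
    unfold kap; simp [h2, h7]
  · have h7 : ¬ Even p.2 := Int.not_even_iff_odd.2 h2
    unfold kap; simp [h4, h7]
  · exfalso
    have : Even (p.1 * q.2 - p.2 * q.1) := (h1.mul_right _).sub (h3.mul_left _)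
    rw [hdt] at this
    exact absurd this (by decide)

/-- The general theorem. -/
theorem general (L : ℕ → ℤ) (h1 : ∀ n, 0 < n → L n = 1 ∨ L n = -1)
    (h2 : ∀ m n, 0 < m → 0 < n → L (m * n) = L m * L n) (ε : ℝ) (hε : 0 < ε) :
    ((∃ n0 : ℕ, Even n0 ∧ L (n0 ^ 2 + 1) = -1) →
      ∀ᶠ x : ℕ in atTop, (x : ℝ) ^ (1 - ε) ≤
        ((Finset.range (x + 1)).filter (fun m => Even m ∧ L (m ^ 2 + 1) = -1)).card) ∧
    ∀ᶠ x : ℕ in atTop, (x : ℝ) ^ (1 - ε) ≤
      ((Finset.range (x + 1)).filter (fun m => Even m ∧ L (m ^ 2 + 1) = 1)).card := by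
  constructor
  · rintro ⟨n0, hn0, hL⟩
    have e : Nm ((n0 : ℤ), 1) = ((n0 ^ 2 + 1 : ℕ) : ℤ) := by unfold Nm; push_cast; ring
    have hodd : Odd (Nm ((n0 : ℤ), 1)) := by
      rw [e]
      have : Odd (n0 ^ 2 + 1) := (hn0.pow_of_ne_zero (by norm_num)).add_one
      exact_mod_cast this
    refine count_large (FL L) (signFn_FL h1 h2) ((n0 : ℤ), 1) hodd ?_ _ ?_ ε hε
    · rw [FL_of_odd L hodd, e, Int.natAbs_natCast, hL]
    · intro X p q h
      refine ⟨(label h).1, ?_⟩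
      rw [L_label h2 h]
      have h3 := h.2.2.2.2.2
      rcases (signFn_FL h1 h2).pm p with h4 | h4 <;> rcases (signFn_FL h1 h2).pm q with h5 | h5 <;>
        rw [h4, h5] at h3 ⊢ <;> simp at h3 ⊢
  · have e : Nm ((0 : ℤ), 1) = 1 := by unfold Nm; norm_num
    have hodd : Odd (Nm ((0 : ℤ), 1)) := by rw [e]; exact odd_one
    refine count_large (FK L) (signFn_FK h1 h2) ((0 : ℤ), 1) hodd ?_ _ ?_ ε hε
    · unfold FK
      rw [FL_of_odd L hodd, e, Int.natAbs_one]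
      have h3 : L 1 = L 1 * L 1 := by simpa using h2 1 1 one_pos one_pos
      have h4 : L 1 = 1 := by
        rcases h1 1 one_pos with h | h
        · exact h
        · rw [h] at h3; norm_num at h3
      rw [h4]
      unfold kap; simp
    · intro X p q h
      refine ⟨(label h).1, ?_⟩
      rw [L_label h2 h]
      have h3 := h.2.2.2.2.2
      have h6 := kap_adj h.1 h.2.2.2.1 h.2.2.2.2.1
      unfold FK at h3
      rcases (signFn_FL h1 h2).pm p with h4 | h4 <;> rcases (signFn_FL h1 h2).pm q with h5 | h5 <;>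
        rcases kap_pm p with h7 | h7 <;> rcases kap_pm q with h8 | h8 <;>
        rw [h4, h5, h7, h8] at h3 <;> rw [h7, h8] at h6 <;> rw [h4, h5] <;> simp at h3 h6 ⊢

/-- The Liouville case. -/
theorem liouville (ε : ℝ) (hε : 0 < ε) :
    (∀ᶠ x : ℕ in atTop, (x : ℝ) ^ (1 - ε) ≤
      ((Finset.range (x + 1)).filter (fun m => Even m ∧
        Odd (ArithmeticFunction.cardFactors (m ^ 2 + 1)))).card) ∧
    (∀ᶠ x : ℕ in atTop, (x : ℝ) ^ (1 - ε) ≤
      ((Finset.range (x + 1)).filter (fun m => Even m ∧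
        Even (ArithmeticFunction.cardFactors (m ^ 2 + 1)))).card) := by
  set L : ℕ → ℤ := fun n => (-1) ^ (ArithmeticFunction.cardFactors n) with hL
  have h1 : ∀ n, 0 < n → L n = 1 ∨ L n = -1 := fun n _ => neg_one_pow_eq_or ℤ _
  have h2 : ∀ m n, 0 < m → 0 < n → L (m * n) = L m * L n := by
    intro m n hm hn
    simp only [hL]
    rw [ArithmeticFunction.cardFactors_mul hm.ne' hn.ne', pow_add]
  have ho : ∀ n, L n = -1 ↔ Odd (ArithmeticFunction.cardFactors n) := by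
    intro n
    simp only [hL]
    constructor
    · intro h
      by_contra hcon
      rw [Nat.not_odd_iff_even] at hcon
      rw [hcon.neg_one_pow] at h
      norm_num at h
    · exact fun h => h.neg_one_pow
  have he : ∀ n, L n = 1 ↔ Even (ArithmeticFunction.cardFactors n) := by
    intro n
    simp only [hL]
    constructor
    · intro h
      by_contra hcon
      rw [Nat.not_even_iff_odd] at hcon
      rw [hcon.neg_one_pow] at h
      norm_num at h
    · exact fun h => h.neg_one_pow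
  have hg := general L h1 h2 ε hε
  constructor
  · have h3 : ∃ n0 : ℕ, Even n0 ∧ L (n0 ^ 2 + 1) = -1 := by
      refine ⟨2, even_two, ?_⟩
      rw [ho]
      have : Nat.Prime (2 ^ 2 + 1) := by norm_num
      rw [ArithmeticFunction.cardFactors_apply_prime this]
      exact odd_one
    filter_upwards [hg.1 h3] with x hx
    refine hx.trans (le_of_eq ?_)
    congr 2
    ext m
    simp only [Finset.mem_filter, ho]
  · filter_upwards [hg.2] with x hx
    refine hx.trans (le_of_eq ?_)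
    congr 2
    ext m
    simp only [Finset.mem_filter, he]

end Pool.Agent.ParityQuad
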