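import Pool.Agent.Lib_MP_f1a94e_nt.Greedy
import Pool.Agent.Lib_MP_f1a94e_nt.Diff2

/-!
# MP_f1a94e_nt: greedy digits with constants explicit in the order of the difference
-/

set_option autoImplicit false

namespace Pool.Agent.ParityQuad

open Complex

theorem greedy2 (F : ℤ × ℤ → ℤ) (hF : SignFn F) (z0 : ℤ × ℤ) (h0 : Odd (Nm z0))
    (hz0 : F z0 = -1) :
    ∃ U0 : ℕ, 4 ≤ U0 ∧ ∀ j U : ℕ, U0 + j ≤ U → ∃ (a : ℝ) (k : ℕ),
      Rep F (16 * (U : ℤ) ^ 2) k a (-1) ∧ a ≤ 2 * Real.pi ∧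
      2 * Real.pi - a < 2 * ((dd^[j] (fun s : ℝ => Real.arctan (1 / s))) ((2 * U : ℕ) : ℝ)) ∧
      (k : ℝ) ≤ 2 ^ (3 * j + 9) * U := by
  obtain ⟨n1, hn1⟩ := exists_nat_ge (Nm z0 : ℝ)
  refine ⟨max n1 4, le_max_right _ _, ?_⟩
  intro j
  induction j with
  | zero =>
    intro U hU
    have hU2 : n1 ≤ U := le_trans (le_trans (le_max_left _ _) (Nat.le_add_right _ _)) hU
    have hU3 : 4 ≤ U := le_trans (le_trans (le_max_right _ _) (Nat.le_add_right _ _)) hU
    have hU3' : (4 : ℝ) ≤ U := by exact_mod_cast hU3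
    have hU3z : (4 : ℤ) ≤ U := by exact_mod_cast hU3
    have hd1 := (diff_bounds_explicit 0 ((2 * U : ℕ) : ℝ) (by push_cast; linarith)).1
    have hpos : 0 < ((dd^[0] (fun s : ℝ => Real.arctan (1 / s))) ((2 * U : ℕ) : ℝ)) := by
      refine lt_of_lt_of_le ?_ hd1
      have : (0 : ℝ) < ((2 * U : ℕ) : ℝ) := by push_cast; linarith
      positivity
    obtain ⟨s, hs, hr⟩ := rep_base F hF 0 (2 * U) (by omega) (by simp) (16 * (U : ℤ) ^ 2) (by
      push_cast; nlinarith)
    have hN : Nm z0 ≤ 16 * (U : ℤ) ^ 2 := by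
      have h1 : Nm z0 ≤ (n1 : ℤ) := by exact_mod_cast hn1
      have h2 : (n1 : ℤ) ≤ U := by exact_mod_cast hU2
      nlinarith
    have hstart : Rep F (16 * (U : ℤ) ^ 2) 1 (Complex.arg (tc z0)) (-1) := by
      refine ⟨[z0], ?_, by simp, by simpa using hz0, ?_⟩
      · intro u hu
        rw [List.mem_singleton] at hu
        subst hu
        exact ⟨h0, hN⟩
      · simp only [List.map_cons, List.map_nil, List.prod_cons, List.prod_nil, mul_one]
        have hne : ‖tc z0‖ ≠ 0 := by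
          intro h
          have := norm_tc_sq z0
          rw [h] at this
          have h' : Nm z0 = 0 := by
            have : (Nm z0 : ℝ) = 0 := by rw [← this]; norm_num
            exact_mod_cast this
          rw [h'] at h0
          exact absurd h0 (by decide)
        have hne' : ((‖tc z0‖ : ℝ) : ℂ) ≠ 0 := by exact_mod_cast hne
        rw [dir, div_eq_iff hne', mul_comm]
        exact (Complex.norm_mul_exp_arg_mul_I (tc z0)).symm
    have harg1 := Complex.arg_le_pi (tc z0)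
    have harg2 := Complex.neg_pi_lt_arg (tc z0)
    obtain ⟨m, a', hm, hr', ha1, ha2⟩ := greedy_step hstart (by linarith [Real.pi_pos]) hpos hs hr
    refine ⟨a', _, hr', ha1, ha2, ?_⟩
    have hpi := Real.pi_pos
    have hpi4 := Real.pi_lt_four
    have hUp : (0 : ℝ) < U := by linarith
    have hm' : (m : ℝ) ≤ 24 * Real.pi * U := by
      refine hm.trans ?_
      have h1 : (2 * Real.pi - (tc z0).arg) ≤ 3 * Real.pi := by linarith
      have h2 : (1 / 8) / (2 * U) ≤
          ((dd^[0] (fun s : ℝ => Real.arctan (1 / s))) ((2 * U : ℕ) : ℝ)) := by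
        refine le_trans (le_of_eq ?_) hd1
        push_cast
        norm_num
      calc (2 * Real.pi - (tc z0).arg) / (2 * _) ≤ 3 * Real.pi / (2 * ((1 / 8) / (2 * U))) := by
            apply div_le_div₀ (by positivity) h1 (by positivity)
            linarith
        _ = 24 * Real.pi * U := by field_simp; norm_num
    push_cast
    have e9 : (2 : ℝ) ^ (3 * 0 + 9) = 512 := by norm_num
    rw [e9]
    nlinarith
  | succ j ih =>
    intro U hU
    obtain ⟨a, k, hr, ha1, ha2, hk⟩ := ih U (by omega)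
    have hU4 : j + 4 ≤ U := by
      have := le_max_right n1 4
      omega
    have hUp : (0 : ℝ) < U := by
      have : 0 < U := by omega
      exact_mod_cast this
    have hU4r : (j : ℝ) + 4 ≤ U := by exact_mod_cast hU4
    have hUz : ((j : ℤ) + 4) ≤ U := by exact_mod_cast hU4
    have hj0 : (0 : ℝ) ≤ j := Nat.cast_nonneg j
    have hd1 := (diff_bounds_explicit (j + 1) ((2 * U : ℕ) : ℝ) (by push_cast; linarith)).1
    have hd2 := (diff_bounds_explicit j ((2 * U : ℕ) : ℝ) (by push_cast; linarith)).2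
    set f : ℝ := (j.factorial : ℝ) with hf
    have hf0 : 0 < f := by rw [hf]; exact_mod_cast Nat.factorial_pos j
    have hfac : (((j + 1).factorial : ℕ) : ℝ) = ((j : ℝ) + 1) * f := by
      rw [Nat.factorial_succ, hf]; push_cast; ring
    rw [hfac] at hd1
    set A : ℝ := ((j : ℝ) + 1) * f / 2 ^ (j + 1 + 3) with hA
    set B' : ℝ := 2 ^ (j + 1) * f with hB'
    have hApos : 0 < A := by positivity
    have hBpos : 0 < B' := by positivity
    have h2U : (0 : ℝ) < ((2 * U : ℕ) : ℝ) := by push_cast; linarith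
    have hlow : 0 < A / ((2 * U : ℕ) : ℝ) ^ (j + 1 + 1) := by positivity
    have hpos : 0 < ((dd^[j + 1] (fun s : ℝ => Real.arctan (1 / s))) ((2 * U : ℕ) : ℝ)) :=
      lt_of_lt_of_le hlow hd1
    obtain ⟨s, hs, hr1⟩ := rep_base F hF (j + 1) (2 * U) (by omega) (by simp)
      (16 * (U : ℤ) ^ 2) (by
        push_cast
        have h1 : (2 * (U : ℤ) + 2 * (j + 1)) ≤ 4 * U - 1 := by linarith
        have h2 : (0 : ℤ) ≤ 2 * (U : ℤ) + 2 * (j + 1) := by positivity
        nlinarith)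
    obtain ⟨m, a', hm, hr', ha1', ha2'⟩ := greedy_step hr ha1 hpos hs hr1
    refine ⟨a', _, hr', ha1', ha2', ?_⟩
    have hBA : B' / A ≤ 2 ^ (2 * j + 5) := by
      rw [div_le_iff₀ hApos, hA, hB']
      have e1 : (2 : ℝ) ^ (2 * j + 5) * (((j : ℝ) + 1) * f / 2 ^ (j + 1 + 3)) =
          2 ^ (j + 1) * (((j : ℝ) + 1) * f) := by
        have : (2 : ℝ) ^ (2 * j + 5) = 2 ^ (j + 1) * 2 ^ (j + 1 + 3) := by
          rw [← pow_add]; congr 1; ring
        rw [this]
        have h3 : (2 : ℝ) ^ (j + 1 + 3) ≠ 0 := by positivity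
        field_simp
      rw [e1]
      have : f ≤ ((j : ℝ) + 1) * f := by nlinarith
      gcongr
    have hm' : (m : ℝ) ≤ 2 ^ (2 * j + 5) * (2 * U) := by
      refine hm.trans ?_
      calc (2 * Real.pi - a) / (2 * _) ≤
            (2 * (B' / ((2 * U : ℕ) : ℝ) ^ (j + 1))) / (2 * (A / ((2 * U : ℕ) : ℝ) ^ (j + 1 + 1))) := by
            apply div_le_div₀ (by positivity) (by linarith) (by positivity)
            linarith
        _ = B' / A * (2 * U) := by
            push_cast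
            field_simp
            try ring
        _ ≤ _ := by gcongr
    push_cast
    have e : (2 : ℝ) ^ (3 * (j + 1) + 9) = 8 * 2 ^ (3 * j + 9) := by
      have : 3 * (j + 1) + 9 = 3 * j + 9 + 3 := by ring
      rw [this, pow_add]; norm_num; ring
    rw [e]
    have e2 : (2 : ℝ) ^ (3 * j + 9) = 8 * (2 ^ (j + 1) * 2 ^ (2 * j + 5)) := by
      have : (8 : ℝ) = 2 ^ 3 := by norm_num
      rw [this, ← pow_add, ← pow_add]; congr 1; ring
    have h2 : (0 : ℝ) < 2 ^ (j + 1) := by positivity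
    have h3 : 2 * (m : ℝ) * 2 ^ (j + 1) ≤ 2 * (2 ^ (2 * j + 5) * (2 * U)) * 2 ^ (j + 1) := by
      gcongr
    have h4 : 2 * ((2 : ℝ) ^ (2 * j + 5) * (2 * U)) * 2 ^ (j + 1) = 2 ^ (3 * j + 9) * U / 2 := by
      rw [e2]; ring
    have h5 : (0 : ℝ) < 2 ^ (3 * j + 9) * U := by positivity
    nlinarith

/-- Products of at most `2 ^ (3 K + 9) U` Gaussian integers of odd norm at most `16 U ^ 2`, of total
sign `-1`, whose direction is within `2 K! / U ^ (K+1)` of `1`, for all `K` and all `U ≥ U0 + K`. -/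
theorem exists_list_unif (F : ℤ × ℤ → ℤ) (hF : SignFn F) (z0 : ℤ × ℤ) (h0 : Odd (Nm z0))
    (hz0 : F z0 = -1) :
    ∃ U0 : ℕ, 4 ≤ U0 ∧ ∀ K U : ℕ, U0 + K ≤ U → ∃ l : List (ℤ × ℤ),
      (∀ u ∈ l, Odd (Nm u) ∧ Nm u ≤ 16 * (U : ℤ) ^ 2) ∧ (l.map F).prod = -1 ∧
      (l.length : ℝ) ≤ 2 ^ (3 * K + 9) * U ∧
      ∃ δ : ℝ, |δ| ≤ 2 * (K.factorial : ℝ) / (U : ℝ) ^ (K + 1) ∧
        (l.map dir).prod = Complex.exp (δ * Complex.I) := by
  obtain ⟨U0, hU0, h⟩ := greedy2 F hF z0 h0 hz0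
  refine ⟨U0, hU0, ?_⟩
  intro K U hU
  have hUK : K + 4 ≤ U := by omega
  have hUp : (0 : ℝ) < U := by
    have : 0 < U := by omega
    exact_mod_cast this
  have hUKr : (K : ℝ) + 4 ≤ U := by exact_mod_cast hUK
  obtain ⟨a, k, ⟨l, hl1, hl2, hl3, hl4⟩, ha1, ha2, hk⟩ := h K U hU
  refine ⟨l, hl1, hl3, ?_, a - 2 * Real.pi, ?_, ?_⟩
  · have h1 : (l.length : ℝ) ≤ k := by exact_mod_cast hl2
    exact h1.trans hk
  · have hd2 := (diff_bounds_explicit K ((2 * U : ℕ) : ℝ) (by push_cast; linarith)).2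
    rw [abs_of_nonpos (by linarith)]
    have h3 : (2 ^ (K + 1) * (K.factorial : ℝ)) / ((2 * U : ℕ) : ℝ) ^ (K + 1) =
        (K.factorial : ℝ) / (U : ℝ) ^ (K + 1) := by
      push_cast
      rw [mul_pow]
      field_simp
    rw [h3] at hd2
    calc -(a - 2 * Real.pi) ≤ 2 * ((K.factorial : ℝ) / (U : ℝ) ^ (K + 1)) := by linarith
      _ = _ := by ring
  · rw [hl4]
    push_cast
    rw [sub_mul, Complex.exp_sub, Complex.exp_two_pi_mul_I, div_one]

end Pool.Agent.ParityQuad
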