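import Pool.Agent.Lib_MP_f1a94e_nt.Final
import Pool.Agent.Lib_MP_f1a94e_nt.Greedy2
import Pool.Agent.Lib_MP_f1a94e_nt.Second

/-!
Choice of parameters, second version: the saving is only `exp (- C √ log x)`.
-/

set_option autoImplicit false

namespace Pool.Agent.ParityQuad

open Filter

theorem two_pow_le_exp (n : ℕ) (a : ℝ) (ha : (n : ℝ) ≤ a) : (2 : ℝ) ^ n ≤ Real.exp a := by
  have h1 : (2 : ℝ) ≤ Real.exp 1 := by
    have := Real.add_one_le_exp (1 : ℝ)
    linarith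
  calc (2 : ℝ) ^ n ≤ (Real.exp 1) ^ n := pow_le_pow_left₀ (by norm_num) h1 n
    _ = Real.exp n := by rw [← Real.exp_nat_mul, mul_one]
    _ ≤ Real.exp a := Real.exp_le_exp.2 ha

theorem opp_large2 (F : ℤ × ℤ → ℤ) (hF : SignFn F) (z0 : ℤ × ℤ) (h0 : Odd (Nm z0))
    (hz0 : F z0 = -1) :
    ∀ᶠ x : ℕ in atTop, (x : ℝ) * Real.exp (-(24 * Real.sqrt (Real.log x))) ≤
      (Opp F (x : ℤ)).card := by
  obtain ⟨U0, hU04, hlist⟩ := exists_list_unif F hF z0 h0 hz0
  have hst : Tendsto (fun x : ℕ => Real.sqrt (Real.log x)) atTop atTop :=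
    Real.tendsto_sqrt_atTop.comp (Real.tendsto_log_atTop.comp tendsto_natCast_atTop_atTop)
  filter_upwards [hst.eventually_ge_atTop (max 100 (U0 : ℝ)), eventually_ge_atTop 1] with
    x hxs hx1
  set s : ℝ := Real.sqrt (Real.log x) with hs
  have hs100 : 100 ≤ s := (le_max_left _ _).trans hxs
  have hsU0 : (U0 : ℝ) ≤ s := (le_max_right _ _).trans hxs
  have hx1r : (1 : ℝ) ≤ x := by exact_mod_cast hx1
  have hs2 : s ^ 2 = Real.log x := Real.sq_sqrt (Real.log_nonneg hx1r)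
  have hxe : Real.exp (s ^ 2) = x := by rw [hs2, Real.exp_log (by linarith)]
  have hss : 100 * s ≤ s ^ 2 := by nlinarith only [hs100]
  -- U
  set U : ℕ := ⌈Real.exp s⌉₊ with hU
  have hyU : Real.exp s ≤ U := Nat.le_ceil _
  have he1 : 1 ≤ Real.exp s := Real.one_le_exp (by linarith)
  have hU2 : (U : ℝ) ≤ 2 * Real.exp s := by
    have := Nat.ceil_lt_add_one (Real.exp_pos s).le
    linarith
  have hUp : 0 < (U : ℝ) := (Real.exp_pos s).trans_le hyU
  -- K
  set K : ℕ := ⌈2 * s⌉₊ with hK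
  have hK1 : 2 * s ≤ K := Nat.le_ceil _
  have hK2 : (K : ℝ) ≤ 2 * s + 1 := (Nat.ceil_lt_add_one (by linarith)).le
  have hK3 : (K : ℝ) ≤ Real.exp (s / 3) := by
    have h1 := Real.quadratic_le_exp_of_nonneg (x := s / 3) (by linarith)
    nlinarith only [h1, hK2, hs100]
  have hUU : U0 + K ≤ U := by
    have h1 := Real.quadratic_le_exp_of_nonneg (x := s) (by linarith)
    have h2 : (U0 : ℝ) + K ≤ U := by
      nlinarith only [h1, hK2, hs100, hsU0, hyU]
    exact_mod_cast h2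
  obtain ⟨l, hl, hprod, hlen, δ, hδ, hdir⟩ := hlist K U hUU
  set k1 : ℝ := (l.length : ℝ) + 1 with hk1
  have hk10 : 1 ≤ k1 := by
    have : (0 : ℝ) ≤ l.length := Nat.cast_nonneg _
    linarith
  have hk : k1 ≤ Real.exp (7 * s + 14) := by
    have h1 : (2 : ℝ) ^ (3 * K + 9 + 2) ≤ Real.exp (3 * K + 11) :=
      two_pow_le_exp _ _ (by push_cast; linarith)
    have h2 : (1 : ℝ) ≤ 2 ^ (3 * K + 9) := one_le_pow₀ (by norm_num)
    have h3 : (1 : ℝ) ≤ 2 ^ (3 * K + 9) * Real.exp s := one_le_mul_of_one_le_of_one_le h2 he1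
    have h4 : (2 : ℝ) ^ (3 * K + 9) * U ≤ 2 ^ (3 * K + 9) * (2 * Real.exp s) :=
      mul_le_mul_of_nonneg_left hU2 (by positivity)
    calc k1 ≤ 2 ^ (3 * K + 9) * U + 1 := by linarith
      _ ≤ 2 ^ (3 * K + 9 + 2) * Real.exp s := by
          rw [pow_add _ (3 * K + 9) 2]; linarith
      _ ≤ Real.exp (3 * K + 11) * Real.exp s :=
          mul_le_mul_of_nonneg_right h1 (Real.exp_pos s).le
      _ = Real.exp (3 * K + 11 + s) := by rw [← Real.exp_add]
      _ ≤ Real.exp (7 * s + 14) := Real.exp_le_exp.2 (by linarith)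
  have hk2 : k1 ^ 2 ≤ Real.exp (14 * s + 28) := by
    calc k1 ^ 2 ≤ (Real.exp (7 * s + 14)) ^ 2 := pow_le_pow_left₀ (by linarith) hk 2
      _ = Real.exp (14 * s + 28) := by
          rw [← Real.exp_nat_mul]; congr 1; push_cast; ring
  have hk3 : k1 ^ 3 ≤ Real.exp (21 * s + 42) := by
    calc k1 ^ 3 ≤ (Real.exp (7 * s + 14)) ^ 3 := pow_le_pow_left₀ (by linarith) hk 3
      _ = Real.exp (21 * s + 42) := by
          rw [← Real.exp_nat_mul]; congr 1; push_cast; ring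
  -- Q
  set w : ℝ := Real.sqrt (x / 160) / U with hw
  have hw2 : w ^ 2 = x / (160 * (U : ℝ) ^ 2) := by
    rw [hw, div_pow, Real.sq_sqrt (by positivity), div_div]
  have hw2' : Real.exp (s ^ 2 - 2 * s - 10) ≤ w ^ 2 := by
    rw [hw2, ← hxe, le_div_iff₀ (by positivity)]
    have h1 : (U : ℝ) ^ 2 ≤ (2 * Real.exp s) ^ 2 := pow_le_pow_left₀ hUp.le hU2 2
    have h2 : (2 * Real.exp s) ^ 2 = 4 * Real.exp (2 * s) := by
      rw [mul_pow, ← Real.exp_nat_mul]; norm_num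
    have h3 : (640 : ℝ) ≤ Real.exp 10 :=
      le_trans (by norm_num) (two_pow_le_exp 10 10 (by norm_num))
    calc Real.exp (s ^ 2 - 2 * s - 10) * (160 * (U : ℝ) ^ 2)
        ≤ Real.exp (s ^ 2 - 2 * s - 10) * (160 * (4 * Real.exp (2 * s))) := by
          apply mul_le_mul_of_nonneg_left _ (Real.exp_pos _).le
          rw [← h2]; linarith
      _ = (640 : ℝ) * (Real.exp (s ^ 2 - 2 * s - 10) * Real.exp (2 * s)) := by ring
      _ ≤ Real.exp 10 * (Real.exp (s ^ 2 - 2 * s - 10) * Real.exp (2 * s)) :=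
          mul_le_mul_of_nonneg_right h3 (by positivity)
      _ = Real.exp (s ^ 2) := by
          rw [← Real.exp_add, ← Real.exp_add]; congr 1; ring
  have hw0 : 0 ≤ w := by positivity
  have hwbig : 2 ≤ w := by
    have h2 : 4 ≤ w ^ 2 := by
      refine le_trans ?_ hw2'
      exact le_trans (by norm_num) (two_pow_le_exp 2 (s ^ 2 - 2 * s - 10)
        (by push_cast; linarith))
    nlinarith only [h2, hw0]
  set Q : ℕ := ⌊w⌋₊ with hQdef
  have hQw : (Q : ℝ) ≤ w := Nat.floor_le hw0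
  have hwQ : w / 2 ≤ Q := by
    have := Nat.sub_one_lt_floor w
    linarith
  have hQ1r : (1 : ℝ) ≤ Q := by linarith
  have hQ1 : 1 ≤ Q := by exact_mod_cast hQ1r
  have hQ0 : (0 : ℝ) < Q := by linarith
  have hQ2 : Real.exp (s ^ 2 - 2 * s - 12) ≤ (Q : ℝ) ^ 2 := by
    have h1 : (w / 2) ^ 2 ≤ (Q : ℝ) ^ 2 := pow_le_pow_left₀ (by positivity) hwQ 2
    have h2 : (4 : ℝ) ≤ Real.exp 2 := le_trans (by norm_num) (two_pow_le_exp 2 2 (by norm_num))
    have h3 : Real.exp 2 * Real.exp (s ^ 2 - 2 * s - 12) = Real.exp (s ^ 2 - 2 * s - 10) := by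
      rw [← Real.exp_add]; congr 1; ring
    have h4 : 4 * Real.exp (s ^ 2 - 2 * s - 12) ≤ Real.exp 2 * Real.exp (s ^ 2 - 2 * s - 12) :=
      mul_le_mul_of_nonneg_right h2 (Real.exp_pos _).le
    have h5 : (w / 2) ^ 2 = w ^ 2 / 4 := by ring
    linarith
  have hQ2' : (Q : ℝ) ^ 2 ≤ x / (160 * (U : ℝ) ^ 2) := by
    rw [← hw2]; exact pow_le_pow_left₀ hQ0.le hQw 2
  have hQUx : 160 * ((Q : ℝ) ^ 2 * (U : ℝ) ^ 2) ≤ x := by
    rw [le_div_iff₀ (by positivity)] at hQ2'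
    linarith
  -- c and τ
  set c : ℝ := 1 / (36 * k1) with hc
  have hc0 : 0 < c := by positivity
  have hc1 : c ≤ 1 := by
    rw [hc, div_le_one (by positivity)]; linarith
  have hck : c * k1 = 1 / 36 := by rw [hc]; field_simp
  have hcQ : 4 ≤ c * (Q : ℝ) ^ 2 := by
    have h1 : 144 * k1 ≤ (Q : ℝ) ^ 2 := by
      refine le_trans ?_ hQ2
      have h2 : (144 : ℝ) ≤ Real.exp 8 :=
        le_trans (by norm_num) (two_pow_le_exp 8 8 (by norm_num))
      calc 144 * k1 ≤ Real.exp 8 * Real.exp (7 * s + 14) :=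
            mul_le_mul h2 hk (by linarith) (Real.exp_pos _).le
        _ = Real.exp (8 + (7 * s + 14)) := by rw [← Real.exp_add]
        _ ≤ Real.exp (s ^ 2 - 2 * s - 12) := Real.exp_le_exp.2 (by linarith)
    calc (4 : ℝ) = c * (144 * k1) := by rw [hc]; field_simp; norm_num
      _ ≤ c * (Q : ℝ) ^ 2 := mul_le_mul_of_nonneg_left h1 hc0.le
  set τ : ℝ := 6 / (c ^ 2 * (Q : ℝ) ^ 2) with hτ
  have hτeq : τ = 7776 * k1 ^ 2 / (Q : ℝ) ^ 2 := by
    rw [hτ, hc]; field_simp; norm_num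
  have hτ1 : τ ≤ 1 / 16 := by
    rw [hτeq, div_le_div_iff₀ (by positivity) (by norm_num)]
    have h2 : (7776 * 16 : ℝ) ≤ Real.exp 17 :=
      le_trans (by norm_num) (two_pow_le_exp 17 17 (by norm_num))
    have h3 : (7776 * 16 : ℝ) * k1 ^ 2 ≤ (Q : ℝ) ^ 2 := by
      calc (7776 * 16 : ℝ) * k1 ^ 2 ≤ Real.exp 17 * Real.exp (14 * s + 28) :=
            mul_le_mul h2 hk2 (by positivity) (Real.exp_pos _).le
        _ = Real.exp (17 + (14 * s + 28)) := by rw [← Real.exp_add]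
        _ ≤ Real.exp (s ^ 2 - 2 * s - 12) := Real.exp_le_exp.2 (by linarith)
        _ ≤ _ := hQ2
    linarith
  have hfac : 2 * (K.factorial : ℝ) * x ≤ (U : ℝ) ^ (K + 3) := by
    have h1 : (K.factorial : ℝ) ≤ Real.exp (s ^ 2) := by
      calc (K.factorial : ℝ) ≤ (K : ℝ) ^ K := by exact_mod_cast Nat.factorial_le_pow K
        _ ≤ (Real.exp (s / 3)) ^ K := pow_le_pow_left₀ (Nat.cast_nonneg _) hK3 K
        _ = Real.exp (K * (s / 3)) := by rw [← Real.exp_nat_mul]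
        _ ≤ Real.exp (s ^ 2) := by
            apply Real.exp_le_exp.2
            nlinarith only [hK2, hs100]
    have h2 : (2 : ℝ) ≤ Real.exp 1 := by
      have := Real.add_one_le_exp (1 : ℝ)
      linarith
    calc 2 * (K.factorial : ℝ) * x ≤ Real.exp 1 * Real.exp (s ^ 2) * Real.exp (s ^ 2) := by
          rw [hxe]
          apply mul_le_mul_of_nonneg_right _ (by linarith)
          rw [hxe] at h1
          exact mul_le_mul h2 h1 (by positivity) (Real.exp_pos _).le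
      _ = Real.exp (1 + s ^ 2 + s ^ 2) := by rw [Real.exp_add, Real.exp_add]
      _ ≤ Real.exp (((K + 3 : ℕ) : ℝ) * s) := by
          apply Real.exp_le_exp.2
          push_cast
          nlinarith only [hK1, hs100]
      _ = (Real.exp s) ^ (K + 3) := by rw [Real.exp_nat_mul]
      _ ≤ (U : ℝ) ^ (K + 3) := pow_le_pow_left₀ (Real.exp_pos s).le hyU _
  have hδτ : |δ| ≤ τ := by
    refine hδ.trans ?_
    rw [hτeq, div_le_div_iff₀ (by positivity) (by positivity)]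
    have h1 : 2 * (K.factorial : ℝ) * (Q : ℝ) ^ 2 * (160 * (U : ℝ) ^ 2) ≤
        7776 * (U : ℝ) ^ (K + 1) * (160 * (U : ℝ) ^ 2) := by
      calc 2 * (K.factorial : ℝ) * (Q : ℝ) ^ 2 * (160 * (U : ℝ) ^ 2)
          = 2 * (K.factorial : ℝ) * (160 * ((Q : ℝ) ^ 2 * (U : ℝ) ^ 2)) := by ring
        _ ≤ 2 * (K.factorial : ℝ) * x := mul_le_mul_of_nonneg_left hQUx (by positivity)
        _ ≤ (U : ℝ) ^ (K + 3) := hfac
        _ ≤ (7776 * 160) * (U : ℝ) ^ (K + 3) := by
            have : 0 ≤ (U : ℝ) ^ (K + 3) := by positivity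
            linarith
        _ = _ := by ring
    have h2 : 2 * (K.factorial : ℝ) * (Q : ℝ) ^ 2 ≤ 7776 * (U : ℝ) ^ (K + 1) :=
      le_of_mul_le_mul_right h1 (by positivity)
    have h3 : 7776 * (U : ℝ) ^ (K + 1) ≤ 7776 * k1 ^ 2 * (U : ℝ) ^ (K + 1) := by
      have : (1 : ℝ) ≤ k1 ^ 2 := one_le_pow₀ hk10
      have h4 : 0 ≤ (U : ℝ) ^ (K + 1) := by positivity
      have h5 := mul_le_mul_of_nonneg_right this h4
      linarith only [h5]
    linarith
  have hX : 10 * (Q : ℤ) ^ 2 * (16 * (U : ℤ) ^ 2) ≤ (x : ℤ) := by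
    have : (10 * (Q : ℝ) ^ 2 * (16 * (U : ℝ) ^ 2)) ≤ (x : ℝ) := by linarith only [hQUx]
    exact_mod_cast this
  have hT : 1 ≤ 16 * (U : ℤ) ^ 2 := by
    have : 1 ≤ U := by
      have : (0 : ℝ) < U := hUp
      exact_mod_cast this
    have h2 : (1 : ℤ) ≤ U := by exact_mod_cast this
    have h3 : (1 : ℤ) ≤ (U : ℤ) ^ 2 := one_le_pow₀ h2
    linarith only [h3]
  have hmain := main_ineq F hF (x : ℤ) (16 * (U : ℤ) ^ 2) l hl hprod hT Q hQ1 c hc0 hc1 hcQ hX τ hτ
    hτ1 δ hδτ hdir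
  rw [← hk1] at hmain
  set N : ℝ := ((Opp F (x : ℤ)).card : ℝ) with hN
  have hpi := Real.pi_pos
  have h1 : 1 ≤ 48 * τ * k1 * N := by
    have : 2 * Real.pi ≤ Real.pi * (36 * (c * k1)) + Real.pi * (48 * τ * k1 * N) := by
      linarith [hmain, show k1 * (36 * Real.pi * c + 48 * Real.pi * τ * N) =
        Real.pi * (36 * (c * k1)) + Real.pi * (48 * τ * k1 * N) by ring]
    rw [hck] at this
    have h2 : Real.pi * 1 ≤ Real.pi * (48 * τ * k1 * N) := by linarith
    exact le_of_mul_le_mul_left h2 hpi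
  have h2 : (Q : ℝ) ^ 2 ≤ 373248 * k1 ^ 3 * N := by
    rw [hτeq] at h1
    have h3 : 48 * (7776 * k1 ^ 2 / (Q : ℝ) ^ 2) * k1 * N = 373248 * k1 ^ 3 * N / (Q : ℝ) ^ 2 := by
      ring
    rw [h3, le_div_iff₀ (by positivity), one_mul] at h1
    exact h1
  have hN0 : 0 ≤ N := Nat.cast_nonneg _
  have h3 : Real.exp (s ^ 2 - 2 * s - 12) ≤ Real.exp (21 * s + 61) * N := by
    have h4 : (373248 : ℝ) ≤ Real.exp 19 :=
      le_trans (by norm_num) (two_pow_le_exp 19 19 (by norm_num))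
    calc Real.exp (s ^ 2 - 2 * s - 12) ≤ 373248 * k1 ^ 3 * N := hQ2.trans h2
      _ ≤ Real.exp 19 * Real.exp (21 * s + 42) * N := by
          apply mul_le_mul_of_nonneg_right _ hN0
          exact mul_le_mul h4 hk3 (by positivity) (Real.exp_pos _).le
      _ = Real.exp (21 * s + 61) * N := by
          rw [← Real.exp_add]; congr 2; ring
  calc (x : ℝ) * Real.exp (-(24 * s)) = Real.exp (s ^ 2) * Real.exp (-(24 * s)) := by rw [hxe]
    _ = Real.exp (s ^ 2 - 24 * s) := by rw [← Real.exp_add]; congr 1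
    _ ≤ Real.exp (s ^ 2 - 2 * s - 12 - (21 * s + 61)) := Real.exp_le_exp.2 (by linarith)
    _ = Real.exp (s ^ 2 - 2 * s - 12) / Real.exp (21 * s + 61) := Real.exp_sub _ _
    _ ≤ N := by
        rw [div_le_iff₀ (Real.exp_pos _), mul_comm N]
        exact h3

/-! ### From opposite pairs to values of `m ^ 2 + 1` -/

theorem opp_sq_le (F : ℤ × ℤ → ℤ) (P : ℕ → Prop) [DecidablePred P]
    (hP : ∀ (X : ℤ) (p q : ℤ × ℤ), IsOpp F X p q → P (dp p q).natAbs) (x : ℕ) (hx1 : 1 ≤ x) :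
    ((Opp F (x : ℤ)).card : ℝ) ^ 2 ≤ ((Finset.range (x + 1)).filter P).card *
      (832 * x * (1 + Real.log x) ^ 32) := by
  classical
  set S : Finset ℕ := (Finset.range (x + 1)).filter P with hS
  have hlab : ∀ r ∈ Opp F (x : ℤ), dt r.1 r.2 = 1 ∧ (dp r.1 r.2).natAbs ∈ S := by
    intro r hr
    rw [mem_Opp] at hr
    refine ⟨hr.1, ?_⟩
    rw [hS, Finset.mem_filter, Finset.mem_range]
    refine ⟨?_, hP _ _ _ hr⟩
    have h1 := dp_sq_add_dt_sq r.1 r.2
    rw [hr.1] at h1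
    have h2 : Nm r.1 * Nm r.2 ≤ (x : ℤ) * x :=
      mul_le_mul hr.2.1 hr.2.2.1 (Nm_nonneg _) (by positivity)
    have h3 : ((dp r.1 r.2).natAbs : ℤ) ^ 2 ≤ (x : ℤ) ^ 2 := by
      rw [Int.natAbs_sq]; linarith
    have h4 : ((dp r.1 r.2).natAbs : ℤ) ≤ x := by
      exact le_of_sq_le_sq h3 (by positivity)
    have : (dp r.1 r.2).natAbs ≤ x := by exact_mod_cast h4
    omega
  have hsum : (Opp F (x : ℤ)).card =
      ∑ m ∈ S, ((Opp F (x : ℤ)).filter (fun r => (dp r.1 r.2).natAbs = m)).card :=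
    Finset.card_eq_sum_card_fiberwise (fun r hr => (hlab r hr).2)
  have hfib : ∀ m ∈ S, ((Opp F (x : ℤ)).filter (fun r => (dp r.1 r.2).natAbs = m)).card ≤
      8 * tau (m ^ 2 + 1) := by
    intro m _
    have := opp_card ((Opp F (x : ℤ)).filter (fun r => (dp r.1 r.2).natAbs = m)) {m}
      (tau (m ^ 2 + 1)) ?_ ?_
    · simpa using this
    · intro r hr
      rw [Finset.mem_filter] at hr
      exact ⟨(hlab r hr.1).1, by simp [hr.2]⟩
    · intro m' hm'
      rw [Finset.mem_singleton] at hm'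
      subst hm'
      exact le_rfl
  have h1 : ((Opp F (x : ℤ)).card : ℝ) ≤ ∑ m ∈ S, 8 * (tau (m ^ 2 + 1) : ℝ) := by
    have : (Opp F (x : ℤ)).card ≤ ∑ m ∈ S, 8 * tau (m ^ 2 + 1) := by
      rw [hsum]; exact Finset.sum_le_sum hfib
    exact_mod_cast this
  have h2 : (∑ m ∈ S, 8 * (tau (m ^ 2 + 1) : ℝ)) ^ 2 ≤
      S.card * ∑ m ∈ S, (8 * (tau (m ^ 2 + 1) : ℝ)) ^ 2 := sq_sum_le_card_mul_sum_sq
  have h3 : ∑ m ∈ S, (8 * (tau (m ^ 2 + 1) : ℝ)) ^ 2 ≤ 832 * x * (1 + Real.log x) ^ 32 := by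
    have hx1r : (1 : ℝ) ≤ x := by exact_mod_cast hx1
    have hlog : 0 ≤ Real.log x := Real.log_nonneg hx1r
    have h4 : ∑ m ∈ S, (8 * (tau (m ^ 2 + 1) : ℝ)) ^ 2 ≤
        ∑ m ∈ insert 0 (Finset.Icc 1 x), (8 * (tau (m ^ 2 + 1) : ℝ)) ^ 2 := by
      apply Finset.sum_le_sum_of_subset_of_nonneg
      · intro m hm
        rw [hS, Finset.mem_filter, Finset.mem_range] at hm
        rw [Finset.mem_insert, Finset.mem_Icc]
        omega
      · intro m _ _
        positivity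
    have h5 : ∑ m ∈ insert 0 (Finset.Icc 1 x), (8 * (tau (m ^ 2 + 1) : ℝ)) ^ 2 =
        64 + 64 * ∑ m ∈ Finset.Icc 1 x, (tau (m ^ 2 + 1) : ℝ) ^ 2 := by
      rw [Finset.sum_insert (by simp), Finset.mul_sum]
      congr 1
      · simp [tau]; norm_num
      · refine Finset.sum_congr rfl fun m _ => ?_
        ring
    have h6 := second_moment x hx1
    have h7 : (1 : ℝ) ≤ x * (1 + Real.log x) ^ 32 :=
      one_le_mul_of_one_le_of_one_le hx1r (one_le_pow₀ (by linarith))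
    rw [h5] at h4
    linarith
  have hS0 : (0 : ℝ) ≤ S.card := Nat.cast_nonneg _
  calc ((Opp F (x : ℤ)).card : ℝ) ^ 2 ≤ (∑ m ∈ S, 8 * (tau (m ^ 2 + 1) : ℝ)) ^ 2 :=
        pow_le_pow_left₀ (Nat.cast_nonneg _) h1 2
    _ ≤ _ := h2
    _ ≤ _ := mul_le_mul_of_nonneg_left h3 hS0

theorem count_large2 (F : ℤ × ℤ → ℤ) (hF : SignFn F) (z0 : ℤ × ℤ) (h0 : Odd (Nm z0))
    (hz0 : F z0 = -1) (P : ℕ → Prop) [DecidablePred P]
    (hP : ∀ (X : ℤ) (p q : ℤ × ℤ), IsOpp F X p q → P (dp p q).natAbs) :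
    ∀ᶠ x : ℕ in atTop, (x : ℝ) * Real.exp (-(50 * Real.sqrt (Real.log x))) ≤
      ((Finset.range (x + 1)).filter P).card := by
  have hst : Tendsto (fun x : ℕ => Real.sqrt (Real.log x)) atTop atTop :=
    Real.tendsto_sqrt_atTop.comp (Real.tendsto_log_atTop.comp tendsto_natCast_atTop_atTop)
  have hpoly : ∀ᶠ s : ℝ in atTop, 832 * 2 ^ 32 * (s ^ 64 * Real.exp (-s)) ≤ 1 := by
    have h1 := (Real.tendsto_pow_mul_exp_neg_atTop_nhds_zero 64).const_mul (832 * 2 ^ 32 : ℝ)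
    rw [mul_zero] at h1
    exact h1.eventually_le_const one_pos
  filter_upwards [opp_large2 F hF z0 h0 hz0, hst.eventually_ge_atTop 1, hst.eventually hpoly,
    eventually_ge_atTop 1] with x hx hs1 hp hx1
  have hsq := opp_sq_le F P hP x hx1
  set s : ℝ := Real.sqrt (Real.log x) with hs
  have hx1r : (1 : ℝ) ≤ x := by exact_mod_cast hx1
  have hx0 : (0 : ℝ) < x := by linarith
  have hs2 : Real.log x = s ^ 2 := (Real.sq_sqrt (Real.log_nonneg hx1r)).symm
  rw [hs2] at hsq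
  set S : ℝ := (((Finset.range (x + 1)).filter P).card : ℝ) with hS
  have hS0 : 0 ≤ S := Nat.cast_nonneg _
  have h1 : (1 + s ^ 2) ^ 32 ≤ 2 ^ 32 * s ^ 64 := by
    calc (1 + s ^ 2) ^ 32 ≤ (2 * s ^ 2) ^ 32 := by
          apply pow_le_pow_left₀ (by positivity)
          nlinarith only [hs1]
      _ = 2 ^ 32 * s ^ 64 := by rw [mul_pow, ← pow_mul]
  have h2 : 832 * (1 + s ^ 2) ^ 32 ≤ Real.exp s := by
    have h3 : 832 * 2 ^ 32 * s ^ 64 ≤ Real.exp s := by
      have h4 := mul_le_mul_of_nonneg_right hp (Real.exp_pos s).le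
      have h5 : 832 * 2 ^ 32 * (s ^ 64 * Real.exp (-s)) * Real.exp s = 832 * 2 ^ 32 * s ^ 64 := by
        have h6 : Real.exp (-s) * Real.exp s = 1 := by rw [← Real.exp_add]; simp
        calc 832 * 2 ^ 32 * (s ^ 64 * Real.exp (-s)) * Real.exp s
            = 832 * 2 ^ 32 * s ^ 64 * (Real.exp (-s) * Real.exp s) := by ring
          _ = _ := by rw [h6, mul_one]
      rw [h5] at h4
      linarith
    linarith
  have h3 : (x * Real.exp (-(24 * s))) ^ 2 ≤ S * (x * Real.exp s) := by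
    calc (x * Real.exp (-(24 * s))) ^ 2 ≤ ((Opp F (x : ℤ)).card : ℝ) ^ 2 :=
          pow_le_pow_left₀ (by positivity) hx 2
      _ ≤ S * (832 * x * (1 + s ^ 2) ^ 32) := hsq
      _ ≤ S * (x * Real.exp s) := by
          apply mul_le_mul_of_nonneg_left _ hS0
          have := mul_le_mul_of_nonneg_left h2 hx0.le
          linarith
  have h4 : (x * Real.exp (-(24 * s))) ^ 2 = (x * Real.exp (-(49 * s))) * (x * Real.exp s) := by
    have : Real.exp (-(24 * s)) ^ 2 = Real.exp (-(49 * s)) * Real.exp s := by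
      rw [← Real.exp_add, ← Real.exp_nat_mul]; congr 1; push_cast; ring
    rw [mul_pow, this]; ring
  rw [h4] at h3
  have h5 : x * Real.exp (-(49 * s)) ≤ S := le_of_mul_le_mul_right h3 (by positivity)
  refine le_trans ?_ h5
  apply mul_le_mul_of_nonneg_left _ hx0.le
  apply Real.exp_le_exp.2
  linarith

/-- The general theorem. -/
theorem general2 (L : ℕ → ℤ) (h1 : ∀ n, 0 < n → L n = 1 ∨ L n = -1)
    (h2 : ∀ m n, 0 < m → 0 < n → L (m * n) = L m * L n) :
    ((∃ n0 : ℕ, Even n0 ∧ L (n0 ^ 2 + 1) = -1) →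
      ∀ᶠ x : ℕ in atTop, (x : ℝ) * Real.exp (-(50 * Real.sqrt (Real.log x))) ≤
        ((Finset.range (x + 1)).filter (fun m => Even m ∧ L (m ^ 2 + 1) = -1)).card) ∧
    ∀ᶠ x : ℕ in atTop, (x : ℝ) * Real.exp (-(50 * Real.sqrt (Real.log x))) ≤
      ((Finset.range (x + 1)).filter (fun m => Even m ∧ L (m ^ 2 + 1) = 1)).card := by
  constructor
  · rintro ⟨n0, hn0, hL⟩
    have e : Nm ((n0 : ℤ), 1) = ((n0 ^ 2 + 1 : ℕ) : ℤ) := by unfold Nm; push_cast; ring
    have hodd : Odd (Nm ((n0 : ℤ), 1)) := by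
      rw [e]
      have : Odd (n0 ^ 2 + 1) := (hn0.pow_of_ne_zero (by norm_num)).add_one
      exact_mod_cast this
    refine count_large2 (FL L) (signFn_FL h1 h2) ((n0 : ℤ), 1) hodd ?_ _ ?_
    · rw [FL_of_odd L hodd, e, Int.natAbs_natCast, hL]
    · intro X p q h
      refine ⟨(label h).1, ?_⟩
      rw [L_label h2 h]
      have h3 := h.2.2.2.2.2
      rcases (signFn_FL h1 h2).pm p with h4 | h4 <;> rcases (signFn_FL h1 h2).pm q with h5 | h5 <;>
        rw [h4, h5] at h3 ⊢ <;> simp at h3 ⊢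
  · have e : Nm ((0 : ℤ), 1) = 1 := by unfold Nm; norm_num
    have hodd : Odd (Nm ((0 : ℤ), 1)) := by rw [e]; exact odd_one
    refine count_large2 (FK L) (signFn_FK h1 h2) ((0 : ℤ), 1) hodd ?_ _ ?_
    · unfold FK
      rw [FL_of_odd L hodd, e, Int.natAbs_one]
      have h3 : L 1 = L 1 * L 1 := by simpa using h2 1 1 one_pos one_pos
      have h4 : L 1 = 1 := by
        rcases h1 1 one_pos with h | h
        · exact h
        · rw [h] at h3; norm_num at h3
      rw [h4]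
      unfold kap; simp
    · intro X p q h
      refine ⟨(label h).1, ?_⟩
      rw [L_label h2 h]
      have h3 := h.2.2.2.2.2
      have h6 := kap_adj h.1 h.2.2.2.1 h.2.2.2.2.1
      unfold FK at h3
      rcases (signFn_FL h1 h2).pm p with h4 | h4 <;> rcases (signFn_FL h1 h2).pm q with h5 | h5 <;>
        rcases kap_pm p with h7 | h7 <;> rcases kap_pm q with h8 | h8 <;>
        rw [h4, h5, h7, h8] at h3 <;> rw [h7, h8] at h6 <;> rw [h4, h5] <;> simp at h3 h6 ⊢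

/-- The Liouville case. -/
theorem liouville2 :
    (∀ᶠ x : ℕ in atTop, (x : ℝ) * Real.exp (-(50 * Real.sqrt (Real.log x))) ≤
      ((Finset.range (x + 1)).filter (fun m => Even m ∧
        Odd (ArithmeticFunction.cardFactors (m ^ 2 + 1)))).card) ∧
    (∀ᶠ x : ℕ in atTop, (x : ℝ) * Real.exp (-(50 * Real.sqrt (Real.log x))) ≤
      ((Finset.range (x + 1)).filter (fun m => Even m ∧
        Even (ArithmeticFunction.cardFactors (m ^ 2 + 1)))).card) := by
  set L : ℕ → ℤ := fun n => (-1) ^ (ArithmeticFunction.cardFactors n) with hL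
  have h1 : ∀ n, 0 < n → L n = 1 ∨ L n = -1 := fun n _ => neg_one_pow_eq_or ℤ _
  have h2 : ∀ m n, 0 < m → 0 < n → L (m * n) = L m * L n := by
    intro m n hm hn
    simp only [hL]
    rw [ArithmeticFunction.cardFactors_mul hm.ne' hn.ne', pow_add]
  have ho : ∀ n, L n = -1 ↔ Odd (ArithmeticFunction.cardFactors n) := by
    intro n
    simp only [hL]
    constructor
    · intro h
      by_contra hcon
      rw [Nat.not_odd_iff_even] at hcon
      rw [hcon.neg_one_pow] at h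
      norm_num at h
    · exact fun h => h.neg_one_pow
  have he : ∀ n, L n = 1 ↔ Even (ArithmeticFunction.cardFactors n) := by
    intro n
    simp only [hL]
    constructor
    · intro h
      by_contra hcon
      rw [Nat.not_even_iff_odd] at hcon
      rw [hcon.neg_one_pow] at h
      norm_num at h
    · exact fun h => h.neg_one_pow
  have hg := general2 L h1 h2
  constructor
  · have h3 : ∃ n0 : ℕ, Even n0 ∧ L (n0 ^ 2 + 1) = -1 := by
      refine ⟨2, even_two, ?_⟩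
      rw [ho]
      have : Nat.Prime (2 ^ 2 + 1) := by norm_num
      rw [ArithmeticFunction.cardFactors_apply_prime this]
      exact odd_one
    filter_upwards [hg.1 h3] with x hx
    refine hx.trans (le_of_eq ?_)
    congr 2
    ext m
    simp only [Finset.mem_filter, ho]
  · filter_upwards [hg.2] with x hx
    refine hx.trans (le_of_eq ?_)
    congr 2
    ext m
    simp only [Finset.mem_filter, he]

end Pool.Agent.ParityQuad
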