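import Mathlib

/-!
# Moments of the square of a polynomial, and the corresponding sums of `arctan`
-/

set_option autoImplicit false

namespace Pool.Agent.ParityQuad

open Finset MeasureTheory

/-- the polynomial with coefficients `c` -/
noncomputable def SS (c : ℕ → ℤ) (n : ℕ) (x : ℝ) : ℝ := ∑ i ∈ range n, (c i : ℝ) * x ^ i

/-- the moments of its square -/
noncomputable def HH (c : ℕ → ℤ) (n k : ℕ) : ℝ :=
  ∫ x in (0 : ℝ)..1, x ^ k * SS c n x ^ 2

/-- sum of `arctan (y / (k + i + j + 1))` -/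
noncomputable def AA (c : ℕ → ℤ) (n k : ℕ) (y : ℝ) : ℝ :=
  ∑ i ∈ range n, ∑ j ∈ range n, ((c i : ℝ) * (c j : ℝ)) *
    Real.arctan (y / ((k : ℝ) + i + j + 1))

/-- its derivative -/
noncomputable def GG (c : ℕ → ℤ) (n k : ℕ) (y : ℝ) : ℝ :=
  ∑ i ∈ range n, ∑ j ∈ range n, ((c i : ℝ) * (c j : ℝ)) *
    (((k : ℝ) + i + j + 1) / (((k : ℝ) + i + j + 1) ^ 2 + y ^ 2))

theorem continuous_SS (c : ℕ → ℤ) (n : ℕ) : Continuous (SS c n) := by
  unfold SS
  fun_prop

theorem SS_sq (c : ℕ → ℤ) (n k : ℕ) (x g : ℝ) : x ^ k * g * SS c n x ^ 2 =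
    ∑ i ∈ range n, ∑ j ∈ range n, ((c i : ℝ) * (c j : ℝ)) * (x ^ (k + i + j) * g) := by
  unfold SS
  rw [sq, sum_mul_sum, mul_sum]
  refine sum_congr rfl fun i _ => ?_
  rw [mul_sum]
  refine sum_congr rfl fun j _ => ?_
  rw [pow_add, pow_add]
  ring

theorem HH_eq (c : ℕ → ℤ) (n k : ℕ) : HH c n k =
    ∑ i ∈ range n, ∑ j ∈ range n, ((c i : ℝ) * (c j : ℝ)) * (1 / ((k : ℝ) + i + j + 1)) := by
  unfold HH
  have h1 : ∀ x : ℝ, x ^ k * SS c n x ^ 2 =
      ∑ i ∈ range n, ∑ j ∈ range n, ((c i : ℝ) * (c j : ℝ)) * x ^ (k + i + j) := by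
    intro x
    have := SS_sq c n k x 1
    simpa using this
  simp_rw [h1]
  rw [intervalIntegral.integral_finsetSum (fun i _ => by
    apply Continuous.intervalIntegrable; fun_prop)]
  refine sum_congr rfl fun i _ => ?_
  rw [intervalIntegral.integral_finsetSum (fun j _ => by
    apply Continuous.intervalIntegrable; fun_prop)]
  refine sum_congr rfl fun j _ => ?_
  rw [intervalIntegral.integral_const_mul, integral_pow]
  simp

theorem int_cos (k : ℕ) (hk : 1 ≤ k) (s : ℝ) :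
    IntervalIntegrable (fun x : ℝ => x ^ k * Real.cos (s * Real.log x)) volume 0 1 ∧
    ∫ x in (0 : ℝ)..1, x ^ k * Real.cos (s * Real.log x) =
      ((k : ℝ) + 1) / (((k : ℝ) + 1) ^ 2 + s ^ 2) := by
  set r : ℂ := (k : ℂ) + (s : ℂ) * Complex.I with hr
  have hre : r.re = k := by simp [hr]
  have him : r.im = s := by simp [hr]
  have hk1 : (1 : ℝ) ≤ k := by exact_mod_cast hk
  have hr1 : -1 < r.re := by rw [hre]; linarith
  have hrne : r ≠ 0 := by
    intro h
    rw [h, Complex.zero_re] at hre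
    linarith
  have h1 : IntervalIntegrable (fun x : ℝ => (x : ℂ) ^ r) volume 0 1 :=
    intervalIntegral.intervalIntegrable_cpow' hr1
  have h2 := integral_cpow (a := 0) (b := 1) (r := r) (Or.inl hr1)
  have hr10 : r + 1 ≠ 0 := by
    intro h
    have := congrArg Complex.re h
    simp [hre] at this
    linarith
  have hpt : ∀ x ∈ Set.uIcc (0 : ℝ) 1, ((x : ℂ) ^ r).re =
      x ^ k * Real.cos (s * Real.log x) := by
    intro x hx
    rw [Set.uIcc_of_le zero_le_one] at hx
    rcases hx.1.eq_or_lt with h0 | h0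
    · rw [← h0]
      rw [Complex.ofReal_zero, Complex.zero_cpow hrne, zero_pow (by omega)]
      simp
    · rw [Complex.cpow_def_of_ne_zero (by exact_mod_cast h0.ne'), ← Complex.ofReal_log h0.le,
        Complex.exp_re]
      have e1 : ((Real.log x : ℂ) * r).re = k * Real.log x := by
        rw [Complex.re_ofReal_mul, hre]; ring
      have e2 : ((Real.log x : ℂ) * r).im = s * Real.log x := by
        rw [Complex.im_ofReal_mul, him]; ring
      rw [e1, e2, Real.exp_nat_mul, Real.exp_log h0]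
  constructor
  · rw [intervalIntegrable_iff_integrableOn_Ioc_of_le zero_le_one] at h1 ⊢
    have h3 : IntegrableOn (fun x : ℝ => ((x : ℂ) ^ r).re) (Set.Ioc 0 1) volume := h1.re
    refine h3.congr_fun (fun x hx => ?_) measurableSet_Ioc
    apply hpt
    rw [Set.uIcc_of_le zero_le_one]
    exact Set.Ioc_subset_Icc_self hx
  · have h3 : ∫ x in (0 : ℝ)..1, x ^ k * Real.cos (s * Real.log x) =
        ∫ x in (0 : ℝ)..1, ((x : ℂ) ^ r).re := by
      refine intervalIntegral.integral_congr fun x hx => ?_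
      exact (hpt x hx).symm
    have h4 := Complex.reCLM.intervalIntegral_comp_comm h1
    simp only [Complex.reCLM_apply] at h4
    rw [h3, h4, h2]
    rw [Complex.ofReal_one, Complex.ofReal_zero, Complex.one_cpow, Complex.zero_cpow hr10,
      sub_zero, Complex.div_re]
    have e3 : (r + 1).re = (k : ℝ) + 1 := by simp [hre]
    have e4 : (r + 1).im = s := by simp [him]
    rw [Complex.normSq_apply, e3, e4]
    simp
    ring

theorem GG_eq (c : ℕ → ℤ) (n k : ℕ) (hk : 1 ≤ k) (s : ℝ) :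
    IntervalIntegrable (fun x : ℝ => x ^ k * Real.cos (s * Real.log x) * SS c n x ^ 2)
      volume 0 1 ∧
    GG c n k s = ∫ x in (0 : ℝ)..1, x ^ k * Real.cos (s * Real.log x) * SS c n x ^ 2 := by
  have h1 : (fun x : ℝ => x ^ k * Real.cos (s * Real.log x) * SS c n x ^ 2) = fun x =>
      ∑ i ∈ range n, ∑ j ∈ range n, ((c i : ℝ) * (c j : ℝ)) *
        (x ^ (k + i + j) * Real.cos (s * Real.log x)) := by
    funext x
    exact SS_sq c n k x _
  have hint : ∀ i j : ℕ, IntervalIntegrable (fun x : ℝ => ((c i : ℝ) * (c j : ℝ)) *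
      (x ^ (k + i + j) * Real.cos (s * Real.log x))) volume 0 1 := fun i j =>
    (int_cos (k + i + j) (by omega) s).1.const_mul _
  have hint2 : ∀ i : ℕ, IntervalIntegrable (fun x : ℝ => ∑ j ∈ range n,
      ((c i : ℝ) * (c j : ℝ)) * (x ^ (k + i + j) * Real.cos (s * Real.log x))) volume 0 1 := by
    intro i
    have := IntervalIntegrable.sum (range n) (fun j _ => hint i j)
    simpa [Finset.sum_fn] using this
  constructor
  · rw [h1]
    have := IntervalIntegrable.sum (range n) (fun i _ => hint2 i)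
    simpa [Finset.sum_fn] using this
  · rw [h1, intervalIntegral.integral_finsetSum (fun i _ => hint2 i)]
    unfold GG
    refine sum_congr rfl fun i _ => ?_
    rw [intervalIntegral.integral_finsetSum (fun j _ => hint i j)]
    refine sum_congr rfl fun j _ => ?_
    rw [intervalIntegral.integral_const_mul, (int_cos (k + i + j) (by omega) s).2]
    push_cast
    ring

theorem mul_log_sq_le (x : ℝ) (hx : 0 < x) (hx1 : x ≤ 1) : x * (Real.log x) ^ 2 ≤ 4 := by
  have h1 : 0 < Real.sqrt x := Real.sqrt_pos.2 hx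
  have h2 := Real.log_le_sub_one_of_pos (inv_pos.2 h1)
  rw [Real.log_inv, Real.log_sqrt hx.le] at h2
  have h3 : -(Real.log x) ≤ 2 * (Real.sqrt x)⁻¹ := by linarith
  have h4 : 0 ≤ -(Real.log x) := by
    have := Real.log_nonpos hx.le hx1
    linarith
  have h5 : (Real.log x) ^ 2 ≤ (2 * (Real.sqrt x)⁻¹) ^ 2 := by
    have := pow_le_pow_left₀ h4 h3 2
    rwa [neg_sq] at this
  have h6 : (2 * (Real.sqrt x)⁻¹) ^ 2 = 4 / x := by
    rw [mul_pow, inv_pow, Real.sq_sqrt hx.le]; norm_num; ring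
  rw [h6, le_div_iff₀ hx] at h5
  linarith

theorem GG_le (c : ℕ → ℤ) (n k : ℕ) (hk : 1 ≤ k) (s : ℝ) : GG c n k s ≤ HH c n k := by
  obtain ⟨hi, he⟩ := GG_eq c n k hk s
  rw [he, HH]
  apply intervalIntegral.integral_mono_on zero_le_one hi
  · apply Continuous.intervalIntegrable
    have := continuous_SS c n
    fun_prop
  · intro x hx
    have h1 := Real.cos_le_one (s * Real.log x)
    have h2 : 0 ≤ x ^ k * SS c n x ^ 2 := by
      have := hx.1
      positivity
    nlinarith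

theorem le_GG (c : ℕ → ℤ) (n k : ℕ) (s : ℝ) :
    HH c n (k + 1) - 2 * s ^ 2 * HH c n k ≤ GG c n (k + 1) s := by
  obtain ⟨hi, he⟩ := GG_eq c n (k + 1) (by omega) s
  have hc1 : IntervalIntegrable (fun x : ℝ => x ^ (k + 1) * SS c n x ^ 2) volume 0 1 := by
    apply Continuous.intervalIntegrable
    have := continuous_SS c n
    fun_prop
  have hc2 : IntervalIntegrable (fun x : ℝ => 2 * s ^ 2 * (x ^ k * SS c n x ^ 2)) volume 0 1 := by
    apply Continuous.intervalIntegrable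
    have := continuous_SS c n
    fun_prop
  rw [he, HH, HH, ← intervalIntegral.integral_const_mul, ← intervalIntegral.integral_sub hc1 hc2]
  apply intervalIntegral.integral_mono_on zero_le_one (hc1.sub hc2) hi
  intro x hx
  rcases hx.1.eq_or_lt with h0 | h0
  · rw [← h0]
    have h2 : 0 ≤ 2 * s ^ 2 * ((0 : ℝ) ^ k * SS c n 0 ^ 2) := by positivity
    simp only [ne_eq, Nat.add_eq_zero_iff, one_ne_zero, and_false, not_false_eq_true, zero_pow,
      zero_mul]
    linarith
  · have h1 := mul_log_sq_le x h0 hx.2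
    have h2 := Real.one_sub_sq_div_two_le_cos (x := s * Real.log x)
    have h3 : 0 ≤ x ^ k * SS c n x ^ 2 := by positivity
    have h4 : x * (1 - (s * Real.log x) ^ 2 / 2) ≤ x * Real.cos (s * Real.log x) :=
      mul_le_mul_of_nonneg_left h2 h0.le
    have h5 : x - 2 * s ^ 2 ≤ x * (1 - (s * Real.log x) ^ 2 / 2) := by
      have : s ^ 2 * (x * Real.log x ^ 2) ≤ s ^ 2 * 4 :=
        mul_le_mul_of_nonneg_left h1 (sq_nonneg s)
      nlinarith
    have h6 : (x ^ k * SS c n x ^ 2) * (x - 2 * s ^ 2) ≤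
        (x ^ k * SS c n x ^ 2) * (x * Real.cos (s * Real.log x)) :=
      mul_le_mul_of_nonneg_left (h5.trans h4) h3
    calc x ^ (k + 1) * SS c n x ^ 2 - 2 * s ^ 2 * (x ^ k * SS c n x ^ 2)
        = (x ^ k * SS c n x ^ 2) * (x - 2 * s ^ 2) := by ring
      _ ≤ _ := h6
      _ = _ := by ring

theorem hasDerivAt_AA (c : ℕ → ℤ) (n k : ℕ) (y : ℝ) :
    HasDerivAt (AA c n k) (GG c n k y) y := by
  unfold AA GG
  refine HasDerivAt.fun_sum fun i _ => ?_
  refine HasDerivAt.fun_sum fun j _ => ?_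
  have hu : (0 : ℝ) < (k : ℝ) + i + j + 1 := by positivity
  set u : ℝ := (k : ℝ) + i + j + 1 with hudef
  have h1 : HasDerivAt (fun y : ℝ => y / u) (1 / u) y := (hasDerivAt_id y).div_const u
  have h2 := h1.arctan
  have h3 : 1 / (1 + (y / u) ^ 2) * (1 / u) = u / (u ^ 2 + y ^ 2) := by
    have : 0 < u ^ 2 + y ^ 2 := by positivity
    field_simp
  rw [h3] at h2
  exact h2.const_mul _

theorem AA_zero (c : ℕ → ℤ) (n k : ℕ) : AA c n k 0 = 0 := by
  simp [AA]

/-- upper bound -/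
theorem AA_le (c : ℕ → ℤ) (n k : ℕ) (hk : 1 ≤ k) (y : ℝ) (hy : 0 ≤ y) :
    AA c n k y ≤ y * HH c n k := by
  have hd : ∀ z, HasDerivAt (fun z => z * HH c n k - AA c n k z)
      (1 * HH c n k - GG c n k z) z := fun z =>
    ((hasDerivAt_id z).mul_const _).sub (hasDerivAt_AA c n k z)
  have hm : Monotone (fun z => z * HH c n k - AA c n k z) := by
    apply monotone_of_deriv_nonneg (fun z => (hd z).differentiableAt)
    intro z
    rw [(hd z).deriv]
    have := GG_le c n k hk z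
    linarith
  have := hm hy
  simp only [AA_zero] at this
  linarith

/-- lower bound -/
theorem le_AA (c : ℕ → ℤ) (n k : ℕ) (y : ℝ) (hy : 0 ≤ y) :
    y * HH c n (k + 1) - 2 / 3 * y ^ 3 * HH c n k ≤ AA c n (k + 1) y := by
  have hd : ∀ z, HasDerivAt
      (fun z => AA c n (k + 1) z - (z * HH c n (k + 1) - 2 / 3 * z ^ 3 * HH c n k))
      (GG c n (k + 1) z - (1 * HH c n (k + 1) - 2 / 3 * (3 * z ^ 2) * HH c n k)) z := by
    intro z
    refine (hasDerivAt_AA c n (k + 1) z).sub ?_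
    refine ((hasDerivAt_id z).mul_const _).sub ?_
    refine HasDerivAt.mul_const ?_ _
    refine HasDerivAt.const_mul _ ?_
    simpa using hasDerivAt_pow 3 z
  have hm : Monotone
      (fun z => AA c n (k + 1) z - (z * HH c n (k + 1) - 2 / 3 * z ^ 3 * HH c n k)) := by
    apply monotone_of_deriv_nonneg (fun z => (hd z).differentiableAt)
    intro z
    rw [(hd z).deriv]
    have := le_GG c n k z
    linarith
  have := hm hy
  simp only [AA_zero] at this
  linarith

/-! ### Log-convexity -/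

theorem HH_convex (c : ℕ → ℤ) (n k : ℕ) (l : ℝ) :
    0 ≤ HH c n (k + 2) - 2 * l * HH c n (k + 1) + l ^ 2 * HH c n k := by
  have hcont := continuous_SS c n
  have h1 : HH c n (k + 2) - 2 * l * HH c n (k + 1) + l ^ 2 * HH c n k =
      ∫ x in (0 : ℝ)..1, x ^ k * (x - l) ^ 2 * SS c n x ^ 2 := by
    unfold HH
    rw [← intervalIntegral.integral_const_mul, ← intervalIntegral.integral_const_mul,
      ← intervalIntegral.integral_sub, ← intervalIntegral.integral_add]
    · refine intervalIntegral.integral_congr fun x _ => ?_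
      ring
    · apply Continuous.intervalIntegrable; fun_prop
    · apply Continuous.intervalIntegrable; fun_prop
    · apply Continuous.intervalIntegrable; fun_prop
    · apply Continuous.intervalIntegrable; fun_prop
  rw [h1]
  apply intervalIntegral.integral_nonneg zero_le_one
  intro x hx
  have := hx.1
  positivity

theorem HH_succ_le (c : ℕ → ℤ) (n k : ℕ) : HH c n (k + 1) ≤ HH c n k := by
  have hcont := continuous_SS c n
  unfold HH
  apply intervalIntegral.integral_mono_on zero_le_one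
  · apply Continuous.intervalIntegrable; fun_prop
  · apply Continuous.intervalIntegrable; fun_prop
  · intro x hx
    have h0 := hx.1
    have h1 : x ^ (k + 1) ≤ x ^ k := pow_le_pow_of_le_one h0 hx.2 (by omega)
    exact mul_le_mul_of_nonneg_right h1 (sq_nonneg _)

theorem HH_zero_le (c : ℕ → ℤ) (n : ℕ) (hc : ∀ i, c i = -1 ∨ c i = 0 ∨ c i = 1) :
    HH c n 0 ≤ (n : ℝ) ^ 2 := by
  have hcont := continuous_SS c n
  have hb : ∀ x ∈ Set.Icc (0 : ℝ) 1, x ^ 0 * SS c n x ^ 2 ≤ (n : ℝ) ^ 2 := by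
    intro x hx
    have h1 : |SS c n x| ≤ n := by
      unfold SS
      calc |∑ i ∈ range n, (c i : ℝ) * x ^ i| ≤ ∑ i ∈ range n, |(c i : ℝ) * x ^ i| :=
            abs_sum_le_sum_abs _ _
        _ ≤ ∑ i ∈ range n, 1 := by
            refine sum_le_sum fun i _ => ?_
            rw [abs_mul]
            have h2 : |(c i : ℝ)| ≤ 1 := by
              rcases hc i with h | h | h <;> rw [h] <;> simp
            have h3 : |x ^ i| ≤ 1 := by
              rw [abs_of_nonneg (pow_nonneg hx.1 i)]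
              exact pow_le_one₀ hx.1 hx.2
            exact mul_le_one₀ h2 (abs_nonneg _) h3
        _ = n := by simp
    rw [pow_zero, one_mul, ← sq_abs]
    exact pow_le_pow_left₀ (abs_nonneg _) h1 2
  calc HH c n 0 ≤ ∫ x in (0 : ℝ)..1, (n : ℝ) ^ 2 := by
        unfold HH
        apply intervalIntegral.integral_mono_on zero_le_one
        · apply Continuous.intervalIntegrable; fun_prop
        · apply Continuous.intervalIntegrable; fun_prop
        · exact hb
    _ = (n : ℝ) ^ 2 := by simp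

theorem geom_third (x : ℝ) (h0 : 0 ≤ x) (h1 : x ≤ 1 / 3) (k : ℕ) :
    ∑ i ∈ range k, x ^ (i + 1) ≤ 1 / 2 - (1 / 3) ^ k / 2 := by
  induction k with
  | zero => simp
  | succ k ih =>
    rw [sum_range_succ]
    have h2 : x ^ (k + 1) ≤ (1 / 3) ^ (k + 1) := pow_le_pow_left₀ h0 h1 _
    rw [pow_succ (1 / 3 : ℝ) k] at h2 ⊢
    linarith

theorem half_le_SS (c : ℕ → ℤ) (n : ℕ) (hc : ∀ i, c i = -1 ∨ c i = 0 ∨ c i = 1)
    (hc0 : c 0 ≠ 0) (hn : 1 ≤ n) (x : ℝ) (h0 : 0 ≤ x) (h1 : x ≤ 1 / 3) :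
    1 / 4 ≤ SS c n x ^ 2 := by
  obtain ⟨k, rfl⟩ : ∃ k, n = k + 1 := ⟨n - 1, by omega⟩
  have e : SS c (k + 1) x = (∑ i ∈ range k, (c (i + 1) : ℝ) * x ^ (i + 1)) + c 0 := by
    unfold SS
    rw [sum_range_succ']
    simp
  have hb : |∑ i ∈ range k, (c (i + 1) : ℝ) * x ^ (i + 1)| ≤ 1 / 2 := by
    calc |∑ i ∈ range k, (c (i + 1) : ℝ) * x ^ (i + 1)|
        ≤ ∑ i ∈ range k, |(c (i + 1) : ℝ) * x ^ (i + 1)| := abs_sum_le_sum_abs _ _
      _ ≤ ∑ i ∈ range k, x ^ (i + 1) := by
          refine sum_le_sum fun i _ => ?_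
          rw [abs_mul, abs_of_nonneg (pow_nonneg h0 (i + 1))]
          have h2 : |(c (i + 1) : ℝ)| ≤ 1 := by
            rcases hc (i + 1) with h | h | h <;> rw [h] <;> simp
          have h3 : 0 ≤ x ^ (i + 1) := pow_nonneg h0 _
          nlinarith
      _ ≤ 1 / 2 - (1 / 3) ^ k / 2 := geom_third x h0 h1 k
      _ ≤ 1 / 2 := by
          have : (0 : ℝ) ≤ (1 / 3) ^ k := by positivity
          linarith
  rw [abs_le] at hb
  rw [e]
  rcases hc 0 with h | h | h
  · rw [h]; push_cast; nlinarith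
  · exact absurd h hc0
  · rw [h]; push_cast; nlinarith

theorem le_HH_one (c : ℕ → ℤ) (n : ℕ) (hc : ∀ i, c i = -1 ∨ c i = 0 ∨ c i = 1)
    (hc0 : c 0 ≠ 0) (hn : 1 ≤ n) : 1 / 72 ≤ HH c n 1 := by
  have hcont := continuous_SS c n
  have hI : ∀ a b : ℝ, IntervalIntegrable (fun x : ℝ => x ^ 1 * SS c n x ^ 2) volume a b := by
    intro a b
    apply Continuous.intervalIntegrable; fun_prop
  unfold HH
  rw [← intervalIntegral.integral_add_adjacent_intervals (hI 0 (1 / 3)) (hI (1 / 3) 1)]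
  have h1 : 0 ≤ ∫ x in (1 / 3 : ℝ)..1, x ^ 1 * SS c n x ^ 2 := by
    apply intervalIntegral.integral_nonneg (by norm_num)
    intro x hx
    have : 0 ≤ x := by linarith [hx.1]
    positivity
  have h2 : ∫ x in (0 : ℝ)..(1 / 3), x * (1 / 4) ≤
      ∫ x in (0 : ℝ)..(1 / 3), x ^ 1 * SS c n x ^ 2 := by
    apply intervalIntegral.integral_mono_on (by norm_num)
    · apply Continuous.intervalIntegrable; fun_prop
    · exact hI _ _
    · intro x hx
      have := half_le_SS c n hc hc0 hn x hx.1 hx.2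
      rw [pow_one]
      exact mul_le_mul_of_nonneg_left this hx.1
  have h3 : ∫ x in (0 : ℝ)..(1 / 3), x * (1 / 4) = 1 / 72 := by
    rw [intervalIntegral.integral_mul_const, integral_id]; norm_num
  linarith

/-- all ratios of consecutive moments are at most `72 n ^ 2` -/
theorem HH_ratio (c : ℕ → ℤ) (n : ℕ) (hc : ∀ i, c i = -1 ∨ c i = 0 ∨ c i = 1)
    (hc0 : c 0 ≠ 0) (hn : 1 ≤ n) (k : ℕ) :
    0 < HH c n k ∧ HH c n k ≤ 72 * (n : ℝ) ^ 2 * HH c n (k + 1) := by
  have hn1 : (1 : ℝ) ≤ n := by exact_mod_cast hn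
  induction k with
  | zero =>
    have h1 := le_HH_one c n hc hc0 hn
    have h2 := HH_succ_le c n 0
    have h3 := HH_zero_le c n hc
    have h4 : (0 : ℝ) ≤ (n : ℝ) ^ 2 := by positivity
    simp only [zero_add] at *
    constructor
    · linarith
    · nlinarith
  | succ k ih =>
    obtain ⟨h1, h2⟩ := ih
    have hpos : 0 < HH c n (k + 1) := by
      by_contra hcon
      push Not at hcon
      have : 72 * (n : ℝ) ^ 2 * HH c n (k + 1) ≤ 0 :=
        mul_nonpos_of_nonneg_of_nonpos (by positivity) hcon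
      linarith
    refine ⟨hpos, ?_⟩
    have h3 := HH_convex c n k (HH c n (k + 1) / HH c n k)
    set A := HH c n k
    set B := HH c n (k + 1)
    set D := HH c n (k + 2)
    have h4 : B ^ 2 ≤ A * D := by
      have e : D - 2 * (B / A) * B + (B / A) ^ 2 * A = D - B ^ 2 / A := by
        field_simp; ring
      rw [e, sub_nonneg, div_le_iff₀ h1] at h3
      linarith
    have h5 : A * D ≤ 72 * (n : ℝ) ^ 2 * B * D := by
      have hD : 0 ≤ D := by
        by_contra hcon
        push Not at hcon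
        have : A * D < 0 := mul_neg_of_pos_of_neg h1 hcon
        nlinarith [sq_nonneg B]
      exact mul_le_mul_of_nonneg_right h2 hD
    have h6 : B * B ≤ B * (72 * (n : ℝ) ^ 2 * D) := by nlinarith
    exact le_of_mul_le_mul_left h6 hpos

/-! ### The moments are tiny far out -/

theorem pow_sum_zero (c : ℕ → ℤ) (n J : ℕ)
    (hJ : ∀ k < J, ∑ i ∈ range n, (c i : ℝ) * (i : ℝ) ^ k = 0) (k : ℕ) (hk : k < 2 * J) :
    ∑ i ∈ range n, ∑ j ∈ range n, ((c i : ℝ) * (c j : ℝ)) * ((i : ℝ) + j) ^ k = 0 := by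
  have h1 : ∀ i ∈ range n, ∀ j ∈ range n, ((c i : ℝ) * (c j : ℝ)) * ((i : ℝ) + j) ^ k =
      ∑ a ∈ range (k + 1), (k.choose a : ℝ) * (((c i : ℝ) * (i : ℝ) ^ a) *
        ((c j : ℝ) * (j : ℝ) ^ (k - a))) := by
    intro i _ j _
    rw [add_pow, mul_sum]
    refine sum_congr rfl fun a _ => ?_
    ring
  calc ∑ i ∈ range n, ∑ j ∈ range n, ((c i : ℝ) * (c j : ℝ)) * ((i : ℝ) + j) ^ k
      = ∑ i ∈ range n, ∑ j ∈ range n, ∑ a ∈ range (k + 1), (k.choose a : ℝ) *
        (((c i : ℝ) * (i : ℝ) ^ a) * ((c j : ℝ) * (j : ℝ) ^ (k - a))) :=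
        sum_congr rfl fun i hi => sum_congr rfl fun j hj => h1 i hi j hj
    _ = ∑ i ∈ range n, ∑ a ∈ range (k + 1), ∑ j ∈ range n, (k.choose a : ℝ) *
        (((c i : ℝ) * (i : ℝ) ^ a) * ((c j : ℝ) * (j : ℝ) ^ (k - a))) :=
        sum_congr rfl fun i _ => sum_comm
    _ = ∑ a ∈ range (k + 1), ∑ i ∈ range n, ∑ j ∈ range n, (k.choose a : ℝ) *
        (((c i : ℝ) * (i : ℝ) ^ a) * ((c j : ℝ) * (j : ℝ) ^ (k - a))) := sum_comm
    _ = ∑ a ∈ range (k + 1), (k.choose a : ℝ) * ((∑ i ∈ range n, (c i : ℝ) * (i : ℝ) ^ a) *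
        (∑ j ∈ range n, (c j : ℝ) * (j : ℝ) ^ (k - a))) := by
        refine sum_congr rfl fun a _ => ?_
        rw [sum_mul_sum, mul_sum]
        refine sum_congr rfl fun i _ => ?_
        rw [mul_sum]
    _ = 0 := by
        refine sum_eq_zero fun a ha => ?_
        rw [mem_range] at ha
        rcases Nat.lt_or_ge a J with h | h
        · rw [hJ a h]; simp
        · rw [hJ (k - a) (by omega)]; simp

theorem geom_remainder (W v : ℝ) (hW : 0 < W) (hv : 0 ≤ v) (K : ℕ) :
    1 / (W + v) = ∑ k ∈ range K, (-1) ^ k * v ^ k / W ^ (k + 1) +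
      (-1) ^ K * v ^ K / (W ^ K * (W + v)) := by
  induction K with
  | zero => simp
  | succ K ih =>
    rw [sum_range_succ, add_assoc]
    rw [ih]
    congr 1
    have h1 : W + v ≠ 0 := by positivity
    have h2 : W ≠ 0 := hW.ne'
    field_simp
    ring

theorem HH_far (c : ℕ → ℤ) (n J W : ℕ) (hc : ∀ i, c i = -1 ∨ c i = 0 ∨ c i = 1)
    (hJ : ∀ k < J, ∑ i ∈ range n, (c i : ℝ) * (i : ℝ) ^ k = 0) :
    HH c n W ≤ (n : ℝ) ^ 2 * ((2 * n) ^ (2 * J) / ((W : ℝ) + 1) ^ (2 * J + 1)) := by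
  have hW : (0 : ℝ) < (W : ℝ) + 1 := by positivity
  set w : ℝ := (W : ℝ) + 1 with hw
  have h1 : HH c n W = ∑ i ∈ range n, ∑ j ∈ range n, ((c i : ℝ) * (c j : ℝ)) *
      ((-1) ^ (2 * J) * ((i : ℝ) + j) ^ (2 * J) / (w ^ (2 * J) * (w + ((i : ℝ) + j)))) := by
    have h2 : ∀ i ∈ range n, ∀ j ∈ range n, ((c i : ℝ) * (c j : ℝ)) *
        (1 / ((W : ℝ) + i + j + 1)) = ∑ k ∈ range (2 * J), ((-1) ^ k / w ^ (k + 1)) *
        (((c i : ℝ) * (c j : ℝ)) * ((i : ℝ) + j) ^ k) + ((c i : ℝ) * (c j : ℝ)) *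
        ((-1) ^ (2 * J) * ((i : ℝ) + j) ^ (2 * J) / (w ^ (2 * J) * (w + ((i : ℝ) + j)))) := by
      intro i _ j _
      have e : (W : ℝ) + i + j + 1 = w + ((i : ℝ) + j) := by rw [hw]; ring
      rw [e, geom_remainder w ((i : ℝ) + j) hW (by positivity) (2 * J), mul_add, mul_sum]
      congr 1
      refine sum_congr rfl fun k _ => ?_
      ring
    rw [HH_eq]
    calc ∑ i ∈ range n, ∑ j ∈ range n, ((c i : ℝ) * (c j : ℝ)) * (1 / ((W : ℝ) + i + j + 1))
        = ∑ i ∈ range n, ∑ j ∈ range n, (∑ k ∈ range (2 * J), ((-1) ^ k / w ^ (k + 1)) *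
        (((c i : ℝ) * (c j : ℝ)) * ((i : ℝ) + j) ^ k) + ((c i : ℝ) * (c j : ℝ)) *
        ((-1) ^ (2 * J) * ((i : ℝ) + j) ^ (2 * J) / (w ^ (2 * J) * (w + ((i : ℝ) + j))))) :=
          sum_congr rfl fun i hi => sum_congr rfl fun j hj => h2 i hi j hj
      _ = ∑ i ∈ range n, ∑ j ∈ range n, (∑ k ∈ range (2 * J), ((-1) ^ k / w ^ (k + 1)) *
        (((c i : ℝ) * (c j : ℝ)) * ((i : ℝ) + j) ^ k)) +
        ∑ i ∈ range n, ∑ j ∈ range n, ((c i : ℝ) * (c j : ℝ)) *
        ((-1) ^ (2 * J) * ((i : ℝ) + j) ^ (2 * J) / (w ^ (2 * J) * (w + ((i : ℝ) + j)))) := by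
          simp_rw [sum_add_distrib]
      _ = 0 + ∑ i ∈ range n, ∑ j ∈ range n, ((c i : ℝ) * (c j : ℝ)) *
        ((-1) ^ (2 * J) * ((i : ℝ) + j) ^ (2 * J) / (w ^ (2 * J) * (w + ((i : ℝ) + j)))) := by
          congr 1
          calc ∑ i ∈ range n, ∑ j ∈ range n, (∑ k ∈ range (2 * J), ((-1) ^ k / w ^ (k + 1)) *
                (((c i : ℝ) * (c j : ℝ)) * ((i : ℝ) + j) ^ k))
              = ∑ i ∈ range n, ∑ k ∈ range (2 * J), ∑ j ∈ range n, (((-1) ^ k / w ^ (k + 1)) *
                (((c i : ℝ) * (c j : ℝ)) * ((i : ℝ) + j) ^ k)) :=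
                sum_congr rfl fun i _ => sum_comm
            _ = ∑ k ∈ range (2 * J), ∑ i ∈ range n, ∑ j ∈ range n, (((-1) ^ k / w ^ (k + 1)) *
                (((c i : ℝ) * (c j : ℝ)) * ((i : ℝ) + j) ^ k)) := sum_comm
            _ = 0 := by
                refine sum_eq_zero fun k hk => ?_
                have h3 := pow_sum_zero c n J hJ k (mem_range.1 hk)
                calc ∑ i ∈ range n, ∑ j ∈ range n, (((-1) ^ k / w ^ (k + 1)) *
                    (((c i : ℝ) * (c j : ℝ)) * ((i : ℝ) + j) ^ k))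
                    = ((-1) ^ k / w ^ (k + 1)) * ∑ i ∈ range n, ∑ j ∈ range n,
                      (((c i : ℝ) * (c j : ℝ)) * ((i : ℝ) + j) ^ k) := by
                      rw [mul_sum]
                      refine sum_congr rfl fun i _ => ?_
                      rw [mul_sum]
                  _ = 0 := by rw [h3, mul_zero]
      _ = ∑ i ∈ range n, ∑ j ∈ range n, ((c i : ℝ) * (c j : ℝ)) *
        ((-1) ^ (2 * J) * ((i : ℝ) + j) ^ (2 * J) / (w ^ (2 * J) * (w + ((i : ℝ) + j)))) :=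
          zero_add _
  rw [h1]
  calc ∑ i ∈ range n, ∑ j ∈ range n, ((c i : ℝ) * (c j : ℝ)) *
      ((-1) ^ (2 * J) * ((i : ℝ) + j) ^ (2 * J) / (w ^ (2 * J) * (w + ((i : ℝ) + j))))
      ≤ ∑ i ∈ range n, ∑ j ∈ range n, (2 * (n : ℝ)) ^ (2 * J) / w ^ (2 * J + 1) := by
        refine sum_le_sum fun i hi => sum_le_sum fun j hj => ?_
        have hi' : (i : ℝ) ≤ n := by exact_mod_cast (mem_range.1 hi).le
        have hj' : (j : ℝ) ≤ n := by exact_mod_cast (mem_range.1 hj).le
        have hcc : (c i : ℝ) * (c j : ℝ) ≤ 1 := by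
          rcases hc i with h | h | h <;> rcases hc j with h' | h' | h' <;> rw [h, h'] <;> norm_num
        rw [(even_two_mul J).neg_one_pow, one_mul]
        have hnn : 0 ≤ ((i : ℝ) + j) ^ (2 * J) / (w ^ (2 * J) * (w + ((i : ℝ) + j))) := by
          positivity
        calc ((c i : ℝ) * (c j : ℝ)) *
            (((i : ℝ) + j) ^ (2 * J) / (w ^ (2 * J) * (w + ((i : ℝ) + j))))
            ≤ 1 * (((i : ℝ) + j) ^ (2 * J) / (w ^ (2 * J) * (w + ((i : ℝ) + j)))) :=
              mul_le_mul_of_nonneg_right hcc hnn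
          _ = ((i : ℝ) + j) ^ (2 * J) / (w ^ (2 * J) * (w + ((i : ℝ) + j))) := one_mul _
          _ ≤ (2 * (n : ℝ)) ^ (2 * J) / w ^ (2 * J + 1) := by
              rw [pow_succ w (2 * J)]
              apply div_le_div₀ (by positivity) _ (by positivity)
              · apply mul_le_mul_of_nonneg_left _ (by positivity)
                have : (0 : ℝ) ≤ (i : ℝ) + j := by positivity
                linarith
              · apply pow_le_pow_left₀ (by positivity)
                linarith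
    _ = _ := by
        rw [sum_const, sum_const, card_range, nsmul_eq_mul, nsmul_eq_mul]
        ring

end Pool.Agent.ParityQuad
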