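import Mathlib

/-!
# Integer polynomials with coefficients `-1, 0, 1` vanishing to high order at `1` (pigeonhole)
-/

set_option autoImplicit false

namespace Pool.Agent.ParityQuad

open Finset

/-- two different subsets of `range n` with the same power sums of order less than `J` -/
theorem exists_subsets (J n : ℕ) (hn : 1 ≤ n) (h : (n ^ J + 1) ^ J < 2 ^ n) :
    ∃ A B : Finset ℕ, A ⊆ range n ∧ B ⊆ range n ∧ A ≠ B ∧
      ∀ k < J, ∑ i ∈ A, i ^ k = ∑ i ∈ B, i ^ k := by
  classical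
  set f : Finset ℕ → (Fin J → ℕ) := fun A k => ∑ i ∈ A, i ^ (k : ℕ) with hf
  have hcard : (Fintype.piFinset (fun _ : Fin J => range (n ^ J + 1))).card <
      (range n).powerset.card := by
    rw [Fintype.card_piFinset, card_powerset, card_range]
    simpa using h
  have hmaps : ∀ A ∈ (range n).powerset,
      f A ∈ Fintype.piFinset (fun _ : Fin J => range (n ^ J + 1)) := by
    intro A hA
    rw [Fintype.mem_piFinset]
    intro k
    rw [mem_range, Nat.lt_succ_iff]
    rw [mem_powerset] at hA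
    have hk : (k : ℕ) + 1 ≤ J := k.2
    calc f A k = ∑ i ∈ A, i ^ (k : ℕ) := rfl
      _ ≤ ∑ i ∈ A, n ^ (k : ℕ) := sum_le_sum fun i hi =>
          Nat.pow_le_pow_left (mem_range.1 (hA hi)).le _
      _ = A.card * n ^ (k : ℕ) := by rw [sum_const, smul_eq_mul]
      _ ≤ n * n ^ (k : ℕ) := Nat.mul_le_mul_right _ (by
          have := card_le_card hA
          rwa [card_range] at this)
      _ = n ^ ((k : ℕ) + 1) := by ring
      _ ≤ n ^ J := Nat.pow_le_pow_right hn hk
  obtain ⟨A, hA, B, hB, hne, hAB⟩ := exists_ne_map_eq_of_card_lt_of_maps_to hcard hmaps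
  refine ⟨A, B, mem_powerset.1 hA, mem_powerset.1 hB, hne, fun k hk => ?_⟩
  exact congrFun hAB ⟨k, hk⟩

/-- coefficients `-1, 0, 1`, the lowest one nonzero, vanishing power sums of order less than `J` -/
theorem exists_coeff (J n : ℕ) (hn : 1 ≤ n) (h : (n ^ J + 1) ^ J < 2 ^ n) :
    ∃ c : ℕ → ℤ, (∀ i, c i = -1 ∨ c i = 0 ∨ c i = 1) ∧ c 0 ≠ 0 ∧
      ∀ k < J, ∑ i ∈ range n, (c i : ℝ) * (i : ℝ) ^ k = 0 := by
  classical
  obtain ⟨A, B, hA, hB, hne, hAB⟩ := exists_subsets J n hn h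
  set c' : ℕ → ℤ := fun i => (if i ∈ A then 1 else 0) - (if i ∈ B then 1 else 0) with hc'
  have hpm : ∀ i, c' i = -1 ∨ c' i = 0 ∨ c' i = 1 := by
    intro i
    simp only [hc']
    split_ifs <;> simp
  have hzero : ∀ i, n ≤ i → c' i = 0 := by
    intro i hi
    have h1 : i ∉ A := fun hh => absurd (mem_range.1 (hA hh)) (by omega)
    have h2 : i ∉ B := fun hh => absurd (mem_range.1 (hB hh)) (by omega)
    simp [hc', h1, h2]
  have hex : ∃ i, c' i ≠ 0 := by
    by_contra hcon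
    push Not at hcon
    apply hne
    ext i
    have := hcon i
    simp only [hc'] at this
    by_cases h1 : i ∈ A <;> by_cases h2 : i ∈ B <;> simp [h1, h2] at this ⊢
  set i0 := Nat.find hex with hi0
  have hi0n : c' i0 ≠ 0 := Nat.find_spec hex
  have hlow : ∀ i < i0, c' i = 0 := fun i hi => by
    have := Nat.find_min hex hi
    simpa using this
  have hsum : ∀ k < J, ∑ i ∈ range n, (c' i : ℝ) * (i : ℝ) ^ k = 0 := by
    intro k hk
    have h1 : ∑ i ∈ range n, (c' i : ℝ) * (i : ℝ) ^ k =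
        ∑ i ∈ A, (i : ℝ) ^ k - ∑ i ∈ B, (i : ℝ) ^ k := by
      have hA' : ∑ i ∈ A, (i : ℝ) ^ k = ∑ i ∈ range n, (if i ∈ A then (i : ℝ) ^ k else 0) := by
        rw [← sum_filter]
        congr 1
        ext i
        simp only [mem_filter]
        exact ⟨fun hh => ⟨hA hh, hh⟩, fun hh => hh.2⟩
      have hB' : ∑ i ∈ B, (i : ℝ) ^ k = ∑ i ∈ range n, (if i ∈ B then (i : ℝ) ^ k else 0) := by
        rw [← sum_filter]
        congr 1
        ext i
        simp only [mem_filter]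
        exact ⟨fun hh => ⟨hB hh, hh⟩, fun hh => hh.2⟩
      rw [hA', hB', ← sum_sub_distrib]
      refine sum_congr rfl fun i _ => ?_
      simp only [hc']
      split_ifs <;> simp
    rw [h1]
    have h2 := hAB k hk
    have h3 : (∑ i ∈ A, (i : ℝ) ^ k) = ∑ i ∈ B, (i : ℝ) ^ k := by exact_mod_cast h2
    rw [h3, sub_self]
  refine ⟨fun i => c' (i + i0), fun i => hpm _, by simpa using hi0n, ?_⟩
  intro k hk
  -- first for the translated polynomial
  have hi0lt : i0 < n := by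
    by_contra hcon
    exact hi0n (hzero i0 (by omega))
  have hpoly : ∑ l ∈ range n, (c' l : ℝ) * ((l : ℝ) - i0) ^ k = 0 := by
    have h1 : ∀ l ∈ range n, (c' l : ℝ) * ((l : ℝ) - i0) ^ k =
        ∑ a ∈ range (k + 1), (((-(i0 : ℝ)) ^ (k - a) * (k.choose a : ℝ)) *
          ((c' l : ℝ) * (l : ℝ) ^ a)) := by
      intro l _
      rw [sub_eq_add_neg, add_pow, mul_sum]
      refine sum_congr rfl fun a _ => ?_
      ring
    rw [sum_congr rfl h1, sum_comm]
    refine sum_eq_zero fun a ha => ?_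
    rw [← mul_sum, hsum a (by rw [mem_range] at ha; omega), mul_zero]
  have hsplit : ∑ l ∈ range n, (c' l : ℝ) * ((l : ℝ) - i0) ^ k =
      ∑ i ∈ range (n - i0), (c' (i + i0) : ℝ) * (i : ℝ) ^ k := by
    have e : n = i0 + (n - i0) := by omega
    conv_lhs => rw [e]
    rw [sum_range_add]
    rw [sum_eq_zero (fun l hl => by rw [hlow l (mem_range.1 hl)]; simp), zero_add]
    refine sum_congr rfl fun i _ => ?_
    rw [add_comm i0 i]
    push_cast
    congr 2
    ring
  rw [hsplit] at hpoly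
  rw [← hpoly]
  have e : n = (n - i0) + i0 := by omega
  conv_lhs => rw [e]
  rw [sum_range_add]
  rw [add_eq_left]
  refine sum_eq_zero fun i _ => ?_
  have hz : c' (n - i0 + i + i0) = 0 := hzero _ (by omega)
  simp only [hz]
  simp

/-- Admissible parameters: `J = 2 ^ a`, `n = 4 a J ^ 2`. -/
theorem params (a : ℕ) (ha : 4 ≤ a) :
    ((4 * a * (2 ^ a) ^ 2) ^ (2 ^ a) + 1) ^ (2 ^ a) < 2 ^ (4 * a * (2 ^ a) ^ 2) := by
  set J := 2 ^ a with hJ
  have hJ16 : 16 ≤ J := by
    calc 16 = 2 ^ 4 := by norm_num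
      _ ≤ 2 ^ a := Nat.pow_le_pow_right (by norm_num) ha
  have h4a : 4 * a ≤ J := by
    clear hJ16
    rw [hJ]
    induction a, ha using Nat.le_induction with
    | base => norm_num
    | succ b hb ih =>
      have := ih rfl
      rw [pow_succ]
      omega
  have hn : 4 * a * J ^ 2 ≤ 2 ^ (3 * a) := by
    calc 4 * a * J ^ 2 ≤ J * J ^ 2 := Nat.mul_le_mul_right _ h4a
      _ = 2 ^ (3 * a) := by rw [hJ]; ring
  have hn1 : 1 ≤ 4 * a * J ^ 2 := by
    have : 0 < 4 * a * J ^ 2 := by positivity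
    exact this
  have h1 : (4 * a * J ^ 2) ^ J + 1 ≤ 2 ^ (3 * a * J + 1) := by
    have h2 : (4 * a * J ^ 2) ^ J ≤ 2 ^ (3 * a * J) := by
      calc (4 * a * J ^ 2) ^ J ≤ (2 ^ (3 * a)) ^ J := Nat.pow_le_pow_left hn J
        _ = 2 ^ (3 * a * J) := by rw [← pow_mul]
    have h3 : 1 ≤ 2 ^ (3 * a * J) := Nat.one_le_two_pow
    have h4 : 2 ^ (3 * a * J + 1) = 2 ^ (3 * a * J) * 2 := pow_succ _ _
    rw [h4]
    omega
  calc ((4 * a * J ^ 2) ^ J + 1) ^ J ≤ (2 ^ (3 * a * J + 1)) ^ J := Nat.pow_le_pow_left h1 J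
    _ = 2 ^ ((3 * a * J + 1) * J) := by rw [← pow_mul]
    _ < 2 ^ (4 * a * J ^ 2) := by
        apply Nat.pow_lt_pow_right (by norm_num)
        have : J < a * J * J := by nlinarith
        nlinarith

end Pool.Agent.ParityQuad
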