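import Pool.Agent.Lib_MP_f1a94e_nt.Greedy
import Pool.Agent.Lib_MP_f1a94e_nt.Moment
import Pool.Agent.Lib_MP_f1a94e_nt.Pigeon

/-!
# MP_f1a94e_nt: greedy digits of polynomial cost

The pattern is the square of an integer polynomial with coefficients `-1, 0, 1` vanishing to order
`J` at `1`: its angles are (almost) moments of a positive measure, hence they meet every scale.
-/

set_option autoImplicit false

namespace Pool.Agent.ParityQuad

open Complex

theorem Rep.mono {F : ℤ × ℤ → ℤ} {T : ℤ} {k k' : ℕ} {a : ℝ} {s : ℤ}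
    (h : Rep F T k a s) (hk : k ≤ k') : Rep F T k' a s := by
  obtain ⟨l, h1, h2, h3, h4⟩ := h
  exact ⟨l, h1, h2.trans hk, h3, h4⟩

theorem Rep.sum {F : ℤ × ℤ → ℤ} {T : ℤ} {N : ℕ} (f : ℕ → ℝ) (I : Finset ℕ)
    (h : ∀ i ∈ I, ∃ s : ℤ, (s = 1 ∨ s = -1) ∧ Rep F T N (f i) s) :
    ∃ s : ℤ, (s = 1 ∨ s = -1) ∧ Rep F T (I.card * N) (∑ i ∈ I, f i) s := by
  classical
  induction I using Finset.induction_on with
  | empty => exact ⟨1, Or.inl rfl, by simpa using Rep.zero F T⟩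
  | insert i I hi ih =>
    obtain ⟨s, hs, hr⟩ := ih (fun j hj => h j (Finset.mem_insert_of_mem hj))
    obtain ⟨s', hs', hr'⟩ := h i (Finset.mem_insert_self i I)
    refine ⟨s' * s, ?_, ?_⟩
    · rcases hs with rfl | rfl <;> rcases hs' with rfl | rfl <;> norm_num
    · have := hr'.add hr
      rw [Finset.card_insert_of_notMem hi, Finset.sum_insert hi]
      have e : (I.card + 1) * N = N + I.card * N := by ring
      rw [e]
      exact this

theorem rep_unit (F : ℤ × ℤ → ℤ) (hF : SignFn F) (T : ℤ) (u : ℕ) (hu : 0 < u) (hue : Even u)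
    (hT : (u : ℤ) ^ 2 + 1 ≤ T) (e : ℤ) (he : e = -1 ∨ e = 0 ∨ e = 1) :
    ∃ s : ℤ, (s = 1 ∨ s = -1) ∧ Rep F T 1 ((e : ℝ) * Real.arctan (1 / (u : ℝ))) s := by
  have hbase : Rep F T 1 (Real.arctan (1 / (u : ℝ))) (F ((u : ℤ), 1)) := by
    refine ⟨[((u : ℤ), 1)], ?_, by simp, by simp, ?_⟩
    · intro v hv
      rw [List.mem_singleton] at hv
      subst hv
      obtain ⟨r, hr⟩ := hue
      refine ⟨⟨2 * r ^ 2, ?_⟩, ?_⟩
      · simp only [Nm]; subst hr; push_cast; ring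
      · simp only [Nm]; linarith
    · simp only [List.map_cons, List.map_nil, List.prod_cons, List.prod_nil, mul_one]
      exact dir_base u hu
  rcases he with rfl | rfl | rfl
  · refine ⟨F ((u : ℤ), 1), hF.pm _, ?_⟩
    have := hbase.neg hF
    push_cast
    rw [neg_one_mul]
    exact this
  · refine ⟨1, Or.inl rfl, ?_⟩
    have := (Rep.zero F T).mono (zero_le_one)
    simpa using this
  · refine ⟨F ((u : ℤ), 1), hF.pm _, ?_⟩
    simpa using hbase

theorem rep_AA (F : ℤ × ℤ → ℤ) (hF : SignFn F) (T : ℤ) (c : ℕ → ℤ)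
    (hc : ∀ i, c i = -1 ∨ c i = 0 ∨ c i = 1) (n k : ℕ) (hn : 1 ≤ n)
    (hT : (10 * (n : ℤ) * ((k : ℤ) + 2 * n)) ^ 2 + 1 ≤ T) :
    ∃ s : ℤ, (s = 1 ∨ s = -1) ∧ Rep F T (n * n) (AA c n k (1 / (10 * (n : ℝ)))) s := by
  have hn0 : (0 : ℝ) < n := by exact_mod_cast hn
  unfold AA
  have h1 : ∀ i ∈ Finset.range n, ∃ s : ℤ, (s = 1 ∨ s = -1) ∧ Rep F T n
      (∑ j ∈ Finset.range n, ((c i : ℝ) * (c j : ℝ)) *
        Real.arctan (1 / (10 * (n : ℝ)) / ((k : ℝ) + i + j + 1))) s := by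
    intro i hi
    rw [Finset.mem_range] at hi
    have h2 : ∀ j ∈ Finset.range n, ∃ s : ℤ, (s = 1 ∨ s = -1) ∧ Rep F T 1
        (((c i : ℝ) * (c j : ℝ)) *
          Real.arctan (1 / (10 * (n : ℝ)) / ((k : ℝ) + i + j + 1))) s := by
      intro j hj
      rw [Finset.mem_range] at hj
      have h3 := rep_unit F hF T (10 * n * (k + i + j + 1)) (by positivity)
        (by
          have : Even (10 * n * (k + i + j + 1)) := by
            rw [show 10 * n * (k + i + j + 1) = 2 * (5 * n * (k + i + j + 1)) by ring]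
            exact even_two_mul _
          exact this) (by
          refine le_trans ?_ hT
          push_cast
          have h4 : ((k : ℤ) + i + j + 1) ≤ (k : ℤ) + 2 * n := by
            have h5 : (i : ℤ) + 1 ≤ n := by exact_mod_cast hi
            have h6 : (j : ℤ) + 1 ≤ n := by exact_mod_cast hj
            linarith
          have h7 : 10 * (n : ℤ) * ((k : ℤ) + i + j + 1) ≤ 10 * (n : ℤ) * ((k : ℤ) + 2 * n) :=
            mul_le_mul_of_nonneg_left h4 (by positivity)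
          have h8 : (0 : ℤ) ≤ 10 * (n : ℤ) * ((k : ℤ) + i + j + 1) := by positivity
          have h9 := pow_le_pow_left₀ h8 h7 2
          linarith) (c i * c j) (by
          rcases hc i with h | h | h <;> rcases hc j with h' | h' | h' <;> rw [h, h'] <;> simp)
      obtain ⟨s, hs, hr⟩ := h3
      refine ⟨s, hs, ?_⟩
      have e1 : 1 / (10 * (n : ℝ)) / ((k : ℝ) + i + j + 1) =
          1 / ((10 * n * (k + i + j + 1) : ℕ) : ℝ) := by
        push_cast
        rw [div_div]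
      rw [e1]
      push_cast at hr ⊢
      exact hr
    have h3 := Rep.sum _ _ h2
    rw [Finset.card_range, mul_one] at h3
    exact h3
  have h2 := Rep.sum _ _ h1
  rw [Finset.card_range] at h2
  exact h2

theorem exists_list3 (F : ℤ × ℤ → ℤ) (hF : SignFn F) (z0 : ℤ × ℤ) (h0 : Odd (Nm z0))
    (hz0 : F z0 = -1) :
    ∃ n0 : ℕ, ∀ J n : ℕ, n0 ≤ n → 1 ≤ n → (n ^ J + 1) ^ J < 2 ^ n → ∃ l : List (ℤ × ℤ),
      (∀ u ∈ l, Odd (Nm u) ∧ Nm u ≤ 10001 * (n : ℤ) ^ 4) ∧ (l.map F).prod = -1 ∧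
      (l.length : ℝ) ≤ 20000 * (n : ℝ) ^ 5 ∧
      ∃ δ : ℝ, |δ| ≤ (1 / 16) ^ J ∧ (l.map dir).prod = Complex.exp (δ * Complex.I) := by
  obtain ⟨n0, hn0⟩ := exists_nat_ge (Nm z0 : ℝ)
  refine ⟨n0, fun J n hnn0 hn hpig => ?_⟩
  obtain ⟨c, hc, hc0, hJ⟩ := exists_coeff J n hn hpig
  have hn1 : (1 : ℝ) ≤ n := by exact_mod_cast hn
  have hnz : (1 : ℤ) ≤ n := by exact_mod_cast hn
  have hnpos : (0 : ℝ) < n := by linarith
  set T : ℤ := 10001 * (n : ℤ) ^ 4 with hT
  set y : ℝ := 1 / (10 * (n : ℝ)) with hy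
  have hy0 : 0 < y := by positivity
  set ψ : ℕ → ℝ := fun k => AA c n k y with hψ
  have hH := HH_ratio c n hc hc0 hn
  -- lower and upper bounds
  have hlow : ∀ k, y * HH c n (k + 1) / 2 ≤ ψ (k + 1) := by
    intro k
    have h1 := le_AA c n k y hy0.le
    have h2 : 2 / 3 * y ^ 3 * HH c n k ≤ y * HH c n (k + 1) / 2 := by
      calc 2 / 3 * y ^ 3 * HH c n k ≤ 2 / 3 * y ^ 3 * (72 * (n : ℝ) ^ 2 * HH c n (k + 1)) :=
            mul_le_mul_of_nonneg_left (hH k).2 (by positivity)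
        _ = (y * HH c n (k + 1)) * (48 * (y * n) ^ 2) := by ring
        _ = (y * HH c n (k + 1)) * (12 / 25) := by
            have : y * n = 1 / 10 := by rw [hy]; field_simp
            rw [this]; norm_num
        _ ≤ y * HH c n (k + 1) / 2 := by
            have := mul_pos hy0 (hH (k + 1)).1
            linarith
    show _ ≤ AA c n (k + 1) y
    linarith
  have hup : ∀ k, 1 ≤ k → ψ k ≤ y * HH c n k := fun k hk => AA_le c n k hk y hy0.le
  have hpos : ∀ k, 0 < ψ (k + 1) := fun k => by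
    refine lt_of_lt_of_le ?_ (hlow k)
    have := mul_pos hy0 (hH (k + 1)).1
    linarith
  have hratio : ∀ k, 1 ≤ k → ψ k ≤ 144 * (n : ℝ) ^ 2 * ψ (k + 1) := by
    intro k hk
    calc ψ k ≤ y * HH c n k := hup k hk
      _ ≤ y * (72 * (n : ℝ) ^ 2 * HH c n (k + 1)) := mul_le_mul_of_nonneg_left (hH k).2 hy0.le
      _ = 144 * (n : ℝ) ^ 2 * (y * HH c n (k + 1) / 2) := by ring
      _ ≤ 144 * (n : ℝ) ^ 2 * ψ (k + 1) := mul_le_mul_of_nonneg_left (hlow k) (by positivity)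
  have hψ1 : 1 / (1440 * (n : ℝ)) ≤ ψ 1 := by
    have h1 := hlow 0
    have h2 := le_HH_one c n hc hc0 hn
    simp only [zero_add] at h1
    calc 1 / (1440 * (n : ℝ)) = y * (1 / 72) / 2 := by rw [hy]; field_simp; norm_num
      _ ≤ y * HH c n 1 / 2 := by
          have := mul_le_mul_of_nonneg_left h2 hy0.le
          linarith
      _ ≤ ψ 1 := h1
  have hlast : 2 * ψ (8 * n - 1) ≤ (1 / 16) ^ J := by
    have h1 := hup (8 * n - 1) (by omega)
    have h2 := HH_far c n J (8 * n - 1) hc hJ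
    have h3 : ((8 * n - 1 : ℕ) : ℝ) + 1 = 8 * n := by
      have : (8 * n - 1) + 1 = 8 * n := by omega
      exact_mod_cast this
    rw [h3] at h2
    have h4 : (n : ℝ) ^ 2 * ((2 * n) ^ (2 * J) / (8 * (n : ℝ)) ^ (2 * J + 1)) =
        n / 8 * (1 / 16) ^ J := by
      have e1 : (8 * (n : ℝ)) ^ (2 * J + 1) = (4 : ℝ) ^ (2 * J) * (2 * n) ^ (2 * J) * (8 * n) := by
        rw [pow_succ, ← mul_pow]
        congr 2
        ring
      have e2 : (4 : ℝ) ^ (2 * J) = 16 ^ J := by rw [pow_mul]; norm_num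
      rw [e1, e2, one_div, inv_pow]
      have : (2 * (n : ℝ)) ^ (2 * J) ≠ 0 := by positivity
      field_simp
    rw [h4] at h2
    have h5 : y * (n / 8 * (1 / 16) ^ J) = 1 / 80 * (1 / 16) ^ J := by
      rw [hy]
      field_simp
      norm_num
    have h6 : (0 : ℝ) ≤ (1 / 16) ^ J := by positivity
    have h7 := mul_le_mul_of_nonneg_left h2 hy0.le
    rw [h5] at h7
    linarith
  have hrep : ∀ k, k ≤ 8 * n → ∃ s : ℤ, (s = 1 ∨ s = -1) ∧ Rep F T (n * n) (ψ k) s := by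
    intro k hk
    refine rep_AA F hF T c hc n k hn ?_
    have hk' : (k : ℤ) ≤ 8 * n := by exact_mod_cast hk
    have h1 : 10 * (n : ℤ) * ((k : ℤ) + 2 * n) ≤ 10 * (n : ℤ) * (10 * n) :=
      mul_le_mul_of_nonneg_left (by linarith) (by positivity)
    have h2 : (0 : ℤ) ≤ 10 * (n : ℤ) * ((k : ℤ) + 2 * n) := by positivity
    have h3 := pow_le_pow_left₀ h2 h1 2
    have h4 : (1 : ℤ) ≤ (n : ℤ) ^ 4 := one_le_pow₀ hnz
    rw [hT]
    calc (10 * (n : ℤ) * ((k : ℤ) + 2 * n)) ^ 2 + 1 ≤ (10 * (n : ℤ) * (10 * n)) ^ 2 + (n : ℤ) ^ 4 :=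
          add_le_add h3 h4
      _ = 10001 * (n : ℤ) ^ 4 := by ring
  -- start
  have hN : Nm z0 ≤ T := by
    have h1 : Nm z0 ≤ (n0 : ℤ) := by exact_mod_cast hn0
    have h2 : (n0 : ℤ) ≤ n := by exact_mod_cast hnn0
    have h3 : (n : ℤ) ≤ (n : ℤ) ^ 4 := by
      calc (n : ℤ) = (n : ℤ) ^ 1 := (pow_one _).symm
        _ ≤ (n : ℤ) ^ 4 := pow_le_pow_right₀ hnz (by norm_num)
    rw [hT]
    linarith
  have hstart : Rep F T 1 (Complex.arg (tc z0)) (-1) := by
    refine ⟨[z0], ?_, by simp, by simpa using hz0, ?_⟩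
    · intro u hu
      rw [List.mem_singleton] at hu
      subst hu
      exact ⟨h0, hN⟩
    · simp only [List.map_cons, List.map_nil, List.prod_cons, List.prod_nil, mul_one]
      have hne : ‖tc z0‖ ≠ 0 := by
        intro h
        have := norm_tc_sq z0
        rw [h] at this
        have h' : Nm z0 = 0 := by
          have : (Nm z0 : ℝ) = 0 := by rw [← this]; norm_num
          exact_mod_cast this
        rw [h'] at h0
        exact absurd h0 (by decide)
      have hne' : ((‖tc z0‖ : ℝ) : ℂ) ≠ 0 := by exact_mod_cast hne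
      rw [dir, div_eq_iff hne', mul_comm]
      exact (Complex.norm_mul_exp_arg_mul_I (tc z0)).symm
  have hpi := Real.pi_pos
  have hpi4 := Real.pi_lt_four
  have harg1 := Complex.arg_le_pi (tc z0)
  have harg2 := Complex.neg_pi_lt_arg (tc z0)
  -- the chain
  have hchain : ∀ k : ℕ, k + 1 ≤ 8 * n → ∃ (a : ℝ) (N : ℕ), Rep F T N a (-1) ∧
      a ≤ 2 * Real.pi ∧ 2 * Real.pi - a < 2 * ψ (k + 1) ∧
      (N : ℝ) ≤ 17281 * (n : ℝ) ^ 3 + k * (288 * (n : ℝ) ^ 4) := by
    intro k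
    induction k with
    | zero =>
      intro _
      obtain ⟨s, hs, hr⟩ := hrep 1 (by omega)
      obtain ⟨m, a', hm, hr', ha1, ha2⟩ :=
        greedy_step hstart (by linarith) (hpos 0) hs hr
      refine ⟨a', _, hr', ha1, ha2, ?_⟩
      have hm' : (m : ℝ) ≤ 8640 * n := by
        refine hm.trans ?_
        have h1 : (2 * Real.pi - (tc z0).arg) ≤ 3 * Real.pi := by linarith
        calc (2 * Real.pi - (tc z0).arg) / (2 * ψ (0 + 1)) ≤
            3 * Real.pi / (2 * (1 / (1440 * (n : ℝ)))) := by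
              apply div_le_div₀ (by positivity) h1 (by positivity)
              simp only [zero_add]
              linarith
          _ = 2160 * Real.pi * n := by field_simp; norm_num
          _ ≤ 8640 * n := by nlinarith
      have hn3 : (1 : ℝ) ≤ (n : ℝ) ^ 3 := one_le_pow₀ hn1
      have h2 : (m : ℝ) * (n : ℝ) ^ 2 ≤ 8640 * n * (n : ℝ) ^ 2 :=
        mul_le_mul_of_nonneg_right hm' (by positivity)
      push_cast
      have e1 : (1 : ℝ) + 2 * m * (n * n) = 1 + 2 * (m * (n : ℝ) ^ 2) := by ring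
      have e2 : 8640 * (n : ℝ) * (n : ℝ) ^ 2 = 8640 * (n : ℝ) ^ 3 := by ring
      rw [e1]
      rw [e2] at h2
      linarith
    | succ k ih =>
      intro hk
      obtain ⟨a, N, hr0, ha1, ha2, hN0⟩ := ih (by omega)
      obtain ⟨s, hs, hr⟩ := hrep (k + 1 + 1) hk
      obtain ⟨m, a', hm, hr', ha1', ha2'⟩ := greedy_step hr0 ha1 (hpos (k + 1)) hs hr
      refine ⟨a', _, hr', ha1', ha2', ?_⟩
      have hm' : (m : ℝ) ≤ 144 * (n : ℝ) ^ 2 := by
        refine hm.trans ?_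
        have hp := hpos (k + 1)
        rw [div_le_iff₀ (by linarith)]
        have := hratio (k + 1) (by omega)
        nlinarith
      have h2 : (m : ℝ) * (n : ℝ) ^ 2 ≤ 144 * (n : ℝ) ^ 2 * (n : ℝ) ^ 2 :=
        mul_le_mul_of_nonneg_right hm' (by positivity)
      push_cast
      have e1 : (N : ℝ) + 2 * m * (n * n) = N + 2 * (m * (n : ℝ) ^ 2) := by ring
      have e2 : 144 * (n : ℝ) ^ 2 * (n : ℝ) ^ 2 = 144 * (n : ℝ) ^ 4 := by ring
      rw [e1]
      rw [e2] at h2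
      linarith
  obtain ⟨a, N, ⟨l, hl1, hl2, hl3, hl4⟩, ha1, ha2, hN0⟩ := hchain (8 * n - 2) (by omega)
  have e8 : 8 * n - 2 + 1 = 8 * n - 1 := by omega
  rw [e8] at ha2
  refine ⟨l, hl1, hl3, ?_, a - 2 * Real.pi, ?_, ?_⟩
  · have h1 : (l.length : ℝ) ≤ N := by exact_mod_cast hl2
    have h2 : ((8 * n - 2 : ℕ) : ℝ) ≤ 8 * n := by
      have : 8 * n - 2 ≤ 8 * n := Nat.sub_le _ _
      exact_mod_cast this
    have h3 : ((8 * n - 2 : ℕ) : ℝ) * (288 * (n : ℝ) ^ 4) ≤ 8 * n * (288 * (n : ℝ) ^ 4) :=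
      mul_le_mul_of_nonneg_right h2 (by positivity)
    have h4 : (n : ℝ) ^ 3 ≤ (n : ℝ) ^ 5 := pow_le_pow_right₀ hn1 (by norm_num)
    have e3 : 8 * (n : ℝ) * (288 * (n : ℝ) ^ 4) = 2304 * (n : ℝ) ^ 5 := by ring
    rw [e3] at h3
    have h5 : (0 : ℝ) ≤ (n : ℝ) ^ 5 := by positivity
    linarith
  · rw [abs_of_nonpos (by linarith)]
    linarith
  · rw [hl4]
    push_cast
    rw [sub_mul, Complex.exp_sub, Complex.exp_two_pi_mul_I, div_one]

end Pool.Agent.ParityQuad
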