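import Pool.Agent.Lib_MP_f1a94e_nt.Final2
import Pool.Agent.Lib_MP_f1a94e_nt.Greedy3

/-!
Choice of parameters, third version: the saving is only a power of the logarithm.
-/

set_option autoImplicit false

namespace Pool.Agent.ParityQuad

open Filter

/-- Choice of the order of vanishing. -/
theorem eventually_params (n0 : ℕ) : ∀ᶠ x : ℕ in atTop, ∃ J n : ℕ, n0 ≤ n ∧ 1 ≤ n ∧
    (n ^ J + 1) ^ J < 2 ^ n ∧ Real.log x ≤ J ∧
    10 ^ 25 * (n : ℝ) ^ 19 ≤ Real.log x ^ 39 ∧ Real.log x ^ 39 ≤ x ∧ 1 ≤ Real.log x := by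
  have hL : Tendsto (fun x : ℕ => Real.log x) atTop atTop :=
    Real.tendsto_log_atTop.comp tendsto_natCast_atTop_atTop
  have h1 : ∀ᶠ x : ℕ in atTop, Real.log x ^ 39 ≤ x := by
    have h := (Asymptotics.isLittleO_iff.1 (Real.isLittleO_pow_log_id_atTop (n := 39)) one_pos)
    have h2 := tendsto_natCast_atTop_atTop.eventually h
    filter_upwards [h2, hL.eventually_ge_atTop 0] with x hx hx0
    simp only [id_eq, Real.norm_eq_abs, one_mul] at hx
    rw [abs_of_nonneg (by positivity), abs_of_nonneg (Nat.cast_nonneg x)] at hx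
    exact hx
  have h2 : ∀ᶠ L : ℝ in atTop, 10 ^ 25 * 36 ^ 19 * (2 * Real.log (3 * L)) ^ 19 ≤ L := by
    have h := (Asymptotics.isLittleO_iff.1 (Real.isLittleO_pow_log_id_atTop (n := 19))
      (c := 1 / (3 * (10 ^ 25 * 36 ^ 19 * 2 ^ 19))) (by positivity))
    have h3 : Tendsto (fun L : ℝ => 3 * L) atTop atTop :=
      Tendsto.const_mul_atTop (by norm_num) tendsto_id
    filter_upwards [h3.eventually h, eventually_ge_atTop 1] with L hL1 hL2
    simp only [id_eq, Real.norm_eq_abs] at hL1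
    have h4 : 0 ≤ Real.log (3 * L) := Real.log_nonneg (by linarith)
    rw [abs_of_nonneg (by positivity), abs_of_nonneg (by linarith)] at hL1
    have h5 : 10 ^ 25 * 36 ^ 19 * (2 * Real.log (3 * L)) ^ 19 =
        (10 ^ 25 * 36 ^ 19 * 2 ^ 19) * Real.log (3 * L) ^ 19 := by
      rw [mul_pow]; ring
    rw [h5]
    calc (10 ^ 25 * 36 ^ 19 * 2 ^ 19) * Real.log (3 * L) ^ 19 ≤
        (10 ^ 25 * 36 ^ 19 * 2 ^ 19) * (1 / (3 * (10 ^ 25 * 36 ^ 19 * 2 ^ 19)) * (3 * L)) :=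
          mul_le_mul_of_nonneg_left hL1 (by positivity)
      _ = L := by field_simp
  filter_upwards [h1, hL.eventually h2, hL.eventually_ge_atTop 100,
    hL.eventually_ge_atTop (n0 : ℝ)] with x hx1 hx2 hx3 hx4
  set L : ℝ := Real.log x with hLdef
  have hL0 : 0 < L := by linarith
  set a : ℕ := Nat.clog 2 ⌈L⌉₊ with ha
  have hc1 : L ≤ ⌈L⌉₊ := Nat.le_ceil L
  have hc2 : (⌈L⌉₊ : ℝ) ≤ L + 1 := (Nat.ceil_lt_add_one hL0.le).le
  have hJ1 : ⌈L⌉₊ ≤ 2 ^ a := Nat.le_pow_clog (by norm_num) _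
  have hJ1r : (⌈L⌉₊ : ℝ) ≤ (2 : ℝ) ^ a := by exact_mod_cast hJ1
  have h100 : 100 ≤ ⌈L⌉₊ := by
    have : (100 : ℝ) ≤ (⌈L⌉₊ : ℝ) := by linarith
    exact_mod_cast this
  have ha4 : 4 ≤ a := by
    by_contra hcon
    push Not at hcon
    have : 2 ^ a ≤ 2 ^ 4 := Nat.pow_le_pow_right (by norm_num) hcon.le
    omega
  have hJ2 : (2 : ℝ) ^ a ≤ 3 * L := by
    have h5 : 2 ^ (a - 1) < ⌈L⌉₊ := Nat.pow_pred_clog_lt_self (by norm_num) (by omega)
    have h6 : (2 : ℝ) ^ (a - 1) < ⌈L⌉₊ := by exact_mod_cast h5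
    have h7 : (2 : ℝ) ^ a = 2 * 2 ^ (a - 1) := by
      rw [← pow_succ']; congr 1; omega
    rw [h7]; linarith
  have ha2 : (a : ℝ) ≤ 2 * Real.log (3 * L) := by
    have h5 := Real.log_le_log (by positivity) hJ2
    rw [Real.log_pow] at h5
    have h6 := Real.log_two_gt_d9
    have h7 : (0 : ℝ) ≤ a := Nat.cast_nonneg a
    nlinarith
  refine ⟨2 ^ a, 4 * a * (2 ^ a) ^ 2, ?_, ?_, params a ha4, ?_, ?_, hx1, by linarith⟩
  · have h5 : (n0 : ℝ) ≤ (2 : ℝ) ^ a := by linarith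
    have h6 : n0 ≤ 2 ^ a := by exact_mod_cast h5
    have h7 : 1 ≤ 2 ^ a := Nat.one_le_two_pow
    calc n0 ≤ 2 ^ a := h6
      _ ≤ 4 * a * (2 ^ a) ^ 2 := by nlinarith
  · have : 0 < 4 * a * (2 ^ a) ^ 2 := by positivity
    exact this
  · push_cast
    linarith
  · have h5 : ((4 * a * (2 ^ a) ^ 2 : ℕ) : ℝ) ≤ 36 * (2 * Real.log (3 * L)) * L ^ 2 := by
      push_cast
      have h6 : ((2 : ℝ) ^ a) ^ 2 ≤ (3 * L) ^ 2 := pow_le_pow_left₀ (by positivity) hJ2 2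
      calc 4 * (a : ℝ) * ((2 : ℝ) ^ a) ^ 2 ≤ 4 * (2 * Real.log (3 * L)) * (3 * L) ^ 2 := by
            apply mul_le_mul _ h6 (by positivity)
            · have : (0 : ℝ) ≤ a := Nat.cast_nonneg a
              linarith
            · linarith
        _ = 36 * (2 * Real.log (3 * L)) * L ^ 2 := by ring
    have h6 : ((4 * a * (2 ^ a) ^ 2 : ℕ) : ℝ) ^ 19 ≤
        (36 * (2 * Real.log (3 * L)) * L ^ 2) ^ 19 :=
      pow_le_pow_left₀ (Nat.cast_nonneg _) h5 19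
    have h7 : (36 * (2 * Real.log (3 * L)) * L ^ 2) ^ 19 =
        36 ^ 19 * (2 * Real.log (3 * L)) ^ 19 * L ^ 38 := by
      rw [mul_pow, mul_pow, ← pow_mul]
    rw [h7] at h6
    calc 10 ^ 25 * ((4 * a * (2 ^ a) ^ 2 : ℕ) : ℝ) ^ 19
        ≤ 10 ^ 25 * (36 ^ 19 * (2 * Real.log (3 * L)) ^ 19 * L ^ 38) :=
          mul_le_mul_of_nonneg_left h6 (by positivity)
      _ = (10 ^ 25 * 36 ^ 19 * (2 * Real.log (3 * L)) ^ 19) * L ^ 38 := by ring
      _ ≤ L * L ^ 38 := mul_le_mul_of_nonneg_right hx2 (by positivity)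
      _ = L ^ 39 := by ring

theorem opp_large3 (F : ℤ × ℤ → ℤ) (hF : SignFn F) (z0 : ℤ × ℤ) (h0 : Odd (Nm z0))
    (hz0 : F z0 = -1) :
    ∀ᶠ x : ℕ in atTop, (x : ℝ) / Real.log x ^ 39 ≤ (Opp F (x : ℤ)).card := by
  obtain ⟨n0, hlist⟩ := exists_list3 F hF z0 h0 hz0
  filter_upwards [eventually_params n0] with x hx
  obtain ⟨J, n, hnn0, hn, hpig, hJL, hmaster, hLx, hL1⟩ := hx
  obtain ⟨l, hl, hprod, hlen, δ, hδ, hdir⟩ := hlist J n hnn0 hn hpig
  set L : ℝ := Real.log x with hL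
  have hn1 : (1 : ℝ) ≤ n := by exact_mod_cast hn
  have hnz : (1 : ℤ) ≤ n := by exact_mod_cast hn
  have hn0 : (0 : ℝ) < n := by linarith
  have hx0 : (0 : ℝ) < x := by
    have : (1 : ℝ) ≤ L ^ 39 := one_le_pow₀ hL1
    linarith
  have hxn : 10 ^ 25 * (n : ℝ) ^ 19 ≤ x := hmaster.trans hLx
  have hxn14 : 10 ^ 25 * (n : ℝ) ^ 14 ≤ x := by
    have : (n : ℝ) ^ 14 ≤ (n : ℝ) ^ 19 := pow_le_pow_right₀ hn1 (by norm_num)
    linarith
  set k1 : ℝ := (l.length : ℝ) + 1 with hk1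
  have hk10 : 1 ≤ k1 := by
    have : (0 : ℝ) ≤ l.length := Nat.cast_nonneg _
    linarith
  have hk : k1 ≤ 20001 * (n : ℝ) ^ 5 := by
    have : (1 : ℝ) ≤ (n : ℝ) ^ 5 := one_le_pow₀ hn1
    linarith
  have hk2 : k1 ^ 2 ≤ 20001 ^ 2 * (n : ℝ) ^ 10 := by
    calc k1 ^ 2 ≤ (20001 * (n : ℝ) ^ 5) ^ 2 := pow_le_pow_left₀ (by linarith) hk 2
      _ = _ := by ring
  have hk3 : k1 ^ 3 ≤ 20001 ^ 3 * (n : ℝ) ^ 15 := by
    calc k1 ^ 3 ≤ (20001 * (n : ℝ) ^ 5) ^ 3 := pow_le_pow_left₀ (by linarith) hk 3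
      _ = _ := by ring
  -- Q
  set w : ℝ := Real.sqrt (x / (100010 * (n : ℝ) ^ 4)) with hw
  have hw2 : w ^ 2 = x / (100010 * (n : ℝ) ^ 4) := by
    rw [hw, Real.sq_sqrt (by positivity)]
  have hw0 : 0 ≤ w := Real.sqrt_nonneg _
  have hn4 : (1 : ℝ) ≤ (n : ℝ) ^ 4 := one_le_pow₀ hn1
  have hwbig : 2 ≤ w := by
    have h2 : 4 ≤ w ^ 2 := by
      rw [hw2, le_div_iff₀ (by positivity)]
      have : (n : ℝ) ^ 4 ≤ (n : ℝ) ^ 14 := pow_le_pow_right₀ hn1 (by norm_num)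
      linarith
    nlinarith only [h2, hw0]
  set Q : ℕ := ⌊w⌋₊ with hQdef
  have hQw : (Q : ℝ) ≤ w := Nat.floor_le hw0
  have hwQ : w / 2 ≤ Q := by
    have := Nat.sub_one_lt_floor w
    linarith
  have hQ1r : (1 : ℝ) ≤ Q := by linarith
  have hQ1 : 1 ≤ Q := by exact_mod_cast hQ1r
  have hQ0 : (0 : ℝ) < Q := by linarith
  have hQ2 : x / (10 ^ 6 * (n : ℝ) ^ 4) ≤ (Q : ℝ) ^ 2 := by
    have h1 : (w / 2) ^ 2 ≤ (Q : ℝ) ^ 2 := pow_le_pow_left₀ (by positivity) hwQ 2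
    have h5 : (w / 2) ^ 2 = x / (400040 * (n : ℝ) ^ 4) := by
      rw [div_pow, hw2, div_div]; congr 1; ring
    rw [h5] at h1
    refine le_trans ?_ h1
    apply div_le_div_of_nonneg_left hx0.le (by positivity)
    have : (0 : ℝ) ≤ (n : ℝ) ^ 4 := by positivity
    linarith
  have hQ2' : (Q : ℝ) ^ 2 ≤ x / (100010 * (n : ℝ) ^ 4) := by
    rw [← hw2]; exact pow_le_pow_left₀ hQ0.le hQw 2
  have hQUx : 100010 * ((Q : ℝ) ^ 2 * (n : ℝ) ^ 4) ≤ x := by
    rw [le_div_iff₀ (by positivity)] at hQ2'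
    linarith
  have hQx : (Q : ℝ) ^ 2 ≤ x := by
    have : (Q : ℝ) ^ 2 * 1 ≤ (Q : ℝ) ^ 2 * (n : ℝ) ^ 4 :=
      mul_le_mul_of_nonneg_left hn4 (by positivity)
    have h2 : (0 : ℝ) ≤ (Q : ℝ) ^ 2 := by positivity
    linarith
  -- c and τ
  set c : ℝ := 1 / (36 * k1) with hc
  have hc0 : 0 < c := by positivity
  have hc1 : c ≤ 1 := by
    rw [hc, div_le_one (by positivity)]; linarith
  have hck : c * k1 = 1 / 36 := by rw [hc]; field_simp
  have hQlow : 10 ^ 19 * (n : ℝ) ^ 10 ≤ (Q : ℝ) ^ 2 := by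
    refine le_trans ?_ hQ2
    rw [le_div_iff₀ (by positivity)]
    calc 10 ^ 19 * (n : ℝ) ^ 10 * (10 ^ 6 * (n : ℝ) ^ 4) = 10 ^ 25 * (n : ℝ) ^ 14 := by ring
      _ ≤ (x : ℝ) := hxn14
  have hcQ : 4 ≤ c * (Q : ℝ) ^ 2 := by
    have h1 : 144 * k1 ≤ (Q : ℝ) ^ 2 := by
      refine le_trans ?_ hQlow
      have : (n : ℝ) ^ 5 ≤ (n : ℝ) ^ 10 := pow_le_pow_right₀ hn1 (by norm_num)
      linarith
    calc (4 : ℝ) = c * (144 * k1) := by rw [hc]; field_simp; norm_num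
      _ ≤ c * (Q : ℝ) ^ 2 := mul_le_mul_of_nonneg_left h1 hc0.le
  set τ : ℝ := 6 / (c ^ 2 * (Q : ℝ) ^ 2) with hτ
  have hτeq : τ = 7776 * k1 ^ 2 / (Q : ℝ) ^ 2 := by
    rw [hτ, hc]; field_simp; norm_num
  have hτ1 : τ ≤ 1 / 16 := by
    rw [hτeq, div_le_div_iff₀ (by positivity) (by norm_num)]
    have : 0 ≤ (n : ℝ) ^ 10 := by positivity
    nlinarith only [hk2, hQlow, this]
  have hδτ : |δ| ≤ τ := by
    refine hδ.trans ?_
    have h1 : (x : ℝ) ≤ 16 ^ J := by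
      calc (x : ℝ) = Real.exp L := (Real.exp_log hx0).symm
        _ ≤ Real.exp J := Real.exp_le_exp.2 hJL
        _ = (Real.exp 1) ^ J := by rw [← Real.exp_nat_mul, mul_one]
        _ ≤ 16 ^ J := by
            apply pow_le_pow_left₀ (Real.exp_pos 1).le
            have := Real.exp_one_lt_d9
            linarith
    have h2 : ((1 : ℝ) / 16) ^ J ≤ 1 / (Q : ℝ) ^ 2 := by
      rw [one_div_pow]
      apply one_div_le_one_div_of_le (by positivity)
      linarith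
    refine h2.trans ?_
    rw [hτeq]
    apply div_le_div_of_nonneg_right _ (by positivity)
    have : (1 : ℝ) ≤ k1 ^ 2 := one_le_pow₀ hk10
    linarith
  have hX : 10 * (Q : ℤ) ^ 2 * (10001 * (n : ℤ) ^ 4) ≤ (x : ℤ) := by
    have : (10 * (Q : ℝ) ^ 2 * (10001 * (n : ℝ) ^ 4)) ≤ (x : ℝ) := by linarith only [hQUx]
    exact_mod_cast this
  have hT : 1 ≤ 10001 * (n : ℤ) ^ 4 := by
    have h3 : (1 : ℤ) ≤ (n : ℤ) ^ 4 := one_le_pow₀ hnz
    linarith only [h3]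
  have hmain := main_ineq F hF (x : ℤ) (10001 * (n : ℤ) ^ 4) l hl hprod hT Q hQ1 c hc0 hc1 hcQ hX τ
    hτ hτ1 δ hδτ hdir
  rw [← hk1] at hmain
  set N : ℝ := ((Opp F (x : ℤ)).card : ℝ) with hN
  have hpi := Real.pi_pos
  have h1 : 1 ≤ 48 * τ * k1 * N := by
    have : 2 * Real.pi ≤ Real.pi * (36 * (c * k1)) + Real.pi * (48 * τ * k1 * N) := by
      linarith [hmain, show k1 * (36 * Real.pi * c + 48 * Real.pi * τ * N) =
        Real.pi * (36 * (c * k1)) + Real.pi * (48 * τ * k1 * N) by ring]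
    rw [hck] at this
    have h2 : Real.pi * 1 ≤ Real.pi * (48 * τ * k1 * N) := by linarith
    exact le_of_mul_le_mul_left h2 hpi
  have h2 : (Q : ℝ) ^ 2 ≤ 373248 * k1 ^ 3 * N := by
    rw [hτeq] at h1
    have h3 : 48 * (7776 * k1 ^ 2 / (Q : ℝ) ^ 2) * k1 * N = 373248 * k1 ^ 3 * N / (Q : ℝ) ^ 2 := by
      ring
    rw [h3, le_div_iff₀ (by positivity), one_mul] at h1
    exact h1
  have hN0 : 0 ≤ N := Nat.cast_nonneg _
  have h3 : (x : ℝ) ≤ 10 ^ 25 * (n : ℝ) ^ 19 * N := by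
    have h4 : x / (10 ^ 6 * (n : ℝ) ^ 4) ≤ 373248 * (20001 ^ 3 * (n : ℝ) ^ 15) * N := by
      refine (hQ2.trans h2).trans ?_
      apply mul_le_mul_of_nonneg_right _ hN0
      linarith
    rw [div_le_iff₀ (by positivity)] at h4
    calc (x : ℝ) ≤ 373248 * (20001 ^ 3 * (n : ℝ) ^ 15) * N * (10 ^ 6 * (n : ℝ) ^ 4) := h4
      _ = (373248 * 20001 ^ 3 * 10 ^ 6) * ((n : ℝ) ^ 19 * N) := by ring
      _ ≤ 10 ^ 25 * ((n : ℝ) ^ 19 * N) := by
          apply mul_le_mul_of_nonneg_right (by norm_num) (by positivity)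
      _ = 10 ^ 25 * (n : ℝ) ^ 19 * N := by ring
  rw [div_le_iff₀ (by positivity)]
  calc (x : ℝ) ≤ 10 ^ 25 * (n : ℝ) ^ 19 * N := h3
    _ ≤ L ^ 39 * N := mul_le_mul_of_nonneg_right hmaster hN0
    _ = N * L ^ 39 := mul_comm _ _

theorem count_large3 (F : ℤ × ℤ → ℤ) (hF : SignFn F) (z0 : ℤ × ℤ) (h0 : Odd (Nm z0))
    (hz0 : F z0 = -1) (P : ℕ → Prop) [DecidablePred P]
    (hP : ∀ (X : ℤ) (p q : ℤ × ℤ), IsOpp F X p q → P (dp p q).natAbs) :
    ∀ᶠ x : ℕ in atTop, (x : ℝ) / Real.log x ^ 111 ≤ ((Finset.range (x + 1)).filter P).card := by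
  have hL : Tendsto (fun x : ℕ => Real.log x) atTop atTop :=
    Real.tendsto_log_atTop.comp tendsto_natCast_atTop_atTop
  filter_upwards [opp_large3 F hF z0 h0 hz0, hL.eventually_ge_atTop (832 * 2 ^ 32),
    eventually_ge_atTop 1] with x hx hLx hx1
  have hsq := opp_sq_le F P hP x hx1
  set L : ℝ := Real.log x with hLdef
  have hx0 : (0 : ℝ) < x := by
    have : 0 < x := hx1
    exact_mod_cast this
  have hL1 : 1 ≤ L := le_trans (by norm_num) hLx
  have hL0 : 0 < L := by linarith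
  set S : ℝ := (((Finset.range (x + 1)).filter P).card : ℝ) with hS
  have hS0 : 0 ≤ S := Nat.cast_nonneg _
  have h1 : 832 * x * (1 + L) ^ 32 ≤ x * L ^ 33 := by
    have h2 : (1 + L) ^ 32 ≤ (2 * L) ^ 32 := pow_le_pow_left₀ (by linarith) (by linarith) 32
    have h3 : (2 * L) ^ 32 = 2 ^ 32 * L ^ 32 := mul_pow _ _ _
    calc 832 * x * (1 + L) ^ 32 ≤ 832 * x * (2 ^ 32 * L ^ 32) := by
          rw [← h3]; exact mul_le_mul_of_nonneg_left h2 (by positivity)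
      _ = (832 * 2 ^ 32) * (x * L ^ 32) := by ring
      _ ≤ L * (x * L ^ 32) := mul_le_mul_of_nonneg_right hLx (by positivity)
      _ = x * L ^ 33 := by ring
  have h3 : (x / L ^ 39) ^ 2 ≤ S * (x * L ^ 33) := by
    calc (x / L ^ 39) ^ 2 ≤ ((Opp F (x : ℤ)).card : ℝ) ^ 2 :=
          pow_le_pow_left₀ (by positivity) hx 2
      _ ≤ S * (832 * x * (1 + L) ^ 32) := hsq
      _ ≤ S * (x * L ^ 33) := mul_le_mul_of_nonneg_left h1 hS0
  have h4 : (x / L ^ 39) ^ 2 = (x / L ^ 111) * (x * L ^ 33) := by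
    field_simp
  rw [h4] at h3
  exact le_of_mul_le_mul_right h3 (by positivity)

/-- The general theorem. -/
theorem general3 (L : ℕ → ℤ) (h1 : ∀ n, 0 < n → L n = 1 ∨ L n = -1)
    (h2 : ∀ m n, 0 < m → 0 < n → L (m * n) = L m * L n) :
    ((∃ n0 : ℕ, Even n0 ∧ L (n0 ^ 2 + 1) = -1) →
      ∀ᶠ x : ℕ in atTop, (x : ℝ) / Real.log x ^ 111 ≤
        ((Finset.range (x + 1)).filter (fun m => Even m ∧ L (m ^ 2 + 1) = -1)).card) ∧
    ∀ᶠ x : ℕ in atTop, (x : ℝ) / Real.log x ^ 111 ≤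
      ((Finset.range (x + 1)).filter (fun m => Even m ∧ L (m ^ 2 + 1) = 1)).card := by
  constructor
  · rintro ⟨n0, hn0, hL⟩
    have e : Nm ((n0 : ℤ), 1) = ((n0 ^ 2 + 1 : ℕ) : ℤ) := by unfold Nm; push_cast; ring
    have hodd : Odd (Nm ((n0 : ℤ), 1)) := by
      rw [e]
      have : Odd (n0 ^ 2 + 1) := (hn0.pow_of_ne_zero (by norm_num)).add_one
      exact_mod_cast this
    refine count_large3 (FL L) (signFn_FL h1 h2) ((n0 : ℤ), 1) hodd ?_ _ ?_
    · rw [FL_of_odd L hodd, e, Int.natAbs_natCast, hL]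
    · intro X p q h
      refine ⟨(label h).1, ?_⟩
      rw [L_label h2 h]
      have h3 := h.2.2.2.2.2
      rcases (signFn_FL h1 h2).pm p with h4 | h4 <;> rcases (signFn_FL h1 h2).pm q with h5 | h5 <;>
        rw [h4, h5] at h3 ⊢ <;> simp at h3 ⊢
  · have e : Nm ((0 : ℤ), 1) = 1 := by unfold Nm; norm_num
    have hodd : Odd (Nm ((0 : ℤ), 1)) := by rw [e]; exact odd_one
    refine count_large3 (FK L) (signFn_FK h1 h2) ((0 : ℤ), 1) hodd ?_ _ ?_
    · unfold FK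
      rw [FL_of_odd L hodd, e, Int.natAbs_one]
      have h3 : L 1 = L 1 * L 1 := by simpa using h2 1 1 one_pos one_pos
      have h4 : L 1 = 1 := by
        rcases h1 1 one_pos with h | h
        · exact h
        · rw [h] at h3; norm_num at h3
      rw [h4]
      unfold kap; simp
    · intro X p q h
      refine ⟨(label h).1, ?_⟩
      rw [L_label h2 h]
      have h3 := h.2.2.2.2.2
      have h6 := kap_adj h.1 h.2.2.2.1 h.2.2.2.2.1
      unfold FK at h3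
      rcases (signFn_FL h1 h2).pm p with h4 | h4 <;> rcases (signFn_FL h1 h2).pm q with h5 | h5 <;>
        rcases kap_pm p with h7 | h7 <;> rcases kap_pm q with h8 | h8 <;>
        rw [h4, h5, h7, h8] at h3 <;> rw [h7, h8] at h6 <;> rw [h4, h5] <;> simp at h3 h6 ⊢

/-- The Liouville case. -/
theorem liouville3 :
    (∀ᶠ x : ℕ in atTop, (x : ℝ) / Real.log x ^ 111 ≤
      ((Finset.range (x + 1)).filter (fun m => Even m ∧
        Odd (ArithmeticFunction.cardFactors (m ^ 2 + 1)))).card) ∧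
    (∀ᶠ x : ℕ in atTop, (x : ℝ) / Real.log x ^ 111 ≤
      ((Finset.range (x + 1)).filter (fun m => Even m ∧
        Even (ArithmeticFunction.cardFactors (m ^ 2 + 1)))).card) := by
  set L : ℕ → ℤ := fun n => (-1) ^ (ArithmeticFunction.cardFactors n) with hL
  have h1 : ∀ n, 0 < n → L n = 1 ∨ L n = -1 := fun n _ => neg_one_pow_eq_or ℤ _
  have h2 : ∀ m n, 0 < m → 0 < n → L (m * n) = L m * L n := by
    intro m n hm hn
    simp only [hL]
    rw [ArithmeticFunction.cardFactors_mul hm.ne' hn.ne', pow_add]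
  have ho : ∀ n, L n = -1 ↔ Odd (ArithmeticFunction.cardFactors n) := by
    intro n
    simp only [hL]
    constructor
    · intro h
      by_contra hcon
      rw [Nat.not_odd_iff_even] at hcon
      rw [hcon.neg_one_pow] at h
      norm_num at h
    · exact fun h => h.neg_one_pow
  have he : ∀ n, L n = 1 ↔ Even (ArithmeticFunction.cardFactors n) := by
    intro n
    simp only [hL]
    constructor
    · intro h
      by_contra hcon
      rw [Nat.not_even_iff_odd] at hcon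
      rw [hcon.neg_one_pow] at h
      norm_num at h
    · exact fun h => h.neg_one_pow
  have hg := general3 L h1 h2
  constructor
  · have h3 : ∃ n0 : ℕ, Even n0 ∧ L (n0 ^ 2 + 1) = -1 := by
      refine ⟨2, even_two, ?_⟩
      rw [ho]
      have : Nat.Prime (2 ^ 2 + 1) := by norm_num
      rw [ArithmeticFunction.cardFactors_apply_prime this]
      exact odd_one
    filter_upwards [hg.1 h3] with x hx
    refine hx.trans (le_of_eq ?_)
    congr 2
    ext m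
    simp only [Finset.mem_filter, ho]
  · filter_upwards [hg.2] with x hx
    refine hx.trans (le_of_eq ?_)
    congr 2
    ext m
    simp only [Finset.mem_filter, he]

end Pool.Agent.ParityQuad
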