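import Pool.Agent.Lib_MP_f1a94e_h8.Main

/-!
# MP_f1a94e_nt: the parity of the number of prime factors of `m ^ 2 + 1`, logarithmic loss

Every prime `m ^ 2 + 1 > 2` has `m` even and an odd number of prime factors. We show that for every
`A > 7` there are infinitely many `N` such that at least `√N / (log N) ^ A` of the integers
`m ^ 2 + 1 ≤ N` with `m` even have an odd number of prime factors counted with multiplicity (and
the same for an even number). The first part of Q1 asks for `C √N / log N` primes.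
-/

namespace Pool.Agent.ParityQuad.OddOmegaLog

open Filter

theorem transfer {A : ℝ} (hA : 7 < A) (P : ℕ → Prop) (h : ∃ᶠ x : ℕ in atTop,
      (x : ℝ) / Real.log x ^ A ≤ Set.ncard {m : ℕ | m ≤ x ∧ Even m ∧ P (m ^ 2 + 1)}) :
    ∃ᶠ N : ℕ in atTop, Real.sqrt N / Real.log N ^ A ≤
      Set.ncard {k : ℕ | k ≤ N ∧ (∃ m : ℕ, Even m ∧ k = m ^ 2 + 1) ∧ P k} := by
  rw [frequently_atTop] at h ⊢
  intro N0
  obtain ⟨x, hx, hle⟩ := h (max N0 3)
  have hx3 : 3 ≤ x := (le_max_right N0 3).trans hx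
  have hx0 : N0 ≤ x := (le_max_left N0 3).trans hx
  refine ⟨x ^ 2 + 1, ?_, ?_⟩
  · show N0 ≤ x ^ 2 + 1
    nlinarith
  have hinj : (Set.ncard {m : ℕ | m ≤ x ∧ Even m ∧ P (m ^ 2 + 1)} : ℝ) ≤
      Set.ncard {k : ℕ | k ≤ x ^ 2 + 1 ∧ (∃ m : ℕ, Even m ∧ k = m ^ 2 + 1) ∧ P k} := by
    norm_cast
    have hfin : {k : ℕ | k ≤ x ^ 2 + 1 ∧ (∃ m : ℕ, Even m ∧ k = m ^ 2 + 1) ∧ P k}.Finite :=
      (Set.finite_Iic (x ^ 2 + 1)).subset fun k hk => hk.1
    refine Set.ncard_le_ncard_of_injOn (fun m => m ^ 2 + 1) ?_ ?_ hfin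
    · rintro m ⟨hm1, hm2, hm3⟩
      refine ⟨?_, ⟨m, hm2, rfl⟩, hm3⟩
      have : m ^ 2 ≤ x ^ 2 := Nat.pow_le_pow_left hm1 2
      show m ^ 2 + 1 ≤ x ^ 2 + 1
      omega
    · intro a _ b _ hab
      have : a ^ 2 = b ^ 2 := by simpa using hab
      exact (Nat.pow_left_injective (n := 2) (by norm_num)) this
  refine le_trans ?_ (hle.trans hinj)
  have hxr : (3 : ℝ) ≤ x := by exact_mod_cast hx3
  have h1 : Real.sqrt ((x ^ 2 + 1 : ℕ) : ℝ) ≤ 2 * x := by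
    rw [show (2 * (x : ℝ)) = Real.sqrt ((2 * (x : ℝ)) ^ 2) from
      (Real.sqrt_sq (by positivity)).symm]
    apply Real.sqrt_le_sqrt
    push_cast
    nlinarith
  have hlogx : 0 < Real.log x := Real.log_pos (by linarith)
  have h2 : 2 * Real.log x ≤ Real.log ((x ^ 2 + 1 : ℕ) : ℝ) := by
    have h3 : Real.log ((x : ℝ) ^ 2) ≤ Real.log ((x ^ 2 + 1 : ℕ) : ℝ) := by
      apply Real.log_le_log (by positivity)
      push_cast
      linarith
    rw [Real.log_pow] at h3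
    exact_mod_cast h3
  have h4 : 2 * Real.log x ^ A ≤ Real.log ((x ^ 2 + 1 : ℕ) : ℝ) ^ A := by
    calc 2 * Real.log x ^ A ≤ 2 ^ A * Real.log x ^ A := by
          apply mul_le_mul_of_nonneg_right _ (Real.rpow_nonneg hlogx.le _)
          calc (2 : ℝ) = 2 ^ (1 : ℝ) := (Real.rpow_one 2).symm
            _ ≤ 2 ^ A := Real.rpow_le_rpow_of_exponent_le (by norm_num) (by linarith)
      _ = (2 * Real.log x) ^ A := (Real.mul_rpow (by norm_num) hlogx.le).symm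
      _ ≤ Real.log ((x ^ 2 + 1 : ℕ) : ℝ) ^ A := Real.rpow_le_rpow (by positivity) h2 (by linarith)
  have hLA : 0 < Real.log x ^ A := Real.rpow_pos_of_pos hlogx _
  calc Real.sqrt ((x ^ 2 + 1 : ℕ) : ℝ) / Real.log ((x ^ 2 + 1 : ℕ) : ℝ) ^ A
      ≤ (2 * x) / (2 * Real.log x ^ A) := by
        apply div_le_div₀ (by positivity) h1 (by positivity) h4
    _ = x / Real.log x ^ A := by
        rw [mul_div_mul_left _ _ (by norm_num)]

/-- the sign function `(-1) ^ Ω(n)` -/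
theorem sign_pm (n : ℕ) (_ : 0 < n) :
    (-1 : ℤ) ^ ArithmeticFunction.cardFactors n = 1 ∨
      (-1 : ℤ) ^ ArithmeticFunction.cardFactors n = -1 :=
  neg_one_pow_eq_or ℤ _

theorem sign_mul (m n : ℕ) (hm : 0 < m) (hn : 0 < n) :
    (-1 : ℤ) ^ ArithmeticFunction.cardFactors (m * n) =
      (-1 : ℤ) ^ ArithmeticFunction.cardFactors m * (-1 : ℤ) ^ ArithmeticFunction.cardFactors n := by
  rw [ArithmeticFunction.cardFactors_mul hm.ne' hn.ne', pow_add]

theorem result :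
    (∀ A : ℝ, 7 < A →
      (∃ᶠ N : ℕ in atTop, Real.sqrt N / Real.log N ^ A ≤
        Set.ncard {k : ℕ | k ≤ N ∧ (∃ m : ℕ, Even m ∧ k = m ^ 2 + 1) ∧
          Odd (ArithmeticFunction.cardFactors k)}) ∧
      (∃ᶠ N : ℕ in atTop, Real.sqrt N / Real.log N ^ A ≤
        Set.ncard {k : ℕ | k ≤ N ∧ (∃ m : ℕ, Even m ∧ k = m ^ 2 + 1) ∧
          Even (ArithmeticFunction.cardFactors k)})) ∧
    (∀ g : ℕ → ℤ, (∀ n, 0 < n → g n = 1 ∨ g n = -1) →
      (∀ m n, 0 < m → 0 < n → g (m * n) = g m * g n) → ∀ A : ℝ, 7 < A →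
      ((∃ m : ℕ, Even m ∧ g (m ^ 2 + 1) = -1) → ∃ᶠ x : ℕ in atTop,
        (x : ℝ) / Real.log x ^ A ≤
          Set.ncard {m : ℕ | m ≤ x ∧ Even m ∧ g (m ^ 2 + 1) = -1}) ∧
      (∃ᶠ x : ℕ in atTop,
        (x : ℝ) / Real.log x ^ A ≤
          Set.ncard {m : ℕ | m ≤ x ∧ Even m ∧ g (m ^ 2 + 1) = 1})) := by
  have hgen : ∀ g : ℕ → ℤ, (∀ n, 0 < n → g n = 1 ∨ g n = -1) →
      (∀ m n, 0 < m → 0 < n → g (m * n) = g m * g n) → ∀ A : ℝ, 7 < A →
      ((∃ m : ℕ, Even m ∧ g (m ^ 2 + 1) = -1) → ∃ᶠ x : ℕ in atTop,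
        (x : ℝ) / Real.log x ^ A ≤
          Set.ncard {m : ℕ | m ≤ x ∧ Even m ∧ g (m ^ 2 + 1) = -1}) ∧
      (∃ᶠ x : ℕ in atTop,
        (x : ℝ) / Real.log x ^ A ≤
          Set.ncard {m : ℕ | m ≤ x ∧ Even m ∧ g (m ^ 2 + 1) = 1}) := by
    intro g hg1 hg2 A hA
    constructor
    · intro h
      rw [frequently_atTop]
      intro N0
      exact Pool.Agent.OddOmega.Gen.main_neg hg1 hg2 h hA N0
    · rw [frequently_atTop]
      intro N0
      exact Pool.Agent.OddOmega.Gen.main_pos hg1 hg2 hA N0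
  refine ⟨?_, hgen⟩
  intro A hA
  obtain ⟨h1, h2⟩ := hgen (fun n => (-1 : ℤ) ^ ArithmeticFunction.cardFactors n)
    sign_pm sign_mul A hA
  have h5 : ArithmeticFunction.cardFactors (2 ^ 2 + 1) = 1 :=
    ArithmeticFunction.cardFactors_apply_prime (by norm_num)
  have h1' := h1 ⟨2, by decide, by rw [h5]; norm_num⟩
  constructor
  · refine transfer hA (fun k => Odd (ArithmeticFunction.cardFactors k)) (h1'.mono fun x hx => ?_)
    refine hx.trans (le_of_eq ?_)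
    congr 2
    ext m
    simp only [Set.mem_ofPred_eq, neg_one_pow_eq_neg_one_iff_odd (R := ℤ) (by norm_num : (-1 : ℤ) ≠ 1)]
  · refine transfer hA (fun k => Even (ArithmeticFunction.cardFactors k)) (h2.mono fun x hx => ?_)
    refine hx.trans (le_of_eq ?_)
    congr 2
    ext m
    simp only [Set.mem_ofPred_eq, neg_one_pow_eq_one_iff_even (R := ℤ) (by norm_num : (-1 : ℤ) ≠ 1)]

end Pool.Agent.ParityQuad.OddOmegaLog
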