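import Pool.Agent.Lib_MP_f1a94e_nt.Final3

/-!
# MP_f1a94e_nt: the parity of the number of prime factors of `m ^ 2 + 1`

Every prime `m ^ 2 + 1 > 2` has `m` even and an odd number of prime factors. We show that up to `N`
there are, for all large `N`, at least `√N / (log N) ^ 111` integers `m ^ 2 + 1` (with `m` even) with
an odd number of prime factors counted with multiplicity, and as many with an even number; the first
part of Q1 asks for `C √N / log N` primes. More generally this holds for every completely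
multiplicative `g : ℕ → {1, -1}` instead of the Liouville function.
-/

namespace Pool.Agent.ParityQuad.OddOmegaPolylog

open Filter

theorem filter_card (x : ℕ) (P : ℕ → Prop) [DecidablePred P] :
    ((Finset.range (x + 1)).filter P).card = Set.ncard {m : ℕ | m ≤ x ∧ P m} := by
  rw [← Set.ncard_coe_finset]
  congr 1
  ext m
  simp

theorem transfer (P : ℕ → Prop) (h : ∀ᶠ x : ℕ in atTop,
      (x : ℝ) / Real.log x ^ 111 ≤
        Set.ncard {m : ℕ | m ≤ x ∧ (Even m ∧ P (m ^ 2 + 1))}) :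
    ∀ᶠ N : ℕ in atTop, Real.sqrt N / Real.log N ^ 111 ≤
      Set.ncard {k : ℕ | k ≤ N ∧ (∃ m : ℕ, Even m ∧ k = m ^ 2 + 1) ∧ P k} := by
  have hsq : Tendsto (fun N : ℕ => Nat.sqrt (N - 1)) atTop atTop := by
    refine tendsto_atTop.2 fun b => ?_
    filter_upwards [eventually_ge_atTop (b ^ 2 + 1)] with N hN
    rw [Nat.le_sqrt']
    omega
  filter_upwards [hsq.eventually h, eventually_ge_atTop 17] with N hN hN17
  set x := Nat.sqrt (N - 1) with hx
  have hxx : x ^ 2 ≤ N - 1 := Nat.sqrt_le' _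
  have hinj : (Set.ncard {m : ℕ | m ≤ x ∧ (Even m ∧ P (m ^ 2 + 1))} : ℝ) ≤
      Set.ncard {k : ℕ | k ≤ N ∧ (∃ m : ℕ, Even m ∧ k = m ^ 2 + 1) ∧ P k} := by
    norm_cast
    have hfin : {k : ℕ | k ≤ N ∧ (∃ m : ℕ, Even m ∧ k = m ^ 2 + 1) ∧ P k}.Finite :=
      (Set.finite_Iic N).subset fun k hk => hk.1
    refine Set.ncard_le_ncard_of_injOn (fun m => m ^ 2 + 1) ?_ ?_ hfin
    · rintro m ⟨hm1, hm2, hm3⟩
      refine ⟨?_, ⟨m, hm2, rfl⟩, hm3⟩
      have : m ^ 2 ≤ x ^ 2 := Nat.pow_le_pow_left hm1 2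
      show m ^ 2 + 1 ≤ N
      omega
    · intro a _ b _ hab
      have : a ^ 2 = b ^ 2 := by simpa using hab
      exact (Nat.pow_left_injective (n := 2) (by norm_num)) this
  refine le_trans ?_ (hN.trans hinj)
  have hN17r : (17 : ℝ) ≤ N := by exact_mod_cast hN17
  have hN0 : (0 : ℝ) < N := by linarith
  have h4 : 4 ≤ x := by
    rw [hx, Nat.le_sqrt']; omega
  have h4r : (4 : ℝ) ≤ x := by exact_mod_cast h4
  have hx0 : (0 : ℝ) < x := by linarith
  -- x ≥ √N / 2
  have hx1 : (N : ℝ) ≤ (2 * (x : ℝ)) ^ 2 := by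
    have h1 : N - 1 < (x + 1) ^ 2 := Nat.lt_succ_sqrt' _
    have h2 : N ≤ (2 * x) ^ 2 := by
      have : (x + 1) ^ 2 + 1 ≤ (2 * x) ^ 2 := by nlinarith
      omega
    exact_mod_cast h2
  have h1 : Real.sqrt N ≤ 2 * x := by
    rw [show (2 * (x : ℝ)) = Real.sqrt ((2 * (x : ℝ)) ^ 2) from
      (Real.sqrt_sq (by positivity)).symm]
    exact Real.sqrt_le_sqrt hx1
  -- logarithms
  have hlogx0 : 0 < Real.log x := Real.log_pos (by linarith)
  have hlogx : 2 * Real.log x ≤ Real.log N := by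
    have h2 : (x : ℝ) ^ 2 ≤ N := by
      have : x ^ 2 ≤ N := hxx.trans (Nat.sub_le _ _)
      exact_mod_cast this
    have h3 := Real.log_le_log (by positivity) h2
    rw [Real.log_pow] at h3
    exact_mod_cast h3
  have h5 : 2 * Real.log x ^ 111 ≤ Real.log N ^ 111 := by
    calc 2 * Real.log x ^ 111 ≤ 2 ^ 111 * Real.log x ^ 111 := by
          apply mul_le_mul_of_nonneg_right (by norm_num) (by positivity)
      _ = (2 * Real.log x) ^ 111 := (mul_pow _ _ _).symm
      _ ≤ Real.log N ^ 111 := pow_le_pow_left₀ (by linarith) hlogx 111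
  have hlogN : 0 < Real.log N := by linarith
  calc Real.sqrt N / Real.log N ^ 111 ≤ (2 * x) / (2 * Real.log x ^ 111) :=
        div_le_div₀ (by positivity) h1 (by positivity) h5
    _ = x / Real.log x ^ 111 := by
        rw [mul_div_mul_left _ _ two_ne_zero]

theorem result :
    (∀ᶠ N : ℕ in atTop,
      Real.sqrt N / Real.log N ^ 111 ≤
        Set.ncard {k : ℕ | k ≤ N ∧ (∃ m : ℕ, Even m ∧ k = m ^ 2 + 1) ∧
          Odd (ArithmeticFunction.cardFactors k)} ∧
      Real.sqrt N / Real.log N ^ 111 ≤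
        Set.ncard {k : ℕ | k ≤ N ∧ (∃ m : ℕ, Even m ∧ k = m ^ 2 + 1) ∧
          Even (ArithmeticFunction.cardFactors k)}) ∧
    (∀ g : ℕ → ℤ, (∀ n, 0 < n → g n = 1 ∨ g n = -1) →
      (∀ m n, 0 < m → 0 < n → g (m * n) = g m * g n) →
      ((∃ m : ℕ, Even m ∧ g (m ^ 2 + 1) = -1) → ∀ᶠ x : ℕ in atTop,
        (x : ℝ) / Real.log x ^ 111 ≤
          Set.ncard {m : ℕ | m ≤ x ∧ Even m ∧ g (m ^ 2 + 1) = -1}) ∧
      (∀ᶠ x : ℕ in atTop,
        (x : ℝ) / Real.log x ^ 111 ≤
          Set.ncard {m : ℕ | m ≤ x ∧ Even m ∧ g (m ^ 2 + 1) = 1})) := by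
  constructor
  · have h1 := transfer (fun k => Odd (ArithmeticFunction.cardFactors k)) (by
      filter_upwards [Pool.Agent.ParityQuad.liouville3.1] with x hx
      rw [filter_card] at hx
      exact hx)
    have h2 := transfer (fun k => Even (ArithmeticFunction.cardFactors k)) (by
      filter_upwards [Pool.Agent.ParityQuad.liouville3.2] with x hx
      rw [filter_card] at hx
      exact hx)
    exact h1.and h2
  · intro g hg1 hg2
    obtain ⟨h1, h2⟩ := Pool.Agent.ParityQuad.general3 g hg1 hg2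
    constructor
    · intro h
      filter_upwards [h1 h] with x hx
      rw [filter_card] at hx
      exact hx
    · filter_upwards [h2] with x hx
      rw [filter_card] at hx
      exact hx

end Pool.Agent.ParityQuad.OddOmegaPolylog
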